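import Pool.Agent.W561.Sallee.PlaneMain

set_option autoImplicit false

/-!
# The length of a closed plane curve is at least the perimeter of its hull
-/

namespace Pool.Agent.W561.Sallee

open Set MeasureTheory intervalIntegral

lemma int_abs_sin : II (fun θ => |Real.sin θ|) = 4 := by
  unfold II
  have hi : ∀ a b : ℝ, IntervalIntegrable (fun θ => |Real.sin θ|) volume a b := fun a b =>
    Real.continuous_sin.abs.intervalIntegrable _ _
  rw [← intervalIntegral.integral_add_adjacent_intervals (hi 0 Real.pi) (hi Real.pi _)]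
  have h1 : ∫ θ in (0 : ℝ)..Real.pi, |Real.sin θ| = ∫ θ in (0 : ℝ)..Real.pi, Real.sin θ := by
    refine intervalIntegral.integral_congr fun θ hθ => ?_
    rw [uIcc_of_le Real.pi_pos.le] at hθ
    exact abs_of_nonneg (Real.sin_nonneg_of_nonneg_of_le_pi hθ.1 hθ.2)
  have h2 : ∫ θ in Real.pi..(2 * Real.pi), |Real.sin θ| =
      ∫ θ in Real.pi..(2 * Real.pi), - Real.sin θ := by
    refine intervalIntegral.integral_congr fun θ hθ => ?_
    rw [uIcc_of_le (by linarith [Real.pi_pos])] at hθ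
    apply abs_of_nonpos
    have : 0 ≤ Real.sin (θ - Real.pi) :=
      Real.sin_nonneg_of_nonneg_of_le_pi (by linarith [hθ.1]) (by linarith [hθ.2])
    rw [Real.sin_sub_pi] at this
    linarith
  rw [h1, h2, intervalIntegral.integral_neg, integral_sin, integral_sin, Real.cos_zero,
    Real.cos_pi, Real.cos_two_pi]
  norm_num

lemma int_abs_pr (z : ℂ) : II (fun θ => |pr z θ|) = 4 * ‖z‖ := by
  have h1 : ∀ θ, |pr z θ| = ‖z‖ * |Real.sin (θ + (Real.pi / 2 - Complex.arg z))| := by
    intro θ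
    have h2 := Complex.norm_mul_cos_arg z
    have h3 := Complex.norm_mul_sin_arg z
    have h4 : pr z θ = ‖z‖ * Real.sin (θ + (Real.pi / 2 - Complex.arg z)) := by
      rw [show θ + (Real.pi / 2 - Complex.arg z) = (θ - Complex.arg z) + Real.pi / 2 by ring,
        Real.sin_add_pi_div_two, Real.cos_sub]
      simp only [pr]
      rw [← h2, ← h3]
      ring
    rw [h4, abs_mul, abs_of_nonneg (norm_nonneg z)]
  simp only [h1]
  rw [II_mul, II_shift (F := fun θ => |Real.sin θ|)
    (fun θ => by simp only [Real.sin_add_two_pi]), int_abs_sin]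
  ring

lemma closed_var (q : ℕ → ℝ) (n : ℕ) (hq : q n = q 0) {a b : ℕ} (ha : a ≤ n) (hb : b ≤ n) :
    2 * (q a - q b) ≤ ∑ i ∈ Finset.range n, |q (i + 1) - q i| := by
  have key : ∀ a b : ℕ, a ≤ b → b ≤ n → 2 * |q a - q b| ≤
      ∑ i ∈ Finset.range n, |q (i + 1) - q i| := by
    intro a b hab hbn
    have e : ∀ i, |q (i + 1) - q i| = dist (q i) (q (i + 1)) := fun i => by
      rw [Real.dist_eq, abs_sub_comm]
    simp only [e]
    have h1 : ∑ i ∈ Finset.range n, dist (q i) (q (i + 1)) =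
        ∑ i ∈ Finset.Ico 0 a, dist (q i) (q (i + 1)) +
          ∑ i ∈ Finset.Ico a b, dist (q i) (q (i + 1)) +
          ∑ i ∈ Finset.Ico b n, dist (q i) (q (i + 1)) := by
      rw [Finset.sum_Ico_consecutive _ (Nat.zero_le a) hab,
        Finset.sum_Ico_consecutive _ (Nat.zero_le b) hbn, Finset.range_eq_Ico]
    have h2 := dist_le_Ico_sum_dist q (Nat.zero_le a)
    have h3 := dist_le_Ico_sum_dist q hab
    have h4 := dist_le_Ico_sum_dist q hbn
    rw [hq] at h4
    have h5 : dist (q a) (q b) ≤ dist (q 0) (q a) + dist (q b) (q 0) := by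
      have := dist_triangle (q a) (q 0) (q b)
      rw [dist_comm (q a) (q 0), dist_comm (q 0) (q b)] at this
      exact this
    rw [h1]
    rw [← Real.dist_eq]
    linarith
  rcases le_total a b with h | h
  · have := key a b h hb
    linarith [le_abs_self (q a - q b)]
  · have := key b a h ha
    rw [abs_sub_comm] at this
    linarith [le_abs_self (q a - q b)]

/-- **Cauchy-Crofton inequality**: the length `L` of a closed plane curve is at least the
perimeter of its hull. -/
theorem crofton {ξ : ℝ → ℂ} {L : ℝ} (hL : 0 < L) (hξ : ∀ s t, ‖ξ s - ξ t‖ ≤ |s - t|)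
    (hp : Function.Periodic ξ L) {h : ℝ → ℝ} (hh : IsSupp (range ξ) h) : II h ≤ L := by
  obtain ⟨R, hR⟩ : ∃ R, ∀ z ∈ range ξ, ‖z‖ ≤ R := by
    refine ⟨‖ξ 0‖ + L, ?_⟩
    rintro _ ⟨s, rfl⟩
    obtain ⟨s', hs', e⟩ := hp.exists_mem_Ico₀ hL s
    rw [e]
    have h1 := hξ s' 0
    rw [sub_zero, abs_of_nonneg hs'.1] at h1
    have h2 : ‖ξ s'‖ ≤ ‖ξ s' - ξ 0‖ + ‖ξ 0‖ := by
      have := norm_add_le (ξ s' - ξ 0) (ξ 0)
      rwa [sub_add_cancel] at this
    linarith [hs'.2]
  have ch : Continuous h := hh.continuous hR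
  have ph : Function.Periodic h (2 * Real.pi) := fun θ => hh.periodic θ
  have hle : ∀ n : ℕ, 0 < n → II h ≤ L + 4 * Real.pi * L / n := by
    intro n hn
    have hn' : (0 : ℝ) < n := Nat.cast_pos.2 hn
    set t := L / n with ht
    have ht0 : 0 < t := div_pos hL hn'
    have hnt : (n : ℝ) * t = L := by rw [ht]; field_simp
    -- approximation of the support function by the grid
    have happ : ∀ θ, ∃ a ≤ n, h θ - 2 * t ≤ pr (ξ (a * t)) θ := by
      intro θ
      obtain ⟨y, ⟨z, ⟨s, rfl⟩, rfl⟩, hs⟩ := (lt_isLUB_iff (hh θ)).1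
        (show h θ - t < h θ by linarith)
      obtain ⟨s', hs', e⟩ := hp.exists_mem_Ico₀ hL s
      simp only [e] at hs
      refine ⟨⌊s' / t⌋₊, ?_, ?_⟩
      · have h1 : s' / t ≤ n := by rw [div_le_iff₀ ht0, hnt]; exact hs'.2.le
        exact Nat.floor_le_of_le h1
      · have h1 := Nat.floor_le (div_nonneg hs'.1 ht0.le)
        have h2 := Nat.lt_floor_add_one (s' / t)
        rw [le_div_iff₀ ht0] at h1
        rw [div_lt_iff₀ ht0] at h2
        have h3 := hξ s' (⌊s' / t⌋₊ * t)
        rw [abs_of_nonneg (by linarith)] at h3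
        have h4 := pr_le (ξ s' - ξ (⌊s' / t⌋₊ * t)) θ
        rw [pr_sub] at h4
        linarith
    have hsum : ∀ θ, 2 * (h θ + h (θ + Real.pi)) - 8 * t ≤
        ∑ i ∈ Finset.range n, |pr (ξ ((i + 1 : ℕ) * t) - ξ (i * t)) θ| := by
      intro θ
      obtain ⟨a, ha, ha'⟩ := happ θ
      obtain ⟨b, hb, hb'⟩ := happ (θ + Real.pi)
      rw [pr_add_pi] at hb'
      have h1 := closed_var (fun i : ℕ => pr (ξ (i * t)) θ) n (by
        simp only [Nat.cast_zero, zero_mul, hnt]
        have := hp 0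
        rw [zero_add] at this
        rw [this]) ha hb
      simp only [← pr_sub] at h1
      have h2 := pr_sub (ξ (a * t)) (ξ (b * t)) θ
      linarith
    have h1 : II (fun θ => 2 * (h θ + h (θ + Real.pi)) - 8 * t) ≤
        II (fun θ => ∑ i ∈ Finset.range n, |pr (ξ ((i + 1 : ℕ) * t) - ξ (i * t)) θ|) :=
      II_mono (by fun_prop) (by unfold pr; fun_prop) hsum
    have h2 : II (fun θ => ∑ i ∈ Finset.range n, |pr (ξ ((i + 1 : ℕ) * t) - ξ (i * t)) θ|) =
        ∑ i ∈ Finset.range n, 4 * ‖ξ ((i + 1 : ℕ) * t) - ξ (i * t)‖ := by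
      have h3 : II (fun θ => ∑ i ∈ Finset.range n, |pr (ξ ((i + 1 : ℕ) * t) - ξ (i * t)) θ|) =
          ∑ i ∈ Finset.range n, II (fun θ => |pr (ξ ((i + 1 : ℕ) * t) - ξ (i * t)) θ|) :=
        intervalIntegral.integral_finsetSum fun j _ =>
          Continuous.intervalIntegrable (by unfold pr; fun_prop) _ _
      rw [h3]
      exact Finset.sum_congr rfl fun i _ => int_abs_pr _
    have h4 : ∑ i ∈ Finset.range n, 4 * ‖ξ ((i + 1 : ℕ) * t) - ξ (i * t)‖ ≤
        ∑ _i ∈ Finset.range n, 4 * t := by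
      refine Finset.sum_le_sum fun i _ => ?_
      have := hξ ((i + 1 : ℕ) * t) (i * t)
      rw [show ((i + 1 : ℕ) : ℝ) * t - i * t = t by push_cast; ring, abs_of_pos ht0] at this
      linarith
    rw [Finset.sum_const, Finset.card_range, nsmul_eq_mul] at h4
    rw [II_sub (by fun_prop) continuous_const, II_mul, II_add ch (by fun_prop), II_shift ph,
      II_const] at h1
    have h5 : 4 * Real.pi * L / n = 4 * Real.pi * t := by rw [ht]; ring
    rw [h5]
    have h6 : (n : ℝ) * (4 * t) = 4 * L := by rw [← hnt]; ring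
    linarith
  have hlim : Filter.Tendsto (fun n : ℕ => L + 4 * Real.pi * L / n) Filter.atTop (nhds (L + 0)) :=
    tendsto_const_nhds.add (tendsto_const_div_atTop_nhds_zero_nat _)
  rw [add_zero] at hlim
  refine ge_of_tendsto hlim ?_
  filter_upwards [Filter.eventually_gt_atTop 0] with n hn
  exact hle n hn

end Pool.Agent.W561.Sallee
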