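import Mathlib

set_option autoImplicit false

/-!
# Antiperiodic unit speed curves on the sphere are great circles
-/

namespace Pool.Agent.W561.Sallee

open Set InnerProductGeometry

variable {E : Type*} [NormedAddCommGroup E] [InnerProductSpace ℝ E]

lemma angle_small {a b : E} (ha : ‖a‖ = 1) (hb : ‖b‖ = 1) {Δ : ℝ} (h0 : 0 < Δ) (h1 : Δ ≤ 2 / 3)
    (h : ‖b - a‖ * Real.cos (Δ / 2) ≤ 2 * Real.sin (Δ / 2)) : angle a b ≤ Δ + Δ ^ 2 / 2 := by
  obtain ⟨x, hx⟩ : ∃ x, x = Δ / 2 := ⟨_, rfl⟩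
  obtain ⟨α, hα⟩ : ∃ α, α = angle a b := ⟨_, rfl⟩
  have hα0 : 0 ≤ α := by rw [hα]; exact angle_nonneg a b
  have hαπ : α ≤ Real.pi := by rw [hα]; exact angle_le_pi a b
  have hpi := Real.pi_gt_three
  have hin : inner ℝ a b = Real.cos α := by rw [hα]; exact inner_eq_cos_angle_of_norm_eq_one ha hb
  have hs0 : 0 ≤ Real.sin (α / 2) :=
    Real.sin_nonneg_of_nonneg_of_le_pi (by linarith) (by linarith)
  have hn : ‖b - a‖ = 2 * Real.sin (α / 2) := by
    rw [← sq_eq_sq₀ (norm_nonneg _) (by positivity), norm_sub_sq_real, ha, hb, real_inner_comm,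
      hin]
    have h2 : Real.cos α = 1 - 2 * Real.sin (α / 2) ^ 2 := by
      have h3 := Real.cos_two_mul (α / 2)
      have h4 := Real.sin_sq_add_cos_sq (α / 2)
      rw [mul_div_cancel₀ α (two_ne_zero)] at h3
      linarith
    rw [h2]; ring
  rw [hn, ← hx] at h
  have hx0 : 0 < x := by rw [hx]; linarith
  have hx1 : x ≤ 1 / 3 := by rw [hx]; linarith
  have key : α / 2 ≤ x + x ^ 2 := by
    by_contra hcon
    push Not at hcon
    have hy0 : 0 < x + x ^ 2 := by positivity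
    have hy1 : x + x ^ 2 ≤ 1 := by nlinarith
    have k1 : Real.sin (x + x ^ 2) < Real.sin (α / 2) :=
      Real.strictMonoOn_sin ⟨by linarith, by linarith⟩ ⟨by linarith, by linarith⟩ hcon
    have k2 := Real.sin_gt_sub_cube hy0
    have k3 : (x + x ^ 2) ^ 3 ≤ (2 * x) ^ 3 := by
      apply pow_le_pow_left₀ hy0.le
      nlinarith
    have k4 : x + x ^ 2 - 2 * x ^ 3 < Real.sin (α / 2) := by nlinarith
    have k5 : 1 - x ^ 2 / 2 ≤ Real.cos x := Real.one_sub_sq_div_two_le_cos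
    have k6 : Real.sin x ≤ x := Real.sin_le hx0.le
    have k7 : 0 < 1 - x ^ 2 / 2 := by nlinarith
    have k8 : (x + x ^ 2 - 2 * x ^ 3) * (1 - x ^ 2 / 2) < Real.sin (α / 2) * Real.cos x := by
      calc (x + x ^ 2 - 2 * x ^ 3) * (1 - x ^ 2 / 2) < Real.sin (α / 2) * (1 - x ^ 2 / 2) :=
            mul_lt_mul_of_pos_right k4 k7
        _ ≤ Real.sin (α / 2) * Real.cos x := mul_le_mul_of_nonneg_left k5 hs0
    have k9 : x ≤ (x + x ^ 2 - 2 * x ^ 3) * (1 - x ^ 2 / 2) := by
      have e : (x + x ^ 2 - 2 * x ^ 3) * (1 - x ^ 2 / 2) - x =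
          x ^ 2 * (1 - 5 / 2 * x - x ^ 2 / 2 + x ^ 3) := by ring
      have h5 : 0 ≤ 1 - 5 / 2 * x - x ^ 2 / 2 + x ^ 3 := by
        have : 0 ≤ x ^ 3 := by positivity
        nlinarith
      have := mul_nonneg (sq_nonneg x) h5
      linarith
    linarith
  rw [← hα]
  have e : x = Δ / 2 := hx
  rw [e] at key
  nlinarith

theorem inner_eq_cos {e : ℝ → E} (h1 : ∀ θ, ‖e θ‖ = 1) (hπ : ∀ θ, e (θ + Real.pi) = - e θ)
    (hl : ∀ θ Δ, 0 < Δ → Δ ≤ 1 → ‖e (θ + Δ) - e θ‖ * Real.cos (Δ / 2) ≤ 2 * Real.sin (Δ / 2))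
    (θ φ : ℝ) : inner ℝ (e θ) (e φ) = Real.cos (θ - φ) := by
  have hpi := Real.pi_pos
  have hne : ∀ θ, e θ ≠ 0 := fun θ h => by
    have := h1 θ; rw [h, norm_zero] at this; norm_num at this
  have hstep : ∀ (t : ℝ), 0 < t → t ≤ 2 / 3 → ∀ (n : ℕ) (θ : ℝ),
      angle (e θ) (e (θ + n * t)) ≤ n * (t + t ^ 2 / 2) := by
    intro t ht0 ht1 n
    induction n with
    | zero => intro θ; simp [angle_self (hne θ)]
    | succ n ih =>
      intro θ
      have h2 := angle_le_angle_add_angle (e θ) (e (θ + n * t)) (e (θ + (n + 1 : ℕ) * t))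
      have h3 : θ + ((n + 1 : ℕ) : ℝ) * t = (θ + n * t) + t := by push_cast; ring
      have h4 := angle_small (h1 (θ + n * t)) (h1 ((θ + n * t) + t)) ht0 ht1
        (hl _ _ ht0 (by linarith))
      rw [h3] at h2 ⊢
      have h5 := ih θ
      push_cast
      linarith
  have hle : ∀ τ, 0 < τ → ∀ θ, angle (e θ) (e (θ + τ)) ≤ τ := by
    intro τ hτ θ
    have hlim : Filter.Tendsto (fun n : ℕ => τ + (τ ^ 2 / 2) / n) Filter.atTop (nhds (τ + 0)) :=
      tendsto_const_nhds.add (tendsto_const_div_atTop_nhds_zero_nat _)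
    rw [add_zero] at hlim
    refine ge_of_tendsto hlim ?_
    obtain ⟨N, hN⟩ := exists_nat_gt (τ * 2)
    filter_upwards [Filter.eventually_ge_atTop N, Filter.eventually_gt_atTop 0] with n hn hn0
    have hn' : (0 : ℝ) < n := Nat.cast_pos.2 hn0
    have h2 : τ * 2 < n := hN.trans_le (Nat.cast_le.2 hn)
    have h3 := hstep (τ / n) (div_pos hτ hn') (by
      rw [div_le_iff₀ hn']; linarith) n θ
    rw [mul_div_cancel₀ τ hn'.ne'] at h3
    refine h3.trans (le_of_eq ?_)
    field_simp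
  have heq : ∀ τ, 0 < τ → τ < Real.pi → ∀ θ, angle (e θ) (e (θ + τ)) = τ := by
    intro τ hτ hτπ θ
    apply le_antisymm (hle τ hτ θ)
    have h2 := hle (Real.pi - τ) (by linarith) (θ + τ)
    rw [show θ + τ + (Real.pi - τ) = θ + Real.pi by ring] at h2
    have h3 := angle_le_angle_add_angle (e θ) (e (θ + τ)) (e (θ + Real.pi))
    have h4 : angle (e θ) (e (θ + Real.pi)) = Real.pi := by
      rw [hπ]; exact angle_self_neg_of_nonzero (hne θ)
    linarith
  have hin : ∀ τ, 0 ≤ τ → τ < Real.pi → ∀ θ, inner ℝ (e θ) (e (θ + τ)) = Real.cos τ := by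
    intro τ hτ hτπ θ
    rcases hτ.eq_or_lt with h | h
    · rw [← h, add_zero, real_inner_self_eq_norm_sq, h1, Real.cos_zero]; norm_num
    · rw [inner_eq_cos_angle_of_norm_eq_one (h1 _) (h1 _), heq τ h hτπ θ]
  have hin2 : ∀ τ, 0 ≤ τ → τ < 2 * Real.pi → ∀ θ, inner ℝ (e θ) (e (θ + τ)) = Real.cos τ := by
    intro τ hτ hτπ θ
    by_cases h : τ < Real.pi
    · exact hin τ hτ h θ
    · push Not at h
      have h2 := hin (τ - Real.pi) (by linarith) (by linarith) θ
      rw [show θ + τ = (θ + (τ - Real.pi)) + Real.pi by ring, hπ, inner_neg_right, h2,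
        Real.cos_sub_pi, neg_neg]
  have hper : Function.Periodic e (2 * Real.pi) := fun θ => by
    rw [show θ + 2 * Real.pi = θ + Real.pi + Real.pi by ring, hπ, hπ, neg_neg]
  obtain ⟨n, hn⟩ : ∃ n : ℤ, (φ - θ) - n * (2 * Real.pi) ∈ Ico (0 : ℝ) (0 + 2 * Real.pi) := by
    refine ⟨toIcoDiv Real.two_pi_pos 0 (φ - θ), ?_⟩
    have := toIcoMod_mem_Ico Real.two_pi_pos 0 (φ - θ)
    rw [toIcoMod, zsmul_eq_mul] at this
    exact this
  have h2 := hin2 _ hn.1 (by linarith [hn.2]) θ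
  rw [show θ + (φ - θ - n * (2 * Real.pi)) = φ - n * (2 * Real.pi) by ring,
    hper.sub_int_mul_eq n, Real.cos_sub_int_mul_two_pi] at h2
  rw [h2, ← Real.cos_neg, neg_sub]

/-- A function with quadratically small increments is constant. -/
lemma const_of_sq {F : Type*} [NormedAddCommGroup F] {f : ℝ → F} {K : ℝ}
    (h : ∀ θ Δ, 0 < Δ → Δ ≤ 1 → ‖f (θ + Δ) - f θ‖ ≤ K * Δ ^ 2) (x y : ℝ) : f x = f y := by
  have key : ∀ x τ : ℝ, 0 < τ → f (x + τ) = f x := by
    intro x τ hτ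
    have hle : ∀ n : ℕ, 0 < n → τ ≤ n → ‖f (x + τ) - f x‖ ≤ K * τ ^ 2 / n := by
      intro n hn hτn
      have hn' : (0 : ℝ) < n := Nat.cast_pos.2 hn
      set t := τ / n with ht
      have ht0 : 0 < t := div_pos hτ hn'
      have ht1 : t ≤ 1 := (div_le_one hn').2 hτn
      have h2 := dist_le_range_sum_dist (fun j : ℕ => f (x + j * t)) n
      have h3 : ∑ i ∈ Finset.range n, dist (f (x + i * t)) (f (x + (i + 1 : ℕ) * t)) ≤
          ∑ _i ∈ Finset.range n, K * t ^ 2 := by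
        refine Finset.sum_le_sum fun i _ => ?_
        rw [dist_comm, dist_eq_norm, show x + ((i + 1 : ℕ) : ℝ) * t = (x + i * t) + t by
          push_cast; ring]
        exact h _ _ ht0 ht1
      rw [Finset.sum_const, Finset.card_range, nsmul_eq_mul] at h3
      have h4 := h2.trans h3
      rw [dist_comm, dist_eq_norm] at h4
      simp only [Nat.cast_zero, zero_mul, add_zero] at h4
      rw [show (n : ℝ) * t = τ by rw [ht]; field_simp] at h4
      refine h4.trans (le_of_eq ?_)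
      rw [ht]; field_simp
    have hlim : Filter.Tendsto (fun n : ℕ => K * τ ^ 2 / n) Filter.atTop (nhds 0) :=
      tendsto_const_div_atTop_nhds_zero_nat _
    have h0 : ‖f (x + τ) - f x‖ ≤ 0 := by
      refine ge_of_tendsto hlim ?_
      obtain ⟨N, hN⟩ := exists_nat_ge τ
      filter_upwards [Filter.eventually_ge_atTop N, Filter.eventually_gt_atTop 0] with n hn hn0
      exact hle n hn0 (hN.trans (Nat.cast_le.2 hn))
    exact sub_eq_zero.1 (norm_le_zero_iff.1 h0)
  rcases lt_trichotomy x y with h1 | h1 | h1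
  · have := key x (y - x) (by linarith)
    rw [add_sub_cancel] at this
    exact this.symm
  · rw [h1]
  · have := key y (x - y) (by linarith)
    rw [add_sub_cancel] at this
    exact this

end Pool.Agent.W561.Sallee
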