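import Pool.Agent.W561.Sallee.Major

set_option autoImplicit false

/-!
# Parametrisation of a closed rectifiable curve by arc length
-/

namespace Pool.Agent.W561.Sallee

open Set

variable {E : Type*} [NormedAddCommGroup E] [InnerProductSpace ℝ E]

omit [InnerProductSpace ℝ E] in
lemma var_shift {γ : ℝ → E} (hp : Function.Periodic γ 1) (a b : ℝ) (k : ℤ) :
    eVariationOn γ (Icc (a + k) (b + k)) = eVariationOn γ (Icc a b) := by
  have h1 := eVariationOn.comp_eq_of_monotoneOn γ (t := Icc a b) (fun x : ℝ => x + k)
    (fun x _ y _ h => by simpa using h)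
  rw [image_add_const_Icc] at h1
  rw [← h1]
  congr 1
  funext x
  have := hp.int_mul k x
  rw [mul_one] at this
  exact this

omit [InnerProductSpace ℝ E] in
theorem exists_param {γ : ℝ → E} (hγ : Continuous γ) (hp : Function.Periodic γ 1) {l : ℝ}
    (hl : 0 < l) (hlen : eVariationOn γ (Icc 0 1) = ENNReal.ofReal l) :
    ∃ c : ℝ → E, Lip1 c ∧ Function.Periodic c l ∧ range c = range γ := by
  -- finite variation on bounded intervals
  have hfin : ∀ n : ℕ, eVariationOn γ (Icc 0 (n : ℝ)) ≠ ⊤ := by
    intro n
    induction n with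
    | zero =>
      rw [Nat.cast_zero, Icc_self, eVariationOn.subsingleton γ subsingleton_singleton]
      exact ENNReal.zero_ne_top
    | succ n ih =>
      have h1 := eVariationOn.Icc_add_Icc γ (s := univ) (a := 0) (b := (n : ℝ))
        (c := ((n + 1 : ℕ) : ℝ)) (Nat.cast_nonneg n) (by push_cast; linarith) (mem_univ _)
      simp only [univ_inter] at h1
      rw [← h1]
      have h2 := var_shift hp 0 1 (n : ℤ)
      have h3 : Icc (n : ℝ) ((n + 1 : ℕ) : ℝ) = Icc (0 + ((n : ℤ) : ℝ)) (1 + ((n : ℤ) : ℝ)) := by
        congr 1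
        · simp
        · push_cast; ring
      rw [h3, h2, hlen]
      exact ENNReal.add_ne_top.2 ⟨ih, ENNReal.ofReal_ne_top⟩
  have hlbv : LocallyBoundedVariationOn γ univ := by
    intro a b _ _
    obtain ⟨n, hn⟩ := exists_nat_ge (max |a| |b|)
    have ha := (le_max_left |a| |b|).trans hn
    have hb := (le_max_right |a| |b|).trans hn
    have h1 : univ ∩ Icc a b ⊆ Icc (0 + ((-(n : ℤ) : ℤ) : ℝ)) (((2 * n : ℕ) : ℝ) +
        ((-(n : ℤ) : ℤ) : ℝ)) := by
      rintro x ⟨-, hx⟩
      push_cast
      constructor
      · linarith [hx.1, (abs_le.1 ha).1]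
      · linarith [hx.2, (abs_le.1 hb).2]
    have h2 := eVariationOn.mono γ h1
    rw [var_shift hp] at h2
    exact ne_top_of_le_ne_top (hfin _) h2
  set V : ℝ → ℝ := variationOnFromTo γ univ 0 with hV
  have hadd : ∀ a b c : ℝ, variationOnFromTo γ univ a b + variationOnFromTo γ univ b c =
      variationOnFromTo γ univ a c := fun a b c =>
    variationOnFromTo.add hlbv (mem_univ _) (mem_univ _) (mem_univ _)
  have hVsub : ∀ a b, V b - V a = variationOnFromTo γ univ a b := by
    intro a b
    have := hadd 0 a b
    rw [hV]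
    linarith
  have hLip : ∀ a b, ‖γ a - γ b‖ ≤ |V a - V b| := by
    have key : ∀ a b, a ≤ b → ‖γ a - γ b‖ ≤ V b - V a := by
      intro a b hab
      rw [hVsub, variationOnFromTo.eq_of_le _ _ hab]
      have h1 := eVariationOn.edist_le γ (s := univ ∩ Icc a b) (x := a) (y := b)
        ⟨mem_univ _, left_mem_Icc.2 hab⟩ ⟨mem_univ _, right_mem_Icc.2 hab⟩
      have h2 : eVariationOn γ (univ ∩ Icc a b) ≠ ⊤ := hlbv a b (mem_univ _) (mem_univ _)
      have h3 := ENNReal.toReal_mono h2 h1
      rw [← dist_edist, dist_eq_norm] at h3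
      exact h3
    intro a b
    rcases le_total a b with h | h
    · rw [abs_sub_comm]
      exact (key a b h).trans (le_abs_self _)
    · rw [norm_sub_rev]
      exact (key b a h).trans (le_abs_self _)
  have hVc : Continuous V := by
    rw [continuous_iff_continuousAt]
    intro b
    rw [continuousAt_iff_continuous_left'_right']
    constructor
    · have h1 := variationOnFromTo.tendsto_left (f := γ) (s := univ) (l := γ b) (a := 0) (b := b)
        (mem_univ _) (mem_univ _) hlbv (by
          rw [univ_inter]
          exact (hγ.tendsto b).mono_left nhdsWithin_le_nhds)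
      rw [dist_self, sub_zero, univ_inter] at h1
      exact h1
    · have h1 := variationOnFromTo.tendsto_right (f := γ) (s := univ) (l := γ b) (a := 0) (b := b)
        (mem_univ _) (mem_univ _) hlbv (by
          rw [univ_inter]
          exact (hγ.tendsto b).mono_left nhdsWithin_le_nhds)
      rw [dist_self, add_zero, univ_inter] at h1
      exact h1
  have hV1 : V 1 = l := by
    rw [hV, variationOnFromTo.eq_of_le _ _ zero_le_one, univ_inter, hlen,
      ENNReal.toReal_ofReal hl.le]
  have hV0 : V 0 = 0 := variationOnFromTo.self _ _ _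
  have hVp : ∀ t, V (t + 1) = V t + l := by
    intro t
    have h1 : variationOnFromTo γ univ 1 (t + 1) = variationOnFromTo γ univ 0 t := by
      unfold variationOnFromTo
      simp only [univ_inter]
      have e1 : ((1 : ℝ) ≤ t + 1) ↔ (0 ≤ t) := by constructor <;> intro h <;> linarith
      by_cases ht : 0 ≤ t
      · rw [if_pos ht, if_pos (e1.2 ht)]
        have := var_shift hp 0 t 1
        rw [Int.cast_one, zero_add] at this
        rw [this]
      · rw [if_neg ht, if_neg (fun h => ht (e1.1 h))]
        have := var_shift hp t 0 1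
        rw [Int.cast_one, zero_add] at this
        rw [this]
    have h2 := hadd 0 1 (t + 1)
    rw [h1] at h2
    have h3 : variationOnFromTo γ univ 0 1 = l := hV1
    rw [h3] at h2
    show variationOnFromTo γ univ 0 (t + 1) = variationOnFromTo γ univ 0 t + l
    linarith
  have hVn : ∀ n : ℤ, V n = n * l := by
    have hW : Function.Periodic (fun t => V t - t * l) 1 := fun t => by
      simp only [hVp]; ring
    intro n
    have h1 := hW.int_mul n 0
    simp only [mul_one, zero_add, hV0, zero_mul, sub_zero] at h1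
    linarith
  have hsurj : Function.Surjective V := by
    intro s
    have h1 := Int.floor_le (s / l)
    have h2 := Int.lt_floor_add_one (s / l)
    rw [le_div_iff₀ hl] at h1
    rw [div_lt_iff₀ hl] at h2
    have h3 := intermediate_value_Icc (a := ((⌊s / l⌋ : ℤ) : ℝ)) (b := ((⌊s / l⌋ + 1 : ℤ) : ℝ))
      (by push_cast; linarith) hVc.continuousOn
    rw [hVn, hVn] at h3
    obtain ⟨t, -, ht⟩ := h3 ⟨h1, by push_cast; exact h2.le⟩
    exact ⟨t, ht⟩
  set inv := Function.surjInv hsurj with hinv
  have hVi : ∀ s, V (inv s) = s := Function.surjInv_eq hsurj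
  have hc : ∀ t, γ (inv (V t)) = γ t := by
    intro t
    have h1 := hLip (inv (V t)) t
    rw [hVi, sub_self, abs_zero] at h1
    exact sub_eq_zero.1 (norm_le_zero_iff.1 h1)
  refine ⟨fun s => γ (inv s), fun s t => ?_, fun s => ?_, ?_⟩
  · have h1 := hLip (inv s) (inv t)
    rw [hVi, hVi] at h1
    exact h1
  · obtain ⟨t, rfl⟩ := hsurj s
    simp only
    rw [← hVp, hc, hc, hp]
  · ext p
    constructor
    · rintro ⟨s, rfl⟩; exact ⟨_, rfl⟩
    · rintro ⟨t, rfl⟩; exact ⟨V t, hc t⟩

end Pool.Agent.W561.Sallee
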