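import Pool.Agent.W561.Sallee.Rigid2
import Pool.Agent.W561.Sallee.Param

set_option autoImplicit false
set_option linter.unusedSectionVars false

/-!
# Plane convex bodies of constant width one
-/

namespace Pool.Agent.W561.Sallee

open Set

/-- The width of the plane set `K` in the direction of the unit vector `u`: the distance of the
two supporting lines of `K` orthogonal to `u`. -/
noncomputable def width (K : Set (EuclideanSpace ℝ (Fin 2))) (u : EuclideanSpace ℝ (Fin 2)) : ℝ :=
  sSup ((fun x => inner ℝ x u) '' K) - sInf ((fun x => inner ℝ x u) '' K)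

/-- `C` is the relative boundary of a plane convex body of constant width `1`: the image of the
frontier of a compact convex subset of the Euclidean plane with nonempty interior and of width `1`
in every direction under an affine isometric embedding of the plane into `E`. -/
def IsWidthOneBoundary {E : Type*} [NormedAddCommGroup E] [InnerProductSpace ℝ E]
    (C : Set E) : Prop :=
  ∃ (φ : EuclideanSpace ℝ (Fin 2) →ᵃⁱ[ℝ] E) (K : Set (EuclideanSpace ℝ (Fin 2))),
    IsCompact K ∧ Convex ℝ K ∧ (interior K).Nonempty ∧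
    (∀ u : EuclideanSpace ℝ (Fin 2), ‖u‖ = 1 → width K u = 1) ∧ C = φ '' frontier K

/-- the plane as the complex numbers -/
noncomputable def toC : EuclideanSpace ℝ (Fin 2) ≃ₗᵢ[ℝ] ℂ :=
  Complex.orthonormalBasisOneI.repr.symm

lemma toC_apply (x : EuclideanSpace ℝ (Fin 2)) : toC x = ⟨x 0, x 1⟩ := by
  have : toC x = x 0 + x 1 * Complex.I := by
    unfold toC
    rw [Complex.orthonormalBasisOneI_repr_symm_apply]
  rw [this]
  apply Complex.ext <;> simp

lemma inner_toC (x u : EuclideanSpace ℝ (Fin 2)) :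
    inner ℝ x u = (toC x).re * (toC u).re + (toC x).im * (toC u).im := by
  rw [toC_apply, toC_apply, EuclideanSpace.inner_eq_star_dotProduct]
  simp [dotProduct, Fin.sum_univ_two]
  ring

lemma exists_uu {w : ℂ} (hw : ‖w‖ = 1) : ∃ θ, w = uu θ := by
  obtain ⟨θ, hθ⟩ := exists_pr_eq w
  exact ⟨θ, eq_uu_of hw.le (by rw [hθ, hw])⟩

/-- the convex hull, described by its support function -/
def HH (h : ℝ → ℝ) : Set ℂ := {z | ∀ θ, pr z θ ≤ h θ}

namespace WidthOne

variable {ξ : ℝ → ℂ} {L : ℝ} {h : ℝ → ℝ} {S : ℝ → ℝ} (W : WidthOne ξ L h S) (hL : L < 4)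
include W

lemma mem_HH (s : ℝ) : ξ s ∈ HH h := fun θ => W.pr_le_h s θ

lemma conth : Continuous h := W.hh.continuous (R := L / 4) (by
  rintro _ ⟨s, rfl⟩; exact W.P.quarter s)

lemma h_le (θ : ℝ) : h θ ≤ L / 4 := W.hh.le_of (by
  rintro _ ⟨s, rfl⟩; exact (pr_le _ _).trans (W.P.quarter s))

lemma h_ge (θ : ℝ) : 1 - L / 4 ≤ h θ := by
  have h1 := W.h_le (θ + Real.pi)
  have h2 := W.hw θ
  linarith

lemma isCompact_HH : IsCompact (HH h) := by
  rw [Metric.isCompact_iff_isClosed_bounded]
  constructor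
  · unfold HH
    simp only [Set.ofPred_forall]
    exact isClosed_iInter fun θ => isClosed_le (continuous_pr continuous_id continuous_const)
      continuous_const
  · refine (Metric.isBounded_closedBall (x := (0 : ℂ)) (r := L / 4)).subset fun z hz => ?_
    obtain ⟨φ, hφ⟩ := exists_pr_eq z
    rw [mem_closedBall_zero_iff, ← hφ]
    exact (hz φ).trans (W.h_le φ)

lemma convex_HH : Convex ℝ (HH h) := by
  intro x hx y hy a b ha hb hab θ
  rw [pr_add, pr_smul, pr_smul]
  have h1 := mul_le_mul_of_nonneg_left (hx θ) ha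
  have h2 := mul_le_mul_of_nonneg_left (hy θ) hb
  have h3 : h θ = a * h θ + b * h θ := by rw [← add_mul, hab, one_mul]
  linarith

include hL in
lemma interior_HH : (interior (HH h)).Nonempty := by
  refine ⟨0, mem_interior.2 ⟨Metric.ball 0 (1 - L / 4), fun z hz θ => ?_, Metric.isOpen_ball,
    Metric.mem_ball_self (by linarith)⟩⟩
  rw [mem_ball_zero_iff] at hz
  have h1 := pr_le z θ
  have h2 := W.h_ge θ
  linarith

lemma support_eq {z : ℂ} (hz : z ∈ HH h) {θ : ℝ} (hzθ : pr z θ = h θ) : z = ξ (S θ) := by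
  have h1 : z - ξ (S (θ + Real.pi)) = uu θ := by
    apply eq_uu_of
    · obtain ⟨φ, hφ⟩ := exists_pr_eq (z - ξ (S (θ + Real.pi)))
      rw [← hφ, pr_sub]
      have h1 := hz φ
      have h2 := W.neg_le (S (θ + Real.pi)) φ
      have h3 := W.hw φ
      linarith
    · rw [pr_sub, hzθ]
      have h2 := W.prS (θ + Real.pi)
      rw [pr_add_pi] at h2
      have h3 := W.hw θ
      linarith
  rw [← W.S_sub θ] at h1
  exact sub_left_injective h1

lemma frontier_HH : frontier (HH h) = range ξ := by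
  have hcl : IsClosed (HH h) := W.isCompact_HH.isClosed
  rw [hcl.frontier_eq]
  ext z
  constructor
  · rintro ⟨hz, hzi⟩
    -- a support direction
    have hex : ∃ θ, pr z θ = h θ := by
      by_contra hcon
      push Not at hcon
      have hpos : ∀ θ, 0 < h θ - pr z θ := fun θ =>
        sub_pos.2 (lt_of_le_of_ne (hz θ) (hcon θ))
      have hcf : Continuous fun θ => h θ - pr z θ :=
        W.conth.sub (continuous_pr continuous_const continuous_id)
      obtain ⟨φ0, -, hmin⟩ := (isCompact_Icc (a := (0 : ℝ)) (b := 2 * Real.pi)).exists_isMinOn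
        (nonempty_Icc.2 Real.two_pi_pos.le) hcf.continuousOn
      have hδ0 : 0 < h φ0 - pr z φ0 := hpos φ0
      apply hzi
      refine mem_interior.2 ⟨Metric.ball z (h φ0 - pr z φ0), fun w hw θ => ?_, Metric.isOpen_ball,
        Metric.mem_ball_self hδ0⟩
      rw [mem_ball_iff_norm] at hw
      have pf : Function.Periodic (fun φ => h φ - pr z φ) (2 * Real.pi) := fun φ => by
        simp only [W.hh.periodic φ, pr_add_two_pi]
      obtain ⟨ψ, hψ, e⟩ := pf.exists_mem_Ico₀ Real.two_pi_pos θ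
      have h1 : h φ0 - pr z φ0 ≤ h ψ - pr z ψ := hmin ⟨hψ.1, hψ.2.le⟩
      have e' : h θ - pr z θ = h ψ - pr z ψ := e
      have h2 := pr_le (w - z) θ
      rw [pr_sub] at h2
      linarith
    obtain ⟨θ, hθ⟩ := hex
    exact ⟨S θ, (W.support_eq hz hθ).symm⟩
  · rintro ⟨s, rfl⟩
    refine ⟨W.mem_HH s, fun hint => ?_⟩
    obtain ⟨θ, hθ⟩ := W.P.bdry s
    have h1 : pr (ξ s) θ = h θ := PlaneCurve.max_eq W.hh hθ
    obtain ⟨ε, hε, hball⟩ := Metric.mem_nhds_iff.1 (mem_interior_iff_mem_nhds.1 hint)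
    have h2 : ξ s + (ε / 2) • uu θ ∈ HH h := hball (by
      rw [mem_ball_iff_norm, add_sub_cancel_left, norm_smul, norm_uu, mul_one, Real.norm_eq_abs,
        abs_of_pos (by linarith)]
      linarith)
    have h3 := h2 θ
    rw [pr_add, pr_smul, pr_uu, sub_self, Real.cos_zero] at h3
    linarith

lemma isLUB_HH (θ : ℝ) : IsLUB ((fun z => pr z θ) '' HH h) (h θ) := by
  constructor
  · rintro _ ⟨z, hz, rfl⟩; exact hz θ
  · intro b hb
    rw [← W.prS θ]
    exact hb ⟨_, W.mem_HH _, rfl⟩

lemma isGLB_HH (θ : ℝ) : IsGLB ((fun z => pr z θ) '' HH h) (h θ - 1) := by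
  have hw := W.hw θ
  constructor
  · rintro _ ⟨z, hz, rfl⟩
    have h1 := hz (θ + Real.pi)
    rw [pr_add_pi] at h1
    simp only
    linarith
  · intro b hb
    have h1 := W.prS (θ + Real.pi)
    rw [pr_add_pi] at h1
    have h2 : b ≤ pr (ξ (S (θ + Real.pi))) θ := hb ⟨_, W.mem_HH _, rfl⟩
    linarith

end WidthOne

/-- the affine isometric embedding of the plane given by an orthonormal pair -/
noncomputable def embed {E : Type*} [NormedAddCommGroup E] [InnerProductSpace ℝ E] (e0 e1 f0 : E)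
    (h0 : ‖e0‖ = 1) (h1 : ‖e1‖ = 1) (h01 : inner ℝ e0 e1 = (0 : ℝ)) :
    EuclideanSpace ℝ (Fin 2) →ᵃⁱ[ℝ] E where
  toFun x := f0 + (x 0 • e0 + x 1 • e1)
  linear :=
    { toFun := fun x => x 0 • e0 + x 1 • e1
      map_add' := fun x y => by simp only [PiLp.add_apply]; module
      map_smul' := fun r x => by
        simp only [PiLp.smul_apply, smul_eq_mul, RingHom.id_apply]; module }
  map_vadd' p v := by
    simp only [vadd_eq_add, PiLp.add_apply, LinearMap.coe_mk, AddHom.coe_mk]
    module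
  norm_map x := by
    simp only [LinearMap.coe_mk, AddHom.coe_mk]
    rw [← sq_eq_sq₀ (norm_nonneg _) (norm_nonneg _), norm_add_sq_real, norm_smul, norm_smul, h0,
      h1, real_inner_smul_left, real_inner_smul_right, h01, EuclideanSpace.norm_sq_eq,
      Fin.sum_univ_two]
    simp

theorem isWidthOneBoundary_of {E : Type*} [NormedAddCommGroup E] [InnerProductSpace ℝ E]
    {ξ : ℝ → ℂ} {L : ℝ} {h : ℝ → ℝ} {S : ℝ → ℝ} {c : ℝ → E} (D : RigidData ξ L h S c)
    (hL : L < 4) : IsWidthOneBoundary (range c) := by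
  obtain ⟨e0, e1, f0, h0, h1, h01, hc⟩ := D.rigid
  have W := D.W
  refine ⟨embed e0 e1 f0 h0 h1 h01, toC ⁻¹' HH h, ?_, ?_, ?_, ?_, ?_⟩
  · exact (toC.toHomeomorph.isCompact_preimage).2 W.isCompact_HH
  · exact W.convex_HH.linear_preimage toC.toLinearEquiv.toLinearMap
  · have e := toC.toHomeomorph.preimage_interior (HH h)
    obtain ⟨z, hz⟩ := W.interior_HH hL
    refine ⟨toC.symm z, ?_⟩
    have h2 : toC.toHomeomorph ⁻¹' (HH h) = toC ⁻¹' HH h := rfl
    rw [← h2, ← e]
    show toC (toC.symm z) ∈ interior (HH h)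
    rw [LinearIsometryEquiv.apply_symm_apply]
    exact hz
  · intro u hu
    have hu' : ‖toC u‖ = 1 := by rw [toC.norm_map, hu]
    obtain ⟨θ, hθ⟩ := exists_uu hu'
    have himg : (fun x => inner ℝ x u) '' (toC ⁻¹' HH h) = (fun z => pr z θ) '' HH h := by
      have e2 : ∀ x, inner ℝ x u = pr (toC x) θ := by
        intro x
        rw [inner_toC, hθ]
        rfl
      ext r
      constructor
      · rintro ⟨x, hx, rfl⟩
        exact ⟨toC x, hx, (e2 x).symm⟩
      · rintro ⟨z, hz, rfl⟩
        refine ⟨toC.symm z, ?_, ?_⟩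
        · show toC (toC.symm z) ∈ HH h
          rw [LinearIsometryEquiv.apply_symm_apply]; exact hz
        · simp only [e2, LinearIsometryEquiv.apply_symm_apply]
    have hne : ((fun z => pr z θ) '' HH h).Nonempty := ⟨_, _, W.mem_HH 0, rfl⟩
    unfold width
    rw [himg, (W.isLUB_HH θ).csSup_eq hne, (W.isGLB_HH θ).csInf_eq hne]
    ring
  · have e := toC.toHomeomorph.preimage_frontier (HH h)
    have h2 : toC.toHomeomorph ⁻¹' (HH h) = toC ⁻¹' HH h := rfl
    rw [← h2, ← e, W.frontier_HH]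
    ext p
    constructor
    · rintro ⟨s, rfl⟩
      refine ⟨toC.symm (ξ s), ?_, ?_⟩
      · show toC (toC.symm (ξ s)) ∈ range ξ
        rw [LinearIsometryEquiv.apply_symm_apply]; exact ⟨s, rfl⟩
      · rw [hc s]
        have h3 := toC_apply (toC.symm (ξ s))
        rw [LinearIsometryEquiv.apply_symm_apply] at h3
        rw [h3]
        rfl
    · rintro ⟨x, ⟨s, hs⟩, rfl⟩
      refine ⟨s, ?_⟩
      have hs' : ξ s = toC x := hs
      rw [hc s, hs', toC_apply]
      rfl

/-- **Core theorem**: a closed curve of length `L ≤ π` on which every point has a point at distance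
at least one has length `π` and is the boundary of a plane convex body of constant width one. -/
theorem core {E : Type*} [NormedAddCommGroup E] [InnerProductSpace ℝ E] [FiniteDimensional ℝ E]
    {c : ℝ → E} (hc : Lip1 c) {L : ℝ} (hL : 0 < L) (hLpi : L ≤ Real.pi)
    (pc : Function.Periodic c L) (hfar : ∀ s, ∃ t, 1 ≤ ‖c s - c t‖) :
    L = Real.pi ∧ IsWidthOneBoundary (range c) := by
  have hL4 : L < 4 := lt_of_le_of_lt hLpi Real.pi_lt_four
  obtain ⟨ξ, P, hchord⟩ := exists_planeCurve hc hL hL4 pc hfar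
  have hfarξ : ∀ s, ∃ t, 1 ≤ ‖ξ s - ξ t‖ := fun s => by
    obtain ⟨t, ht⟩ := hfar s
    exact ⟨t, ht.trans (hchord s t)⟩
  obtain ⟨h1, h, hh, hw⟩ := P.main hLpi hfarξ
  refine ⟨h1, ?_⟩
  choose S hS using fun θ => (P.exists_max θ 0)
  exact isWidthOneBoundary_of (S := S) ⟨⟨P, hh, hw, fun θ => (hS θ).2⟩, hchord, hfar⟩ hL4

end Pool.Agent.W561.Sallee
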