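import Pool.Agent.W561.Sallee.Topo
import Pool.Agent.W561.Sallee.Crofton

set_option autoImplicit false

/-!
# Coordinates in the plane of a curve with maximal chords
-/

namespace Pool.Agent.W561.Sallee

open Set

variable {E : Type*} [NormedAddCommGroup E] [InnerProductSpace ℝ E]

omit [InnerProductSpace ℝ E] in
lemma half_bound {x : ℝ → E} (hx : Lip1 x) {L : ℝ} (hL : 0 < L)
    (px : Function.Periodic x L) (s t : ℝ) : ‖x s - x t‖ ≤ L / 2 := by
  obtain ⟨s', hs', e⟩ := px.exists_mem_Ico₀ hL s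
  obtain ⟨t', ht', e'⟩ := px.exists_mem_Ico₀ hL t
  rw [e, e']
  have h1 := hx s' t'
  have h2 := hx s' (t' + L)
  have h3 := hx (s' + L) t'
  rw [px] at h2 h3
  by_cases h : |s' - t'| ≤ L / 2
  · linarith
  push Not at h
  rcases lt_abs.1 h with h | h
  · refine h2.trans ?_
    rw [abs_of_nonpos (by linarith [hs'.2, ht'.1])]
    linarith
  · refine h3.trans ?_
    rw [abs_of_nonneg (by linarith [ht'.2, hs'.1])]
    linarith

/-- `s` is a parameter where the coordinate in direction `θ` is maximal. -/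
def PMax (ξ : ℝ → ℂ) (θ s : ℝ) : Prop := ∀ r, pr (ξ r) θ ≤ pr (ξ s) θ

/-- The plane curves produced by the maximality argument. -/
structure PlaneCurve (L : ℝ) (ξ : ℝ → ℂ) : Prop where
  pos : 0 < L
  lip : Lip1 ξ
  per : Function.Periodic ξ L
  conn : ∀ θ z1 z2 s t, PMax ξ θ z1 → PMax ξ θ z2 → z1 < s → s < z2 → z2 < t → t < z1 + L →
    PMax ξ θ s ∨ PMax ξ θ t
  bdry : ∀ s, ∃ θ, PMax ξ θ s
  mid : ξ 0 = - ξ (L / 2)

lemma exists_ortho {p1 p2 : E} (hind : ∀ α β : ℝ, α • p1 + β • p2 = 0 → α = 0 ∧ β = 0) :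
    ∃ e1 e2 : E, ‖e1‖ = 1 ∧ ‖e2‖ = 1 ∧ inner ℝ e1 e2 = (0 : ℝ) ∧
      (∀ α β : ℝ, ∃ α' β' : ℝ, α • p1 + β • p2 = α' • e1 + β' • e2) ∧
      (∀ v : E, inner ℝ p1 v = (0 : ℝ) → inner ℝ p2 v = (0 : ℝ) →
        inner ℝ e1 v = (0 : ℝ) ∧ inner ℝ e2 v = (0 : ℝ)) := by
  have hp1 : p1 ≠ 0 := by
    intro h
    have := hind 1 0 (by simp [h])
    exact one_ne_zero this.1
  have hn1 : 0 < ‖p1‖ := norm_pos_iff.2 hp1
  obtain ⟨e1, he1⟩ : ∃ e1 : E, e1 = ‖p1‖⁻¹ • p1 := ⟨_, rfl⟩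
  have h1 : ‖e1‖ = 1 := by rw [he1, norm_smul, norm_inv, norm_norm, inv_mul_cancel₀ hn1.ne']
  obtain ⟨q, hq⟩ : ∃ q : E, q = p2 - (inner ℝ p2 e1 : ℝ) • e1 := ⟨_, rfl⟩
  have hq0 : q ≠ 0 := by
    intro h
    have h2 : (-(inner ℝ p2 e1 * ‖p1‖⁻¹) : ℝ) • p1 + (1 : ℝ) • p2 = 0 := by
      rw [← h, hq, he1, smul_smul]; module
    exact one_ne_zero (hind _ _ h2).2
  have hnq : 0 < ‖q‖ := norm_pos_iff.2 hq0
  obtain ⟨e2, he2⟩ : ∃ e2 : E, e2 = ‖q‖⁻¹ • q := ⟨_, rfl⟩
  have h2 : ‖e2‖ = 1 := by rw [he2, norm_smul, norm_inv, norm_norm, inv_mul_cancel₀ hnq.ne']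
  have hp1e : p1 = ‖p1‖ • e1 := by rw [he1, smul_smul, mul_inv_cancel₀ hn1.ne', one_smul]
  have hqe : q = ‖q‖ • e2 := by rw [he2, smul_smul, mul_inv_cancel₀ hnq.ne', one_smul]
  have hp2e : p2 = (inner ℝ p2 e1 : ℝ) • e1 + ‖q‖ • e2 := by rw [← hqe, hq]; abel
  refine ⟨e1, e2, h1, h2, ?_, ?_, ?_⟩
  · rw [he2, real_inner_smul_right, hq, inner_sub_right, real_inner_smul_right,
      real_inner_self_eq_norm_sq, h1, real_inner_comm e1 p2]
    ring
  · intro α β
    refine ⟨α * ‖p1‖ + β * inner ℝ p2 e1, β * ‖q‖, ?_⟩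
    conv_lhs => rw [hp1e, hp2e]
    module
  · intro v hv1 hv2
    have h3 : inner ℝ e1 v = (0 : ℝ) := by rw [he1, real_inner_smul_left, hv1, mul_zero]
    refine ⟨h3, ?_⟩
    rw [he2, real_inner_smul_left, hq, inner_sub_left, real_inner_smul_left, hv2, h3]
    ring

lemma norm_mk {e1 e2 : E} (h1 : ‖e1‖ = 1) (h2 : ‖e2‖ = 1) (h12 : inner ℝ e1 e2 = (0 : ℝ))
    {d : E} (hd : ∃ α β : ℝ, d = α • e1 + β • e2) :
    ‖(⟨inner ℝ d e1, inner ℝ d e2⟩ : ℂ)‖ = ‖d‖ := by
  obtain ⟨α, β, rfl⟩ := hd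
  rw [← sq_eq_sq₀ (norm_nonneg _) (norm_nonneg _), Complex.sq_norm, Complex.normSq_apply,
    norm_add_sq_real, norm_smul, norm_smul, h1, h2]
  simp only [inner_add_left, real_inner_smul_left, real_inner_smul_right,
    real_inner_self_eq_norm_sq, h1, h2, h12, real_inner_comm e1 e2, Real.norm_eq_abs, mul_one,
    sq_abs]
  ring

theorem exists_planeCurve [FiniteDimensional ℝ E] {c : ℝ → E} (hc : Lip1 c) {L : ℝ} (hL : 0 < L)
    (hL4 : L < 4) (pc : Function.Periodic c L) (hfar : ∀ s, ∃ t, 1 ≤ ‖c s - c t‖) :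
    ∃ ξ : ℝ → ℂ, PlaneCurve L ξ ∧ ∀ s t, ‖c s - c t‖ ≤ ‖ξ s - ξ t‖ := by
  obtain ⟨x, hx, px, hcx, hmax⟩ := exists_chordMax hc hL pc
  have hxc := hx.continuous
  by_cases H : ∃ s1 s2, ∀ α β : ℝ, α • (x s1 - x 0) + β • (x s2 - x 0) = 0 → α = 0 ∧ β = 0
  · obtain ⟨s1, s2, hind⟩ := H
    have hpl := planar hx hL px hmax hind
    obtain ⟨e1, e2, h1, h2, h12, hsp, hort⟩ := exists_ortho hind
    have hdiff : ∀ s t, ∃ α β : ℝ, x s - x t = α • e1 + β • e2 := by
      intro s t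
      obtain ⟨α, β, e⟩ := hpl s
      obtain ⟨α', β', e'⟩ := hpl t
      obtain ⟨a, b, hab⟩ := hsp α β
      obtain ⟨a', b', hab'⟩ := hsp α' β'
      refine ⟨a - a', b - b', ?_⟩
      have h3 : x s - x t = (x s - x 0) - (x t - x 0) := by abel
      rw [h3, e, e', hab, hab']
      module
    set m : E := (1 / 2 : ℝ) • (x 0 + x (L / 2)) with hm
    set ξ : ℝ → ℂ := fun r => ⟨inner ℝ (x r - m) e1, inner ℝ (x r - m) e2⟩ with hξ
    have hξd : ∀ s t, ξ s - ξ t = ⟨inner ℝ (x s - x t) e1, inner ℝ (x s - x t) e2⟩ := by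
      intro s t
      apply Complex.ext
      · simp only [hξ, Complex.sub_re]; rw [← inner_sub_left]; congr 1; abel
      · simp only [hξ, Complex.sub_im]; rw [← inner_sub_left]; congr 1; abel
    have hξn : ∀ s t, ‖ξ s - ξ t‖ = ‖x s - x t‖ := fun s t => by
      rw [hξd]; exact norm_mk h1 h2 h12 (hdiff s t)
    set u : ℝ → E := fun θ => Real.cos θ • e1 + Real.sin θ • e2 with hu
    have huc : Continuous u := by fun_prop
    have huπ : ∀ θ, u (θ + Real.pi) = - u θ := fun θ => by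
      simp only [hu, Real.cos_add_pi, Real.sin_add_pi, neg_smul, neg_add]
    have hpr : ∀ r θ, pr (ξ r) θ = inner ℝ (x r) (u θ) - inner ℝ m (u θ) := by
      intro r θ
      rw [← inner_sub_left]
      simp only [pr, hξ, hu, inner_add_right, real_inner_smul_right]
      ring
    have hPM : ∀ θ s, PMax ξ θ s ↔ MaxAt x (u θ) s := by
      intro θ s
      unfold PMax MaxAt
      simp only [hpr]
      constructor
      · intro h r; linarith [h r]
      · intro h r; linarith [h r]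
    have hnd : ∀ θ, ∃ r r', inner ℝ (x r) (u θ) ≠ inner ℝ (x r') (u θ) := by
      intro θ
      by_contra hcon
      push Not at hcon
      have k1 : inner ℝ (x s1 - x 0) (u θ) = (0 : ℝ) := by
        rw [inner_sub_left, hcon s1 0, sub_self]
      have k2 : inner ℝ (x s2 - x 0) (u θ) = (0 : ℝ) := by
        rw [inner_sub_left, hcon s2 0, sub_self]
      obtain ⟨k3, k4⟩ := hort _ k1 k2
      simp only [hu, inner_add_right, real_inner_smul_right, real_inner_self_eq_norm_sq, h1, h2,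
        h12, real_inner_comm e1 e2] at k3 k4
      have := Real.sin_sq_add_cos_sq θ
      have k5 : Real.cos θ = 0 := by linarith
      have k6 : Real.sin θ = 0 := by linarith
      rw [k5, k6] at this
      norm_num at this
    refine ⟨ξ, ⟨hL, fun s t => ?_, fun r => ?_, ?_, ?_, ?_⟩, fun s t => ?_⟩
    · rw [hξn]; exact hx s t
    · simp only [hξ, px r]
    · intro θ z1 z2 s t k1 k2
      rw [hPM] at k1 k2
      rw [hPM, hPM]
      exact maxAt_conn hx hL px hmax k1 k2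
    · intro s
      obtain ⟨θ, hθ⟩ := exists_dir hx hL px hmax huc huπ hnd s
      exact ⟨θ, (hPM θ s).2 hθ⟩
    · have h3 : x 0 - m = -(x (L / 2) - m) := by rw [hm]; module
      simp only [hξ, h3, inner_neg_left]
      apply Complex.ext <;> simp
    · rw [hξn]; exact hcx s t
  · exfalso
    push Not at H
    by_cases hall : ∀ r, x r = x 0
    · obtain ⟨t, ht⟩ := hfar 0
      have := hcx 0 t
      rw [hall t, sub_self, norm_zero] at this
      linarith
    push Not at hall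
    obtain ⟨s1, hs1⟩ := hall
    set p1 := x s1 - x 0 with hp1
    have hp10 : p1 ≠ 0 := sub_ne_zero.2 hs1
    have hn1 : 0 < ‖p1‖ := norm_pos_iff.2 hp10
    have hτ : ∀ r, ∃ τ : ℝ, x r - x 0 = τ • p1 := by
      intro r
      obtain ⟨α, β, h1, h2⟩ := H s1 r
      have hβ : β ≠ 0 := by
        intro hβ
        rw [hβ, zero_smul, add_zero] at h1
        rcases smul_eq_zero.1 h1 with h3 | h3
        · exact h2 h3 hβ
        · exact hp10 h3
      refine ⟨-(α / β), ?_⟩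
      have h3 : β • (x r - x 0) = -(α • p1) := by rw [eq_neg_iff_add_eq_zero, add_comm]; exact h1
      have h4 : x r - x 0 = β⁻¹ • (β • (x r - x 0)) := by
        rw [smul_smul, inv_mul_cancel₀ hβ, one_smul]
      rw [h4, h3, smul_neg, smul_smul, neg_smul, inv_mul_eq_div]
    set σ : ℝ → ℝ := fun r => inner ℝ (x r - x 0) p1 / ‖p1‖ with hσ
    have hσd : ∀ s t, ‖x s - x t‖ = |σ s - σ t| := by
      intro s t
      obtain ⟨τ, e⟩ := hτ s
      obtain ⟨τ', e'⟩ := hτ t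
      have h3 : x s - x t = (τ - τ') • p1 := by
        rw [show x s - x t = (x s - x 0) - (x t - x 0) by abel, e, e']; module
      have h4 : σ s - σ t = (τ - τ') * ‖p1‖ := by
        simp only [hσ, e, e', real_inner_smul_left, real_inner_self_eq_norm_sq]
        field_simp
      rw [h3, h4, norm_smul, abs_mul, abs_of_pos hn1, Real.norm_eq_abs]
    have hσc : Continuous σ := by fun_prop
    have pσ : Function.Periodic σ L := fun r => by simp only [hσ, px r]
    obtain ⟨a, -, ha⟩ := (isCompact_Icc (a := (0 : ℝ)) (b := L)).exists_isMaxOn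
      (nonempty_Icc.2 hL.le) hσc.continuousOn
    obtain ⟨b, -, hb⟩ := (isCompact_Icc (a := (0 : ℝ)) (b := L)).exists_isMinOn
      (nonempty_Icc.2 hL.le) hσc.continuousOn
    have ha' : ∀ r, σ r ≤ σ a := by
      intro r
      obtain ⟨r', hr', e⟩ := pσ.exists_mem_Ico₀ hL r
      rw [e]; exact ha ⟨hr'.1, hr'.2.le⟩
    have hb' : ∀ r, σ b ≤ σ r := by
      intro r
      obtain ⟨r', hr', e⟩ := pσ.exists_mem_Ico₀ hL r
      rw [e]; exact hb ⟨hr'.1, hr'.2.le⟩
    obtain ⟨r0, hr0⟩ := mem_range_of_exists_le_of_exists_ge hσc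
      ⟨b, (by linarith [ha' b] : σ b ≤ (σ a + σ b) / 2)⟩
      ⟨a, (by linarith [ha' b] : (σ a + σ b) / 2 ≤ σ a)⟩
    obtain ⟨t, ht⟩ := hfar r0
    have h5 := hcx r0 t
    rw [hσd, hr0] at h5
    have h6 := half_bound hx hL px a b
    rw [hσd, abs_of_nonneg (by linarith [ha' b])] at h6
    have h7 : |(σ a + σ b) / 2 - σ t| ≤ (σ a - σ b) / 2 :=
      abs_le.2 ⟨by linarith [ha' t], by linarith [hb' t]⟩
    linarith

end Pool.Agent.W561.Sallee
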