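import Pool.Agent.W561.Sallee.Body

set_option autoImplicit false
set_option linter.unusedSectionVars false

/-!
# The farthest-point distance on closed curves of length `π`
-/

namespace Pool.Agent.W561.Sallee

open Set

section

variable {E : Type*} [NormedAddCommGroup E] [InnerProductSpace ℝ E]

/-- `δ_x`, the distance from `x` to a farthest point of `C`. -/
noncomputable def farDist (C : Set E) (x : E) : ℝ := sSup ((fun y => dist x y) '' C)

/-- The minimum over `x ∈ C` of `δ_x`. -/
noncomputable def minFar (C : Set E) : ℝ := sInf (farDist C '' C)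

variable {C : Set E}

lemma farDist_bdd (hC : IsCompact C) (x : E) : BddAbove ((fun y => dist x y) '' C) :=
  (hC.image (by fun_prop)).bddAbove

lemma le_farDist (hC : IsCompact C) {x y : E} (hy : y ∈ C) : dist x y ≤ farDist C x :=
  le_csSup (farDist_bdd hC x) ⟨y, hy, rfl⟩

lemma exists_farDist (hC : IsCompact C) (hne : C.Nonempty) (x : E) :
    ∃ y ∈ C, dist x y = farDist C x := by
  have h1 : IsCompact ((fun y => dist x y) '' C) := hC.image (by fun_prop)
  obtain ⟨y, hy, e⟩ := h1.sSup_mem (hne.image _)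
  exact ⟨y, hy, e⟩

lemma farDist_nonneg (C : Set E) (x : E) : 0 ≤ farDist C x := by
  apply Real.sSup_nonneg
  rintro _ ⟨y, -, rfl⟩
  exact dist_nonneg

lemma minFar_le {x : E} (hx : x ∈ C) : minFar C ≤ farDist C x :=
  csInf_le ⟨0, by rintro _ ⟨y, -, rfl⟩; exact farDist_nonneg C y⟩ ⟨x, hx, rfl⟩

/-- the minimum is attained -/
lemma minFar_isLeast (hC : IsCompact C) (hne : C.Nonempty) :
    IsLeast (farDist C '' C) (minFar C) := by
  have hcont : Continuous (farDist C) := by
    rw [Metric.continuous_iff]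
    intro b ε hε
    refine ⟨ε / 2, by linarith, fun a ha => ?_⟩
    obtain ⟨y, hy, e⟩ := exists_farDist hC hne a
    obtain ⟨z, hz, e'⟩ := exists_farDist hC hne b
    have h1 := le_farDist hC (x := b) hy
    have h2 := le_farDist hC (x := a) hz
    have h3 := dist_triangle a b y
    have h4 := dist_triangle b a z
    rw [dist_comm b a] at h4
    rw [Real.dist_eq]
    have : |farDist C a - farDist C b| ≤ ε / 2 := abs_le.2 ⟨by linarith, by linarith⟩
    linarith
  have h1 : IsCompact (farDist C '' C) := hC.image hcont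
  exact ⟨h1.sInf_mem (hne.image _), fun r hr =>
    csInf_le ⟨0, by rintro _ ⟨y, -, rfl⟩; exact farDist_nonneg C y⟩ hr⟩

/-- The boundary of a body of constant width one has all farthest-point distances equal to one. -/
lemma farDist_of_boundary (hC : IsWidthOneBoundary C) {x : E} (hx : x ∈ C) : farDist C x = 1 := by
  obtain ⟨φ, K, hK, hconv, hint, hw, rfl⟩ := hC
  have hφ : Isometry φ := φ.isometry
  have hfr : frontier K ⊆ K := hK.isClosed.frontier_subset
  have hbdA : ∀ u, BddAbove ((fun x => inner ℝ x u) '' K) := fun u =>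
    (hK.image (by fun_prop)).bddAbove
  have hbdB : ∀ u, BddBelow ((fun x => inner ℝ x u) '' K) := fun u =>
    (hK.image (by fun_prop)).bddBelow
  obtain ⟨p, hp, rfl⟩ := hx
  -- diameter at most one
  have hdiam : ∀ q ∈ K, dist p q ≤ 1 := by
    intro q hq
    by_cases hpq : p = q
    · rw [hpq, dist_self]; norm_num
    have hn : 0 < ‖p - q‖ := norm_pos_iff.2 (sub_ne_zero.2 hpq)
    set u := ‖p - q‖⁻¹ • (p - q) with hu
    have hu1 : ‖u‖ = 1 := by rw [hu, norm_smul, norm_inv, norm_norm, inv_mul_cancel₀ hn.ne']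
    have h1 := hw u hu1
    unfold width at h1
    have h2 : inner ℝ p u ≤ sSup ((fun x => inner ℝ x u) '' K) :=
      le_csSup (hbdA u) ⟨p, hfr hp, rfl⟩
    have h3 : sInf ((fun x => inner ℝ x u) '' K) ≤ inner ℝ q u :=
      csInf_le (hbdB u) ⟨q, hq, rfl⟩
    have h4 : inner ℝ p u - inner ℝ q u = ‖p - q‖ := by
      rw [← inner_sub_left, hu, real_inner_smul_right, real_inner_self_eq_norm_sq]
      field_simp
    rw [dist_eq_norm, ← h4]
    linarith
  -- a far point
  have hpint : p ∉ interior K := by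
    rw [hK.isClosed.frontier_eq] at hp
    exact hp.2
  obtain ⟨f, hf⟩ := geometric_hahn_banach_open_point hconv.interior isOpen_interior hpint
  have hfK : ∀ q ∈ K, f q ≤ f p := by
    intro q hq
    have h1 : K ⊆ closure (interior K) := by
      rw [hconv.closure_interior_eq_closure_of_nonempty_interior hint]
      exact subset_closure
    have h2 : closure (interior K) ⊆ {q | f q ≤ f p} :=
      closure_minimal (fun q hq => (hf q hq).le) (isClosed_le f.continuous continuous_const)
    exact h2 (h1 hq)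
  obtain ⟨v, hv⟩ : ∃ v : EuclideanSpace ℝ (Fin 2), ∀ q, f q = inner ℝ q v := by
    refine ⟨(InnerProductSpace.toDual ℝ _).symm f, fun q => ?_⟩
    rw [real_inner_comm, InnerProductSpace.toDual_symm_apply]
  have hv0 : v ≠ 0 := by
    rintro rfl
    obtain ⟨q, hq⟩ := hint
    have := hf q hq
    rw [hv, hv, inner_zero_right, inner_zero_right] at this
    exact lt_irrefl _ this
  have hvn : 0 < ‖v‖ := norm_pos_iff.2 hv0
  set u := ‖v‖⁻¹ • v with hu
  have hu1 : ‖u‖ = 1 := by rw [hu, norm_smul, norm_inv, norm_norm, inv_mul_cancel₀ hvn.ne']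
  have hpu : ∀ q ∈ K, inner ℝ q u ≤ inner ℝ p u := by
    intro q hq
    have h1 := hfK q hq
    rw [hv, hv] at h1
    rw [hu, real_inner_smul_right, real_inner_smul_right]
    exact mul_le_mul_of_nonneg_left h1 (inv_pos.2 hvn).le
  have hKne : K.Nonempty := ⟨p, hfr hp⟩
  obtain ⟨q, hq, hqe⟩ := (hK.image (f := fun x => inner ℝ x u) (by fun_prop)).sInf_mem
    (hKne.image _)
  have hqle : ∀ r ∈ K, inner ℝ q u ≤ inner ℝ r u := by
    intro r hr
    have h1 : (fun x => inner ℝ x u) q ≤ inner ℝ r u := by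
      rw [hqe]; exact csInf_le (hbdB u) ⟨r, hr, rfl⟩
    exact h1
  have hsup : sSup ((fun x => inner ℝ x u) '' K) = inner ℝ p u :=
    le_antisymm (csSup_le (hKne.image _) (by rintro _ ⟨r, hr, rfl⟩; exact hpu r hr))
      (le_csSup (hbdA u) ⟨p, hfr hp, rfl⟩)
  have hpq : inner ℝ p u - inner ℝ q u = (1 : ℝ) := by
    have h1 := hw u hu1
    unfold width at h1
    rw [hsup, ← hqe] at h1
    exact h1
  have hqf : q ∈ frontier K := by
    rw [hK.isClosed.frontier_eq]
    refine ⟨hq, fun hqi => ?_⟩
    obtain ⟨ε, hε, hball⟩ := Metric.mem_nhds_iff.1 (mem_interior_iff_mem_nhds.1 hqi)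
    have h2 : q - (ε / 2) • u ∈ K := hball (by
      rw [mem_ball_iff_norm, sub_sub_cancel_left, norm_neg, norm_smul, hu1, mul_one,
        Real.norm_eq_abs, abs_of_pos (by linarith)]
      linarith)
    have h3 := hqle _ h2
    rw [inner_sub_left, real_inner_smul_left, real_inner_self_eq_norm_sq, hu1] at h3
    linarith
  have hge : 1 ≤ dist p q := by
    rw [← hpq, ← inner_sub_left, dist_eq_norm]
    have := real_inner_le_norm (p - q) u
    rwa [hu1, mul_one] at this
  have hcomp : IsCompact (φ '' frontier K) :=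
    (hK.of_isClosed_subset isClosed_frontier hfr).image φ.continuous
  apply le_antisymm
  · refine csSup_le ⟨_, _, ⟨p, hp, rfl⟩, rfl⟩ ?_
    rintro _ ⟨_, ⟨r, hr, rfl⟩, rfl⟩
    simp only [hφ.dist_eq]
    exact hdiam r (hfr hr)
  · have h1 := le_farDist hcomp (x := φ p) (y := φ q) ⟨q, hqf, rfl⟩
    rw [hφ.dist_eq] at h1
    exact hge.trans h1

lemma minFar_of_boundary (hne : C.Nonempty) (hC : IsWidthOneBoundary C) : minFar C = 1 := by
  have h1 : farDist C '' C = {1} := by
    ext r
    constructor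
    · rintro ⟨x, hx, rfl⟩; exact farDist_of_boundary hC hx
    · rintro rfl
      obtain ⟨x, hx⟩ := hne
      exact ⟨x, hx, farDist_of_boundary hC hx⟩
  unfold minFar
  rw [h1, csInf_singleton]

/-- **Main theorem** -/
theorem main_thm [FiniteDimensional ℝ E] {γ : ℝ → E} (hγ : Continuous γ)
    (hp : Function.Periodic γ 1) (hlen : eVariationOn γ (Icc 0 1) = ENNReal.ofReal Real.pi) :
    minFar (range γ) ≤ 1 ∧ (minFar (range γ) = 1 ↔ IsWidthOneBoundary (range γ)) := by
  obtain ⟨c, hc, pc, hr⟩ := exists_param hγ hp Real.pi_pos hlen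
  rw [← hr]
  have hcomp : IsCompact (range c) := by
    have h1 : range c = c '' Icc 0 Real.pi := by
      apply subset_antisymm
      · rintro _ ⟨s, rfl⟩
        obtain ⟨s', hs', e⟩ := pc.exists_mem_Ico₀ Real.pi_pos s
        exact ⟨s', ⟨hs'.1, hs'.2.le⟩, e.symm⟩
      · exact image_subset_range _ _
    rw [h1]
    exact isCompact_Icc.image hc.continuous
  have hne : (range c).Nonempty := range_nonempty c
  -- every point has a far point
  have hfar : ∀ s, ∃ t, minFar (range c) ≤ ‖c s - c t‖ := by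
    intro s
    obtain ⟨_, ⟨t, rfl⟩, e⟩ := exists_farDist hcomp hne (c s)
    refine ⟨t, ?_⟩
    rw [← dist_eq_norm, e]
    exact minFar_le ⟨s, rfl⟩
  refine ⟨?_, fun h1 => ?_, minFar_of_boundary hne⟩
  · by_contra hlt
    push Not at hlt
    obtain ⟨m, hm⟩ : ∃ m, m = minFar (range c) := ⟨_, rfl⟩
    rw [← hm] at hlt hfar
    have hm0 : 0 < m := by linarith
    have h2 := core (c := fun s => m⁻¹ • c (m * s)) (L := Real.pi / m) (fun s t => ?_)
      (div_pos Real.pi_pos hm0) (div_le_self Real.pi_pos.le hlt.le) (fun s => ?_) (fun s => ?_)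
    · have h3 := h2.1
      rw [div_eq_iff hm0.ne'] at h3
      have h4 : Real.pi * 1 < Real.pi * m := mul_lt_mul_of_pos_left hlt Real.pi_pos
      linarith
    · rw [← smul_sub, norm_smul, norm_inv, Real.norm_of_nonneg hm0.le, inv_mul_le_iff₀ hm0]
      have h3 := hc (m * s) (m * t)
      rw [← mul_sub, abs_mul, abs_of_pos hm0] at h3
      exact h3
    · have h3 : m * (s + Real.pi / m) = m * s + Real.pi := by field_simp
      simp only [h3, pc (m * s)]
    · obtain ⟨t, ht⟩ := hfar (m * s)
      refine ⟨t / m, ?_⟩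
      rw [mul_div_cancel₀ t hm0.ne', ← smul_sub, norm_smul, norm_inv, Real.norm_of_nonneg hm0.le,
        le_inv_mul_iff₀ hm0, mul_one]
      exact ht
  · rw [h1] at hfar
    exact (core hc Real.pi_pos le_rfl pc hfar).2

end

end Pool.Agent.W561.Sallee
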