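import Pool.Agent.W561.Sallee.Coord

set_option autoImplicit false

/-!
# The inequality for plane curves whose hull boundary is covered by the curve
-/

namespace Pool.Agent.W561.Sallee

open Set

lemma pr_add_angle (w : ℂ) (φ ε : ℝ) :
    pr w (φ + ε) = Real.cos ε * pr w φ + Real.sin ε * pr w (φ + Real.pi / 2) := by
  simp only [pr, Real.cos_add, Real.sin_add, Real.cos_pi_div_two, Real.sin_pi_div_two]
  ring

lemma norm_sq_pr (w : ℂ) (φ : ℝ) : ‖w‖ ^ 2 = pr w φ ^ 2 + pr w (φ + Real.pi / 2) ^ 2 := by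
  rw [Complex.sq_norm, Complex.normSq_apply]
  simp only [pr, Real.cos_add_pi_div_two, Real.sin_add_pi_div_two]
  have h := Real.sin_sq_add_cos_sq φ
  calc w.re * w.re + w.im * w.im
      = (w.re * w.re + w.im * w.im) * (Real.sin φ ^ 2 + Real.cos φ ^ 2) := by rw [h, mul_one]
    _ = _ := by ring

lemma eq_of_pr {w w' : ℂ} {φ : ℝ} (h1 : pr w φ = pr w' φ)
    (h2 : pr w (φ + Real.pi / 2) = pr w' (φ + Real.pi / 2)) : w = w' := by
  have h3 := norm_sq_pr (w - w') φ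
  rw [pr_sub, pr_sub, h1, h2, sub_self, sub_self] at h3
  have h4 : ‖w - w'‖ = 0 := by
    have : ‖w - w'‖ ^ 2 = 0 := by rw [h3]; ring
    exact pow_eq_zero_iff (two_ne_zero) |>.1 this
  exact sub_eq_zero.1 (norm_eq_zero.1 h4)

lemma continuous_pr {X : Type*} [TopologicalSpace X] {f : X → ℂ} {g : X → ℝ} (hf : Continuous f)
    (hg : Continuous g) : Continuous fun x => pr (f x) (g x) := by
  unfold pr
  have h1 : Continuous fun x => (f x).re := Complex.continuous_re.comp hf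
  have h2 : Continuous fun x => (f x).im := Complex.continuous_im.comp hf
  fun_prop

lemma isClosed_tilt {ξ : ℝ → ℂ} (hξ : Continuous ξ) {τ : ℝ → ℝ} (hτ : Continuous τ)
    (φ s0 s1 : ℝ) :
    IsClosed {ε : ℝ | ∃ r ∈ Icc s0 s1, PMax ξ (φ + ε) r ∧ τ r ≤ 0} := by
  have h1 : IsClosed {p : ℝ × (Icc s0 s1) | PMax ξ (φ + p.1) p.2 ∧ τ p.2 ≤ 0} := by
    have c1 : IsClosed {p : ℝ × (Icc s0 s1) | PMax ξ (φ + p.1) p.2} := by
      simp only [PMax, Set.ofPred_forall]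
      exact isClosed_iInter fun r => isClosed_le (continuous_pr (by fun_prop) (by fun_prop))
        (continuous_pr (by fun_prop) (by fun_prop))
    have c2 : IsClosed {p : ℝ × (Icc s0 s1) | τ p.2 ≤ 0} :=
      isClosed_le (by fun_prop) continuous_const
    exact c1.inter c2
  have h2 := isClosedMap_fst_of_compactSpace _ h1
  convert h2 using 1
  ext ε
  constructor
  · rintro ⟨r, hr, h3, h4⟩
    exact ⟨(ε, ⟨r, hr⟩), ⟨h3, h4⟩, rfl⟩
  · rintro ⟨⟨ε', ⟨r, hr⟩⟩, ⟨h3, h4⟩, rfl⟩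
    exact ⟨r, hr, h3, h4⟩

namespace PlaneCurve

variable {L : ℝ} {ξ : ℝ → ℂ} (P : PlaneCurve L ξ)
include P

lemma cont : Continuous ξ := P.lip.continuous

lemma exists_max (θ s0 : ℝ) : ∃ a ∈ Icc s0 (s0 + L), PMax ξ θ a := by
  have hc := P.cont
  obtain ⟨a, ha, hmax⟩ := (isCompact_Icc (a := s0) (b := s0 + L)).exists_isMaxOn
    (nonempty_Icc.2 (by linarith [P.pos])) (f := fun r => pr (ξ r) θ)
    (continuous_pr hc continuous_const).continuousOn
  refine ⟨a, ha, fun r => ?_⟩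
  obtain ⟨r', hr', e⟩ := P.per.exists_mem_Ico P.pos r s0
  rw [e]
  exact hmax ⟨hr'.1, hr'.2.le⟩

omit P in
lemma max_eq {h : ℝ → ℝ} (hh : IsSupp (range ξ) h) {θ s : ℝ} (hs : PMax ξ θ s) :
    pr (ξ s) θ = h θ := by
  apply le_antisymm (hh.pr_le' ⟨s, rfl⟩ θ)
  refine hh.le_of ?_
  rintro _ ⟨r, rfl⟩
  exact hs r

omit P in
lemma eq_max {h : ℝ → ℝ} (hh : IsSupp (range ξ) h) {θ s : ℝ} (hs : pr (ξ s) θ = h θ) :
    PMax ξ θ s := fun r => by rw [hs]; exact hh.pr_le' ⟨r, rfl⟩ θ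

lemma max_add {θ s : ℝ} : PMax ξ θ (s + L) ↔ PMax ξ θ s := by
  unfold PMax; rw [P.per s]

lemma quarter (s : ℝ) : ‖ξ s‖ ≤ L / 4 := by
  have hL := P.pos
  obtain ⟨s', hs', e⟩ := P.per.exists_mem_Ico₀ hL s
  rw [e]
  have h1 : (2 : ℝ) * ‖ξ s'‖ ≤ ‖ξ s' - ξ 0‖ + ‖ξ s' - ξ (L / 2)‖ := by
    have h2 : (2 : ℝ) • ξ s' = (ξ s' - ξ 0) + (ξ s' - ξ (L / 2)) := by
      rw [P.mid, two_smul]; ring
    have h3 := norm_add_le (ξ s' - ξ 0) (ξ s' - ξ (L / 2))
    rw [← h2, norm_smul] at h3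
    simpa using h3
  have h2 := P.lip s' (L / 2)
  by_cases h : s' ≤ L / 2
  · have h3 := P.lip s' 0
    rw [sub_zero, abs_of_nonneg hs'.1] at h3
    rw [abs_of_nonpos (by linarith)] at h2
    linarith
  · push Not at h
    have h3 := P.lip s' L
    have h4 : ξ L = ξ 0 := by have := P.per 0; rwa [zero_add] at this
    rw [h4, abs_of_nonpos (by linarith [hs'.2])] at h3
    rw [abs_of_nonneg (by linarith)] at h2
    linarith

/-- boundary points of the hull belong to the curve -/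
lemma mem_of_support {h : ℝ → ℝ} (hh : IsSupp (range ξ) h) {q : ℂ} (hq : ∀ ψ, pr q ψ ≤ h ψ)
    {φ : ℝ} (hφ : pr q φ = h φ) : ∃ r, ξ r = q := by
  have hc := P.cont
  have hpi := Real.pi_pos
  set f : ℝ → ℝ := fun r => pr (ξ r) (φ + Real.pi / 2) - pr q (φ + Real.pi / 2) with hf
  have hfc : Continuous f := (continuous_pr hc continuous_const).sub continuous_const
  -- tilting
  have key1 : ∃ r ∈ Icc 0 L, PMax ξ φ r ∧ -f r ≤ 0 := by
    have hcl := isClosed_tilt hc hfc.neg φ 0 L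
    have hsub : Ioo 0 (Real.pi / 2) ⊆ {ε : ℝ | ∃ r ∈ Icc 0 L, PMax ξ (φ + ε) r ∧ -f r ≤ 0} := by
      intro ε hε
      obtain ⟨r, hr, hM⟩ := P.exists_max (φ + ε) 0
      rw [zero_add] at hr
      refine ⟨r, hr, hM, ?_⟩
      have h1 := hq (φ + ε)
      rw [← max_eq hh hM, pr_add_angle, pr_add_angle (ξ r)] at h1
      have h2 := hh.pr_le' ⟨r, rfl⟩ φ
      have hcos : 0 ≤ Real.cos ε := Real.cos_nonneg_of_mem_Icc ⟨by linarith [hε.1], hε.2.le⟩
      have hsin : 0 < Real.sin ε := Real.sin_pos_of_pos_of_lt_pi hε.1 (by linarith [hε.2])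
      have h3 : Real.cos ε * pr (ξ r) φ ≤ Real.cos ε * pr q φ := by
        rw [hφ]; exact mul_le_mul_of_nonneg_left h2 hcos
      have h4 : Real.sin ε * pr q (φ + Real.pi / 2) ≤
        Real.sin ε * pr (ξ r) (φ + Real.pi / 2) := by linarith
      have h5 := le_of_mul_le_mul_left h4 hsin
      simp only [hf]
      linarith
    have h0 : (0 : ℝ) ∈ closure (Ioo 0 (Real.pi / 2)) := by
      rw [closure_Ioo (by positivity)]; exact left_mem_Icc.2 (by positivity)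
    have := (closure_minimal hsub hcl) h0
    simpa using this
  have key2 : ∃ r ∈ Icc 0 L, PMax ξ φ r ∧ f r ≤ 0 := by
    have hcl := isClosed_tilt hc hfc φ 0 L
    have hsub : Ioo (-(Real.pi / 2)) 0 ⊆ {ε : ℝ | ∃ r ∈ Icc 0 L, PMax ξ (φ + ε) r ∧ f r ≤ 0} := by
      intro ε hε
      obtain ⟨r, hr, hM⟩ := P.exists_max (φ + ε) 0
      rw [zero_add] at hr
      refine ⟨r, hr, hM, ?_⟩
      have h1 := hq (φ + ε)
      rw [← max_eq hh hM, pr_add_angle, pr_add_angle (ξ r)] at h1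
      have h2 := hh.pr_le' ⟨r, rfl⟩ φ
      have hcos : 0 ≤ Real.cos ε := Real.cos_nonneg_of_mem_Icc ⟨hε.1.le, by linarith [hε.2]⟩
      have hsin : Real.sin ε < 0 := Real.sin_neg_of_neg_of_neg_pi_lt hε.2 (by linarith [hε.1])
      have h3 : Real.cos ε * pr (ξ r) φ ≤ Real.cos ε * pr q φ := by
        rw [hφ]; exact mul_le_mul_of_nonneg_left h2 hcos
      have h4 : (-Real.sin ε) * pr (ξ r) (φ + Real.pi / 2) ≤
        (-Real.sin ε) * pr q (φ + Real.pi / 2) := by linarith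
      have h5 := le_of_mul_le_mul_left h4 (neg_pos.2 hsin)
      simp only [hf]
      linarith
    have h0 : (0 : ℝ) ∈ closure (Ioo (-(Real.pi / 2)) 0) := by
      rw [closure_Ioo (by linarith)]; exact right_mem_Icc.2 (by linarith)
    have := (closure_minimal hsub hcl) h0
    simpa using this
  -- from two parameters to one
  have key3 : ∀ a b : ℝ, a ≤ b → b ≤ a + L → PMax ξ φ a → PMax ξ φ b →
      (0 : ℝ) ∈ uIcc (f a) (f b) → ∃ r, PMax ξ φ r ∧ f r = 0 := by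
    intro a b hab hba hMa hMb h0
    have hdich : (∀ s, a < s → s < b → PMax ξ φ s) ∨ (∀ t, b < t → t < a + L → PMax ξ φ t) := by
      by_contra hcon
      push Not at hcon
      obtain ⟨⟨s, h1, h2, h3⟩, ⟨t, h4, h5, h6⟩⟩ := hcon
      rcases P.conn φ a b s t hMa hMb h1 h2 h4 h5 with h | h
      · exact h3 h
      · exact h6 h
    rcases hdich with h | h
    · obtain ⟨r, hr, e⟩ := intermediate_value_uIcc (f := f) hfc.continuousOn h0
      rw [uIcc_of_le hab] at hr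
      refine ⟨r, ?_, e⟩
      rcases hr.1.eq_or_lt with h1 | h1
      · rw [← h1]; exact hMa
      rcases hr.2.eq_or_lt with h2 | h2
      · rw [h2]; exact hMb
      exact h r h1 h2
    · have hMa' : PMax ξ φ (a + L) := P.max_add.2 hMa
      have e1 : f (a + L) = f a := by simp only [hf, P.per a]
      have h0' : (0 : ℝ) ∈ uIcc (f b) (f (a + L)) := by rw [e1, uIcc_comm]; exact h0
      obtain ⟨r, hr, e⟩ := intermediate_value_uIcc (f := f) hfc.continuousOn h0'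
      rw [uIcc_of_le hba] at hr
      refine ⟨r, ?_, e⟩
      rcases hr.1.eq_or_lt with h1 | h1
      · rw [← h1]; exact hMb
      rcases hr.2.eq_or_lt with h2 | h2
      · rw [h2]; exact hMa'
      exact h r h1 h2
  obtain ⟨r1, hr1, hM1, hf1⟩ := key1
  obtain ⟨r2, hr2, hM2, hf2⟩ := key2
  have h0 : (0 : ℝ) ∈ uIcc (f r1) (f r2) := by
    rw [uIcc_of_ge (by linarith)]; exact ⟨hf2, by linarith⟩
  obtain ⟨r, hM, hr⟩ : ∃ r, PMax ξ φ r ∧ f r = 0 := by
    rcases le_total r1 r2 with h | h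
    · exact key3 r1 r2 h (by linarith [hr1.1, hr2.2]) hM1 hM2 h0
    · exact key3 r2 r1 h (by linarith [hr2.1, hr1.2]) hM2 hM1 (by rw [uIcc_comm]; exact h0)
  refine ⟨r, eq_of_pr (φ := φ) ?_ ?_⟩
  · rw [max_eq hh hM, hφ]
  · have : f r = 0 := hr
    simp only [hf] at this
    linarith

lemma hull {h : ℝ → ℝ} (hL4 : L < 4) (hfar : ∀ s, ∃ t, 1 ≤ ‖ξ s - ξ t‖)
    (hh : IsSupp (range ξ) h) {z : ℂ} (hz : ∀ s, ‖ξ s - z‖ ≤ 1) (θ : ℝ) : pr z θ ≤ h θ := by
  by_contra hlt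
  push Not at hlt
  have hc := P.cont
  have hbd : ∀ x ∈ range ξ, ‖x‖ ≤ L / 4 := by rintro _ ⟨s, rfl⟩; exact P.quarter s
  have ch : Continuous h := hh.continuous hbd
  have ph : Function.Periodic h (2 * Real.pi) := fun θ => hh.periodic θ
  set Λ : Set ℝ := {l | l ∈ Icc (0 : ℝ) 1 ∧ ∀ φ, pr (l • z) φ ≤ h φ} with hΛ
  have hΛc : IsCompact Λ := by
    have cl : IsClosed {l : ℝ | ∀ φ, pr (l • z) φ ≤ h φ} := by
      simp only [pr_smul, Set.ofPred_forall]
      exact isClosed_iInter fun φ => isClosed_le (by fun_prop) continuous_const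
    exact isCompact_Icc.inter_right cl
  have hΛ0 : (0 : ℝ) ∈ Λ := by
    refine ⟨left_mem_Icc.2 zero_le_one, fun φ => ?_⟩
    have h1 := hh.pr_le' ⟨0, rfl⟩ φ
    have h2 := hh.pr_le' ⟨L / 2, rfl⟩ φ
    rw [P.mid, pr_neg] at h1
    rw [pr_smul]
    linarith
  obtain ⟨l, hlΛ, hlmax⟩ := hΛc.exists_isMaxOn ⟨0, hΛ0⟩ continuousOn_id
  have hl0 : 0 ≤ l := hlΛ.1.1
  have hl1 : l < 1 := by
    refine lt_of_le_of_ne hlΛ.1.2 ?_
    rintro rfl
    have := hlΛ.2 θ
    rw [one_smul] at this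
    linarith
  have hsup : ∃ φ, pr (l • z) φ = h φ := by
    by_contra hcon
    push Not at hcon
    have hpos : ∀ φ, 0 < h φ - pr (l • z) φ := fun φ =>
      sub_pos.2 (lt_of_le_of_ne (hlΛ.2 φ) (hcon φ))
    have hcf : Continuous fun φ => h φ - pr (l • z) φ :=
      ch.sub (continuous_pr continuous_const continuous_id)
    obtain ⟨φ0, -, hmin⟩ := (isCompact_Icc (a := (0 : ℝ)) (b := 2 * Real.pi)).exists_isMinOn
      (nonempty_Icc.2 Real.two_pi_pos.le) hcf.continuousOn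
    set δ := h φ0 - pr (l • z) φ0 with hδ
    have hδ0 : 0 < δ := hpos φ0
    have hδle : ∀ φ, pr (l • z) φ + δ ≤ h φ := by
      intro φ
      have pf : Function.Periodic (fun φ => h φ - pr (l • z) φ) (2 * Real.pi) := fun φ => by
        simp only [ph φ, pr_add_two_pi]
      obtain ⟨ψ, hψ, e⟩ := pf.exists_mem_Ico₀ Real.two_pi_pos φ
      have h1 : δ ≤ h ψ - pr (l • z) ψ := hmin ⟨hψ.1, hψ.2.le⟩
      have e' : h φ - pr (l • z) φ = h ψ - pr (l • z) ψ := e
      linarith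
    have hz1 : 0 < ‖z‖ + 1 := by positivity
    set η := min (1 - l) (δ / (‖z‖ + 1)) with hη
    have hη0 : 0 < η := lt_min (by linarith) (div_pos hδ0 hz1)
    have hη1 : η ≤ 1 - l := min_le_left _ _
    have hη2 : η * ‖z‖ ≤ δ := by
      have : η * (‖z‖ + 1) ≤ δ := by rw [← le_div_iff₀ hz1]; exact min_le_right _ _
      linarith
    have hmem : l + η ∈ Λ := by
      refine ⟨⟨by linarith, by linarith⟩, fun φ => ?_⟩
      have h1 := hδle φ
      rw [pr_smul] at h1 ⊢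
      have h2 : η * pr z φ ≤ η * ‖z‖ := mul_le_mul_of_nonneg_left (pr_le z φ) hη0.le
      linarith
    have : l + η ≤ l := hlmax hmem
    linarith
  obtain ⟨φ, hφ⟩ := hsup
  obtain ⟨r, hr⟩ := P.mem_of_support hh hlΛ.2 hφ
  obtain ⟨t, ht⟩ := hfar r
  rw [hr, norm_sub_rev] at ht
  have e : ξ t - l • z = (1 - l) • ξ t + l • (ξ t - z) := by
    simp only [Complex.real_smul]
    push_cast
    ring
  rw [e] at ht
  have h1 := norm_add_le ((1 - l) • ξ t) (l • (ξ t - z))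
  rw [norm_smul, norm_smul, Real.norm_eq_abs, Real.norm_eq_abs, abs_of_nonneg hl0,
    abs_of_pos (by linarith : 0 < 1 - l)] at h1
  have h2 := P.quarter t
  have h3 := hz t
  have h4 : (1 - l) * ‖ξ t‖ ≤ (1 - l) * (L / 4) := mul_le_mul_of_nonneg_left h2 (by linarith)
  have h5 : l * ‖ξ t - z‖ ≤ l * 1 := mul_le_mul_of_nonneg_left h3 hl0
  have h6 : (1 - l) * (L / 4) < (1 - l) * 1 := mul_lt_mul_of_pos_left (by linarith) (by linarith)
  linarith

/-- **Main inequality** for the plane curves, with the equality case. -/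
theorem main (hLpi : L ≤ Real.pi) (hfar : ∀ s, ∃ t, 1 ≤ ‖ξ s - ξ t‖) :
    L = Real.pi ∧ ∃ h, IsSupp (range ξ) h ∧ ∀ θ, h θ + h (θ + Real.pi) = 1 := by
  have hpi4 := Real.pi_lt_four
  have hbd : ∀ x ∈ range ξ, ‖x‖ ≤ 1 - (1 - Real.pi / 4) := by
    rintro _ ⟨s, rfl⟩
    have := P.quarter s
    linarith
  have hne : (range ξ).Nonempty := range_nonempty ξ
  obtain ⟨h, hh⟩ := exists_isSupp hne hbd
  have hW : ({w | ∀ x ∈ range ξ, ‖x + w‖ ≤ 1} : Set ℂ).Nonempty := by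
    refine ⟨0, fun x hx => ?_⟩
    rw [add_zero]
    have := hbd x hx
    linarith
  obtain ⟨k, hk⟩ := exists_isSupp hW (R := 2) (by
    intro w hw
    have h1 := hw (ξ 0) ⟨0, rfl⟩
    have h2 := hbd (ξ 0) ⟨0, rfl⟩
    have h3 : ‖w‖ ≤ ‖ξ 0 + w‖ + ‖ξ 0‖ := by
      have := norm_sub_le (ξ 0 + w) (ξ 0)
      rwa [add_sub_cancel_left] at this
    linarith)
  have D : Dat (range ξ) h k (1 - Real.pi / 4) := ⟨hne, hh, by linarith, hbd, hk⟩
  have hkh : ∀ θ, k θ ≤ h (θ + Real.pi) := by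
    intro θ
    refine hk.le_of fun w hw => ?_
    have h1 := P.hull (by linarith) hfar hh (z := -w) (fun s => by
      rw [sub_neg_eq_add]; exact hw _ ⟨s, rfl⟩) (θ + Real.pi)
    rw [pr_neg, pr_add_pi, neg_neg] at h1
    exact h1
  have h1 := D.pi_le hkh
  have h2 := crofton P.pos P.lip P.per hh
  have hL : L = Real.pi := le_antisymm hLpi (h1.trans h2)
  have hI : II h = Real.pi := le_antisymm (by rw [← hL]; exact h2) h1
  exact ⟨hL, h, hh, D.width_of_eq hkh hI⟩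

end PlaneCurve

end Pool.Agent.W561.Sallee
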