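import Pool.Agent.W561.Sallee.Wulff

set_option autoImplicit false

/-!
# The integral inequality
-/

namespace Pool.Agent.W561.Sallee

open Set MeasureTheory intervalIntegral

/-- integral over a period -/
noncomputable def II (F : ℝ → ℝ) : ℝ := ∫ θ in (0 : ℝ)..(2 * Real.pi), F θ

lemma II_shift {F : ℝ → ℝ} (hF : Function.Periodic F (2 * Real.pi)) (t : ℝ) :
    II (fun θ => F (θ + t)) = II F := by
  unfold II
  rw [intervalIntegral.integral_comp_add_right, zero_add]
  have := hF.intervalIntegral_add_eq t 0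
  rw [zero_add, add_comm t] at this
  exact this

lemma II_add {F G : ℝ → ℝ} (hF : Continuous F) (hG : Continuous G) :
    II (fun θ => F θ + G θ) = II F + II G :=
  intervalIntegral.integral_add (hF.intervalIntegrable _ _) (hG.intervalIntegrable _ _)

lemma II_sub {F G : ℝ → ℝ} (hF : Continuous F) (hG : Continuous G) :
    II (fun θ => F θ - G θ) = II F - II G :=
  intervalIntegral.integral_sub (hF.intervalIntegrable _ _) (hG.intervalIntegrable _ _)

lemma II_mul (c : ℝ) (F : ℝ → ℝ) : II (fun θ => c * F θ) = c * II F :=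
  intervalIntegral.integral_const_mul _ _

lemma II_const (c : ℝ) : II (fun _ => c) = 2 * Real.pi * c := by
  simp [II]

lemma II_mono {F G : ℝ → ℝ} (hF : Continuous F) (hG : Continuous G) (h : ∀ θ, F θ ≤ G θ) :
    II F ≤ II G :=
  intervalIntegral.integral_mono_on Real.two_pi_pos.le (hF.intervalIntegrable _ _)
    (hG.intervalIntegrable _ _) fun θ _ => h θ

lemma II_nonneg {F : ℝ → ℝ} (h : ∀ θ, 0 ≤ F θ) : 0 ≤ II F :=
  intervalIntegral.integral_nonneg Real.two_pi_pos.le fun θ _ => h θ

/-- A continuous nonnegative periodic function with zero integral vanishes. -/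
lemma II_eq_zero {F : ℝ → ℝ} (hF : Continuous F) (hp : Function.Periodic F (2 * Real.pi))
    (h : ∀ θ, 0 ≤ F θ) (h0 : II F ≤ 0) (θ : ℝ) : F θ = 0 := by
  by_contra hne
  have hpos : 0 < F θ := lt_of_le_of_ne (h θ) (Ne.symm hne)
  have h1 : II (fun φ => F (φ + θ)) ≤ 0 := by rw [II_shift hp]; exact h0
  have h2 : 0 < II (fun φ => F (φ + θ)) := by
    have h3 : (∫ _ in (0 : ℝ)..(2 * Real.pi), (0 : ℝ)) < II (fun φ => F (φ + θ)) := by
      refine intervalIntegral.integral_lt_integral_of_continuousOn_of_le_of_exists_lt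
        Real.two_pi_pos continuousOn_const (by fun_prop) (fun x _ => h _)
        ⟨0, left_mem_Icc.2 Real.two_pi_pos.le, by simpa using hpos⟩
    simpa using h3
  linarith

/-- the bilinear form -/
noncomputable def bet (t : ℝ) (a b : ℝ → ℝ) (θ : ℝ) : ℝ :=
  a (θ + t) * b θ + a θ * b (θ + t) - Real.cos t * (a θ * b θ + a (θ + t) * b (θ + t))

lemma II_bet {a b : ℝ → ℝ} (ha : Continuous a) (hb : Continuous b)
    (pa : Function.Periodic a (2 * Real.pi)) (pb : Function.Periodic b (2 * Real.pi)) (t : ℝ) :
    II (bet t a b) = II (fun θ => (a (θ + t) + a (θ - t) - 2 * Real.cos t * a θ) * b θ) := by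
  set F : ℝ → ℝ := fun θ => a (θ - t) * b θ with hF
  set G : ℝ → ℝ := fun θ => a θ * b θ with hG
  have pF : Function.Periodic F (2 * Real.pi) := fun θ => by
    simp only [hF]
    rw [show θ + 2 * Real.pi - t = (θ - t) + 2 * Real.pi by ring, pa, pb]
  have pG : Function.Periodic G (2 * Real.pi) := fun θ => by
    simp only [hG]
    rw [pa, pb]
  have cF : Continuous F := by fun_prop
  have cG : Continuous G := by fun_prop
  have cbet : Continuous (bet t a b) := by unfold bet; fun_prop
  have e : (fun θ => (a (θ + t) + a (θ - t) - 2 * Real.cos t * a θ) * b θ) =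
      fun θ => bet t a b θ + ((F θ - F (θ + t)) - Real.cos t * (G θ - G (θ + t))) := by
    funext θ
    simp only [bet, hF, hG, add_sub_cancel_right]
    ring
  rw [e, II_add cbet (by fun_prop), II_sub (by fun_prop) (by fun_prop), II_mul,
    II_sub cF (by fun_prop), II_sub cG (by fun_prop), II_shift pF, II_shift pG]
  ring

namespace Dat

variable {C : Set ℂ} {h k : ℝ → ℝ} {ρ : ℝ} (D : Dat C h k ρ)
include D

lemma kper : Function.Periodic k (2 * Real.pi) := fun θ => D.hk.periodic θ
lemma hper : Function.Periodic h (2 * Real.pi) := fun θ => D.hh.periodic θ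

/-- `∫ Δ k · b ≤ K ∫ Δ k` when `b ≤ K` near the places where `Δ k ≠ 0`. -/
lemma int_delta {t : ℝ} (ht0 : 0 < t) (ht : t < Real.pi / 2) {b : ℝ → ℝ} (hb : Continuous b)
    {K : ℝ} (hbK : ∀ θ, 1 - h θ - k θ ≤ 3 * t → b θ ≤ K) :
    II (fun θ => (k (θ + t) + k (θ - t) - 2 * Real.cos t * k θ) * b θ) ≤
      K * (2 * (1 - Real.cos t) * II k) := by
  have ck := D.kcont
  have h1 : II (fun θ => (k (θ + t) + k (θ - t) - 2 * Real.cos t * k θ)) =
      2 * (1 - Real.cos t) * II k := by
    rw [II_sub (by fun_prop) (by fun_prop), II_add (by fun_prop) (by fun_prop), II_mul,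
      II_shift D.kper]
    have h2 := II_shift D.kper (-t)
    simp only [← sub_eq_add_neg] at h2
    rw [h2]; ring
  rw [← h1, ← II_mul]
  refine II_mono (by fun_prop) (by fun_prop) fun θ => ?_
  obtain ⟨h2, h3⟩ := D.wulff_mul ht0 ht θ
  rcases h3 with h3 | h3
  · rw [h3]; simp
  · rw [mul_comm K]
    exact mul_le_mul_of_nonneg_left (hbK θ h3) h2

theorem ineq {t : ℝ} (ht0 : 0 < t) (ht : t < Real.pi / 2) (hkh : ∀ θ, k θ ≤ h (θ + Real.pi)) :
    II (fun θ => k θ * k (θ + t) *
      ((1 - h θ - k θ) / k θ - (1 - h (θ + t) - k (θ + t)) / k (θ + t)) ^ 2) -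
      (9 * t ^ 2 / ρ + 6 * t) * (2 * (1 - Real.cos t) * II k) ≤
      4 * (1 - Real.cos t) * (II h - Real.pi) := by
  have ck := D.kcont
  have ch := D.hcont
  have hk0 : ∀ θ, k θ ≠ 0 := fun θ => (D.k_pos θ).ne'
  set g : ℝ → ℝ := fun θ => 1 - h θ - k θ with hg
  have cg : Continuous g := by fun_prop
  have pg : Function.Periodic g (2 * Real.pi) := fun θ => by
    simp only [hg]; rw [D.hper, D.kper]
  have hg0 : ∀ θ, 0 ≤ g θ := fun θ => by have := D.hk_le θ; simp only [hg]; linarith
  set q : ℝ → ℝ := fun θ => g θ ^ 2 / k θ with hq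
  have cq : Continuous q := (cg.pow 2).div ck hk0
  have pq : Function.Periodic q (2 * Real.pi) := fun θ => by
    simp only [hq]; rw [pg, D.kper]
  have cbet : ∀ {a b : ℝ → ℝ}, Continuous a → Continuous b → Continuous (bet t a b) := by
    intro a b ha hb; unfold bet; fun_prop
  -- the identity
  have e1 : II (bet t g g) + 2 * II (bet t k g) =
      4 * (1 - Real.cos t) * Real.pi - 4 * (1 - Real.cos t) * II h +
        (II (bet t h h) - II (bet t k k)) := by
    have e2 : II (fun θ => bet t g g θ + 2 * bet t k g θ) =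
        II (fun θ => ((2 - 2 * Real.cos t) - 2 * (1 - Real.cos t) * (h θ + h (θ + t))) +
          (bet t h h θ - bet t k k θ)) := by
      congr 1
      funext θ
      simp only [bet, hg]
      ring
    have cc : Continuous (fun θ => bet t h h θ - bet t k k θ) := (cbet ch ch).sub (cbet ck ck)
    have cc2 : Continuous (fun θ => 2 * bet t k g θ) := continuous_const.mul (cbet ck cg)
    rw [II_add (cbet cg cg) cc2, II_mul,
      II_add (by fun_prop) cc, II_sub (cbet ch ch) (cbet ck ck),
      II_sub (by fun_prop) (by fun_prop), II_mul, II_add ch (by fun_prop), II_shift D.hper,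
      II_const] at e2
    linarith
  -- first estimate
  have i2 : II (bet t k g) ≤ 3 * t * (2 * (1 - Real.cos t) * II k) := by
    rw [II_bet ck cg D.kper pg]
    exact D.int_delta ht0 ht cg fun θ hθ => hθ
  -- second estimate
  have i3 : II (bet t k q) ≤ 9 * t ^ 2 / ρ * (2 * (1 - Real.cos t) * II k) := by
    rw [II_bet ck cq D.kper pq]
    refine D.int_delta ht0 ht cq fun θ hθ => ?_
    have h1 : g θ ^ 2 ≤ 9 * t ^ 2 := by
      have h2 : g θ ≤ 3 * t := hθ
      nlinarith [hg0 θ]
    have h3 := D.k_ge θ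
    have h4 := D.ρpos
    calc q θ = g θ ^ 2 / k θ := rfl
      _ ≤ 9 * t ^ 2 / ρ := div_le_div₀ (by positivity) h1 h4 h3
  have i3' : II (bet t g g) = II (bet t k q) -
      II (fun θ => k θ * k (θ + t) * (g θ / k θ - g (θ + t) / k (θ + t)) ^ 2) := by
    rw [← II_sub (cbet ck cq)]
    · congr 1
      funext θ
      have h1 := hk0 θ
      have h2 := hk0 (θ + t)
      simp only [bet, hq]
      field_simp
      ring
    · have : Continuous fun θ => g θ / k θ := cg.div ck hk0
      have h2 : Continuous fun θ => g (θ + t) / k (θ + t) :=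
        this.comp (continuous_id.add continuous_const)
      fun_prop
  -- third estimate
  have i4 : II (bet t k k) ≤ II (bet t h h) := by
    set h' : ℝ → ℝ := fun θ => h (θ + Real.pi) with hh'
    have ch' : Continuous h' := by fun_prop
    have ph' : Function.Periodic h' (2 * Real.pi) := fun θ => by
      simp only [hh']
      rw [show θ + 2 * Real.pi + Real.pi = θ + Real.pi + 2 * Real.pi by ring, D.hper]
    have h1 : II (bet t h h) = II (bet t h' h') := by
      have h2 : bet t h' h' = fun θ => bet t h h (θ + Real.pi) := by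
        funext θ
        simp only [bet, hh', show θ + t + Real.pi = θ + Real.pi + t by ring]
      rw [h2, II_shift]
      intro θ
      simp only [bet]
      rw [show θ + 2 * Real.pi + t = θ + t + 2 * Real.pi by ring, D.hper, D.hper]
    rw [h1, ← sub_nonneg, ← II_sub (cbet ch' ch') (cbet ck ck)]
    have h3 : (fun θ => bet t h' h' θ - bet t k k θ) =
        bet t (fun θ => h' θ + k θ) (fun θ => h' θ - k θ) := by
      funext θ
      simp only [bet]
      ring
    rw [h3, II_bet (by fun_prop) (by fun_prop) (fun θ => by simp only [ph' θ, D.kper θ])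
      (fun θ => by simp only [ph' θ, D.kper θ])]
    refine II_nonneg fun θ => mul_nonneg ?_ (by simp only [hh']; linarith [hkh θ])
    have h5 := D.hk.conv D.neW ht0 ht θ
    have h6 := D.hh.conv D.ne ht0 ht (θ + Real.pi)
    simp only [hh']
    rw [show θ + t + Real.pi = θ + Real.pi + t by ring,
      show θ - t + Real.pi = θ + Real.pi - t by ring]
    linarith
  have h7 : (9 * t ^ 2 / ρ + 6 * t) * (2 * (1 - Real.cos t) * II k) =
      9 * t ^ 2 / ρ * (2 * (1 - Real.cos t) * II k) +
        2 * (3 * t * (2 * (1 - Real.cos t) * II k)) := by ring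
  rw [h7]
  linarith

end Dat

end Pool.Agent.W561.Sallee
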