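import Mathlib

set_option autoImplicit false

/-!
# Closed curves with maximal chords
-/

namespace Pool.Agent.W561.Sallee

open Set

variable {E : Type*} [NormedAddCommGroup E] [InnerProductSpace ℝ E]

/-- `x` is `1`-Lipschitz. -/
def Lip1 (x : ℝ → E) : Prop := ∀ s t, ‖x s - x t‖ ≤ |s - t|

omit [InnerProductSpace ℝ E] in
lemma Lip1.continuous {x : ℝ → E} (hx : Lip1 x) : Continuous x := by
  have : LipschitzWith 1 x := LipschitzWith.of_dist_le_mul fun s t => by
    rw [dist_eq_norm, Real.dist_eq, NNReal.coe_one, one_mul]; exact hx s t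
  exact this.continuous

/-- the chords of `x` cannot be increased -/
def ChordMax (L : ℝ) (x : ℝ → E) : Prop :=
  ∀ y : ℝ → E, Lip1 y → Function.Periodic y L → (∀ s t, ‖x s - x t‖ ≤ ‖y s - y t‖) →
    ∀ s t, ‖y s - y t‖ = ‖x s - x t‖

omit [InnerProductSpace ℝ E] in
lemma bdd_of_periodic {x : ℝ → E} (hx : Lip1 x) {L : ℝ} (hL : 0 < L)
    (px : Function.Periodic x L) (s t : ℝ) : ‖x s - x t‖ ≤ L := by
  obtain ⟨s', hs', e⟩ := px.exists_mem_Ico₀ hL s
  obtain ⟨t', ht', e'⟩ := px.exists_mem_Ico₀ hL t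
  rw [e, e']
  refine (hx s' t').trans (abs_le.2 ⟨by linarith [hs'.1, ht'.2], by linarith [hs'.2, ht'.1]⟩)

theorem exists_chordMax [FiniteDimensional ℝ E] {c : ℝ → E} (hc : Lip1 c) {L : ℝ} (hL : 0 < L)
    (pc : Function.Periodic c L) :
    ∃ x : ℝ → E, Lip1 x ∧ Function.Periodic x L ∧ (∀ s t, ‖c s - c t‖ ≤ ‖x s - x t‖) ∧
      ChordMax L x := by
  classical
  set X : Set (ℝ → E) := {x | x 0 = 0 ∧ (∀ s t, ‖x s - x t‖ ≤ |s - t|) ∧
    (∀ s, x (s + L) = x s) ∧ (∀ s t, ‖c s - c t‖ ≤ ‖x s - x t‖)} with hX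
  have hXc : IsCompact X := by
    have h1 : IsCompact (Set.pi univ fun s : ℝ => Metric.closedBall (0 : E) |s|) :=
      isCompact_univ_pi fun s => isCompact_closedBall _ _
    refine h1.of_isClosed_subset ?_ ?_
    · have c1 : IsClosed {x : ℝ → E | ∀ s t, ‖x s - x t‖ ≤ |s - t|} := by
        simp only [Set.ofPred_forall]
        exact isClosed_iInter fun s => isClosed_iInter fun t =>
          isClosed_le (by fun_prop) continuous_const
      have c2 : IsClosed {x : ℝ → E | ∀ s, x (s + L) = x s} := by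
        simp only [Set.ofPred_forall]
        exact isClosed_iInter fun s => isClosed_eq (continuous_apply _) (continuous_apply s)
      have c3 : IsClosed {x : ℝ → E | ∀ s t, ‖c s - c t‖ ≤ ‖x s - x t‖} := by
        simp only [Set.ofPred_forall]
        exact isClosed_iInter fun s => isClosed_iInter fun t =>
          isClosed_le continuous_const (by fun_prop)
      exact (isClosed_eq (continuous_apply 0) continuous_const).inter (c1.inter (c2.inter c3))
    · rintro x ⟨h0, hl, -, -⟩ s -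
      have := hl s 0
      rw [h0, sub_zero, sub_zero] at this
      simpa using this
  have hXne : X.Nonempty := by
    refine ⟨fun s => c s - c 0, sub_self _, fun s t => ?_, fun s => ?_, fun s t => ?_⟩
    · simp only [sub_sub_sub_cancel_right]; exact hc s t
    · simp only [pc s]
    · simp only [sub_sub_sub_cancel_right]; exact le_rfl
  set D : ℕ → ℝ × ℝ := TopologicalSpace.denseSeq (ℝ × ℝ) with hD
  set F : (ℝ → E) → ℝ := fun x => ∑' n : ℕ, (1 / 2 : ℝ) ^ n * ‖x (D n).1 - x (D n).2‖ with hF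
  have hsum0 : Summable fun n : ℕ => (1 / 2 : ℝ) ^ n * L :=
    (summable_geometric_of_lt_one (by norm_num) (by norm_num)).mul_right L
  have hbd : ∀ x ∈ X, ∀ n : ℕ, (1 / 2 : ℝ) ^ n * ‖x (D n).1 - x (D n).2‖ ≤ (1 / 2 : ℝ) ^ n * L :=
    fun x hx n => mul_le_mul_of_nonneg_left (bdd_of_periodic hx.2.1 hL hx.2.2.1 _ _) (by positivity)
  have hsum : ∀ x ∈ X, Summable fun n : ℕ => (1 / 2 : ℝ) ^ n * ‖x (D n).1 - x (D n).2‖ :=
    fun x hx => hsum0.of_nonneg_of_le (fun n => by positivity) (hbd x hx)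
  have hFc : ContinuousOn F X := by
    refine continuousOn_tsum (fun n => ?_) hsum0 fun n x hx => ?_
    · have : Continuous fun x : ℝ → E => (1 / 2 : ℝ) ^ n * ‖x (D n).1 - x (D n).2‖ := by
        fun_prop
      exact this.continuousOn
    · rw [Real.norm_of_nonneg (by positivity)]
      exact hbd x hx n
  obtain ⟨x, hxX, hxmax⟩ := hXc.exists_isMaxOn hXne hFc
  refine ⟨x, hxX.2.1, hxX.2.2.1, hxX.2.2.2, fun y hy py hxy => ?_⟩
  set y' : ℝ → E := fun s => y s - y 0 with hy'
  have hy'X : y' ∈ X := by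
    refine ⟨sub_self _, fun s t => ?_, fun s => ?_, fun s t => ?_⟩
    · simp only [hy', sub_sub_sub_cancel_right]; exact hy s t
    · simp only [hy', py s]
    · simp only [hy', sub_sub_sub_cancel_right]; exact (hxX.2.2.2 s t).trans (hxy s t)
  have hyn : ∀ s t, ‖y' s - y' t‖ = ‖y s - y t‖ := fun s t => by
    simp only [hy', sub_sub_sub_cancel_right]
  have heq : ∀ n, ‖y (D n).1 - y (D n).2‖ = ‖x (D n).1 - x (D n).2‖ := by
    intro n
    by_contra hne
    have hlt : ‖x (D n).1 - x (D n).2‖ < ‖y (D n).1 - y (D n).2‖ :=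
      lt_of_le_of_ne (hxy _ _) (Ne.symm hne)
    have h1 : F x < F y' := by
      refine Summable.tsum_lt_tsum (i := n) (fun i => ?_) ?_ (hsum x hxX) (hsum y' hy'X)
      · simp only [hyn]
        exact mul_le_mul_of_nonneg_left (hxy _ _) (by positivity)
      · simp only [hyn]
        exact mul_lt_mul_of_pos_left hlt (by positivity)
    exact absurd (hxmax hy'X) (not_le.2 h1)
  have hcy := hy.continuous
  have hcx : Continuous x := Lip1.continuous hxX.2.1
  have hfun : (fun p : ℝ × ℝ => ‖y p.1 - y p.2‖) = fun p : ℝ × ℝ => ‖x p.1 - x p.2‖ := by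
    refine (TopologicalSpace.denseRange_denseSeq (ℝ × ℝ)).equalizer (by fun_prop)
      (by fun_prop) (funext fun n => heq n)
  intro s t
  exact congrFun hfun (s, t)

/-- `s` is a parameter where the linear functional `v` is maximal. -/
def MaxAt (x : ℝ → E) (v : E) (s : ℝ) : Prop := ∀ r, inner ℝ (x r) v ≤ inner ℝ (x s) v

lemma norm_refl {v : E} (hv : ‖v‖ = 1) (d : E) : ‖d - (2 * inner ℝ d v) • v‖ = ‖d‖ := by
  have h : ‖d - (2 * inner ℝ d v) • v‖ ^ 2 = ‖d‖ ^ 2 := by
    rw [norm_sub_sq_real, norm_smul, inner_smul_right, hv, Real.norm_eq_abs, mul_one, sq_abs]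
    ring
  have h2 := (sq_eq_sq₀ (norm_nonneg _) (norm_nonneg _)).1 h
  exact h2

theorem maxAt_conn_unit {x : ℝ → E} (hx : Lip1 x) {L : ℝ} (hL : 0 < L)
    (px : Function.Periodic x L) (hmax : ChordMax L x) {v : E} (hv : ‖v‖ = 1) {z1 z2 s t : ℝ}
    (h1 : MaxAt x v z1) (h2 : MaxAt x v z2) (hs1 : z1 < s) (hs2 : s < z2) (ht1 : z2 < t)
    (ht2 : t < z1 + L) : MaxAt x v s ∨ MaxAt x v t := by
  classical
  set m : ℝ := inner ℝ (x z1) v with hm
  have hm2 : inner ℝ (x z2) v = m := le_antisymm (h1 z2) (h2 z1)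
  set a : ℝ → ℝ := fun r => m - inner ℝ (x r) v with ha
  have ha0 : ∀ r, 0 ≤ a r := fun r => sub_nonneg.2 (h1 r)
  set S : Set ℝ := {r | ∃ k : ℤ, z1 + k * L ≤ r ∧ r ≤ z2 + k * L} with hS
  set y : ℝ → E := fun r => if r ∈ S then x r + (2 * a r) • v else x r with hy
  have hyS : ∀ r ∈ S, y r = x r + (2 * a r) • v := fun r hr => by simp only [hy, if_pos hr]
  have hyN : ∀ r ∉ S, y r = x r := fun r hr => by simp only [hy, if_neg hr]
  -- points in the hyperplane
  have hk1 : ∀ k : ℤ, a (z1 + k * L) = 0 := fun k => by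
    simp only [ha, px.int_mul k z1, hm, sub_self]
  have hk2 : ∀ k : ℤ, a (z2 + k * L) = 0 := fun k => by
    simp only [ha, px.int_mul k z2, hm2, sub_self]
  have hbet : ∀ r ∈ S, ∀ r' ∉ S, ∃ r0, a r0 = 0 ∧ |r - r0| + |r0 - r'| = |r - r'| := by
    rintro r ⟨k, hk, hk'⟩ r' hr'
    by_cases h : r' < z1 + k * L
    · refine ⟨z1 + k * L, hk1 k, ?_⟩
      rw [abs_of_nonneg (by linarith), abs_of_nonneg (by linarith), abs_of_nonneg (by linarith)]
      ring
    · push Not at h
      have h3 : z2 + k * L < r' := by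
        by_contra h4
        push Not at h4
        exact hr' ⟨k, h, h4⟩
      refine ⟨z2 + k * L, hk2 k, ?_⟩
      rw [abs_of_nonpos (by linarith), abs_of_nonpos (by linarith), abs_of_nonpos (by linarith)]
      ring
  have hmix : ∀ r ∈ S, ∀ r' ∉ S, ‖y r - y r'‖ ≤ |r - r'| := by
    intro r hr r' hr'
    obtain ⟨r0, h0, h3⟩ := hbet r hr r' hr'
    rw [hyS r hr, hyN r' hr', ← h3]
    have e : x r + (2 * a r) • v - x r' =
        ((x r - x r0) - (2 * inner ℝ (x r - x r0) v) • v) + (x r0 - x r') := by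
      have : a r = - inner ℝ (x r - x r0) v := by
        rw [inner_sub_left]
        have h4 : m = inner ℝ (x r0) v := by
          have : m - inner ℝ (x r0) v = 0 := h0
          linarith
        simp only [ha]
        rw [h4]; ring
      rw [this]
      simp only [mul_neg, neg_smul]
      abel
    rw [e]
    refine (norm_add_le _ _).trans (add_le_add ?_ (hx r0 r'))
    rw [norm_refl hv]
    exact hx r r0
  have hyL : Lip1 y := by
    intro r r'
    by_cases hr : r ∈ S <;> by_cases hr' : r' ∈ S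
    · rw [hyS r hr, hyS r' hr']
      have e : x r + (2 * a r) • v - (x r' + (2 * a r') • v) =
          (x r - x r') - (2 * inner ℝ (x r - x r') v) • v := by
        have : a r = a r' - inner ℝ (x r - x r') v := by
          rw [inner_sub_left]; simp only [ha]; ring
        rw [this, mul_sub, sub_smul]
        abel
      rw [e, norm_refl hv]
      exact hx r r'
    · exact hmix r hr r' hr'
    · rw [norm_sub_rev, abs_sub_comm]; exact hmix r' hr' r hr
    · rw [hyN r hr, hyN r' hr']; exact hx r r'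
  have hSp : ∀ r, r + L ∈ S ↔ r ∈ S := by
    intro r
    constructor
    · rintro ⟨k, hk, hk'⟩
      refine ⟨k - 1, ?_, ?_⟩ <;> push_cast <;> linarith
    · rintro ⟨k, hk, hk'⟩
      refine ⟨k + 1, ?_, ?_⟩ <;> push_cast <;> linarith
  have hyp : Function.Periodic y L := by
    intro r
    by_cases hr : r ∈ S
    · rw [hyS r hr, hyS _ ((hSp r).2 hr)]
      simp only [ha, px r]
    · rw [hyN r hr, hyN _ (fun h => hr ((hSp r).1 h)), px r]
  have hsq : ∀ r ∈ S, ∀ r' ∉ S, ‖y r - y r'‖ ^ 2 = ‖x r - x r'‖ ^ 2 + 4 * a r * a r' := by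
    intro r hr r' hr'
    rw [hyS r hr, hyN r' hr', show x r + (2 * a r) • v - x r' = (x r - x r') + (2 * a r) • v by abel,
      norm_add_sq_real, norm_smul, inner_smul_right, hv, Real.norm_eq_abs, mul_one, sq_abs,
      inner_sub_left]
    simp only [ha]
    ring
  have hge : ∀ r r', ‖x r - x r'‖ ≤ ‖y r - y r'‖ := by
    intro r r'
    by_cases hr : r ∈ S <;> by_cases hr' : r' ∈ S
    · rw [hyS r hr, hyS r' hr']
      have e : x r + (2 * a r) • v - (x r' + (2 * a r') • v) =
          (x r - x r') - (2 * inner ℝ (x r - x r') v) • v := by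
        have : a r = a r' - inner ℝ (x r - x r') v := by
          rw [inner_sub_left]; simp only [ha]; ring
        rw [this, mul_sub, sub_smul]
        abel
      rw [e, norm_refl hv]
    · apply le_of_sq_le_sq _ (norm_nonneg _)
      rw [hsq r hr r' hr']
      have := mul_nonneg (ha0 r) (ha0 r')
      linarith
    · rw [norm_sub_rev (x r), norm_sub_rev (y r)]
      apply le_of_sq_le_sq _ (norm_nonneg _)
      rw [hsq r' hr' r hr]
      have := mul_nonneg (ha0 r) (ha0 r')
      linarith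
    · rw [hyN r hr, hyN r' hr']
  have hsS : s ∈ S := ⟨0, by simp; exact hs1.le, by simp; exact hs2.le⟩
  have htS : t ∉ S := by
    rintro ⟨k, hk, hk'⟩
    rcases le_or_gt k 0 with h | h
    · have : (k : ℝ) * L ≤ 0 := mul_nonpos_of_nonpos_of_nonneg (by exact_mod_cast h) hL.le
      linarith
    · have : (1 : ℝ) * L ≤ k * L := mul_le_mul_of_nonneg_right (by exact_mod_cast h) hL.le
      linarith
  have h3 := hmax y hyL hyp hge s t
  have h4 := hsq s hsS t htS
  rw [h3] at h4
  have h5 : a s * a t = 0 := by linarith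
  rcases mul_eq_zero.1 h5 with h | h
  · left
    intro r
    have h6 := h1 r
    have h7 : m - inner ℝ (x s) v = 0 := h
    linarith
  · right
    intro r
    have h6 := h1 r
    have h7 : m - inner ℝ (x t) v = 0 := h
    linarith

theorem maxAt_conn {x : ℝ → E} (hx : Lip1 x) {L : ℝ} (hL : 0 < L)
    (px : Function.Periodic x L) (hmax : ChordMax L x) {v : E} {z1 z2 s t : ℝ}
    (h1 : MaxAt x v z1) (h2 : MaxAt x v z2) (hs1 : z1 < s) (hs2 : s < z2) (ht1 : z2 < t)
    (ht2 : t < z1 + L) : MaxAt x v s ∨ MaxAt x v t := by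
  by_cases hv : v = 0
  · left; intro r; simp [hv]
  have hn : 0 < ‖v‖ := norm_pos_iff.2 hv
  have hsc : ∀ z, MaxAt x (‖v‖⁻¹ • v) z ↔ MaxAt x v z := by
    intro z
    unfold MaxAt
    simp only [inner_smul_right]
    constructor
    · intro h r
      exact le_of_mul_le_mul_left (h r) (inv_pos.2 hn)
    · intro h r
      exact mul_le_mul_of_nonneg_left (h r) (inv_pos.2 hn).le
  have hu : ‖‖v‖⁻¹ • v‖ = 1 := by
    rw [norm_smul, norm_inv, norm_norm, inv_mul_cancel₀ hn.ne']
  have := maxAt_conn_unit hx hL px hmax hu ((hsc z1).2 h1) ((hsc z2).2 h2) hs1 hs2 ht1 ht2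
  rwa [hsc, hsc] at this

end Pool.Agent.W561.Sallee
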