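import Pool.Agent.W561.Sallee.Ineq

set_option autoImplicit false

/-!
# The inequality and its equality case for plane sets
-/

namespace Pool.Agent.W561.Sallee

open Set MeasureTheory intervalIntegral

lemma cos_one_lt : Real.cos 1 < 1 := by
  have := Real.cos_lt_cos_of_nonneg_of_le_pi (x := 0) (y := 1) le_rfl
    (by linarith [Real.pi_gt_three]) (by norm_num)
  simpa using this

lemma one_sub_cos_pos {t : ℝ} (h0 : 0 < t) (h1 : t ≤ 1) : 0 < 1 - Real.cos t := by
  have := Real.cos_lt_cos_of_nonneg_of_le_pi (x := 0) (y := t) le_rfl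
    (by linarith [Real.pi_gt_three]) h0
  simp at this
  linarith

/-- A continuous periodic function with `∫ (G - G(· + t))² ≤ K t³` for small `t` is constant. -/
lemma const_of_cube {G : ℝ → ℝ} (cG : Continuous G) (pG : Function.Periodic G (2 * Real.pi))
    {K : ℝ} (h : ∀ t, 0 < t → t ≤ 1 → II (fun θ => (G θ - G (θ + t)) ^ 2) ≤ K * t ^ 3)
    (x y : ℝ) : G x = G y := by
  -- every step of length at most one
  have hJ : ∀ t, 0 < t → t ≤ 1 → ∀ θ, G θ = G (θ + t) := by
    intro τ hτ0 hτ1 θ
    have hle : ∀ n : ℕ, 0 < n → II (fun θ => (G θ - G (θ + τ)) ^ 2) ≤ K * τ ^ 3 / n := by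
      intro n hn
      have hn' : (0 : ℝ) < n := Nat.cast_pos.2 hn
      have hn1 : (1 : ℝ) ≤ n := Nat.one_le_cast.2 hn
      set t := τ / n with ht
      have ht0 : 0 < t := div_pos hτ0 hn'
      have ht1 : t ≤ 1 := (div_le_self hτ0.le hn1).trans hτ1
      have hp : ∀ θ, (G θ - G (θ + τ)) ^ 2 ≤
          n * ∑ j ∈ Finset.range n, (G (θ + j * t) - G (θ + j * t + t)) ^ 2 := by
        intro θ
        have h1 := Finset.sum_range_sub' (fun j : ℕ => G (θ + j * t)) n
        have h2 : (n : ℝ) * t = τ := by rw [ht]; field_simp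
        simp only [Nat.cast_zero, zero_mul, add_zero, h2] at h1
        rw [← h1]
        have h3 := sq_sum_le_card_mul_sum_sq (s := Finset.range n)
          (f := fun j : ℕ => G (θ + j * t) - G (θ + (j + 1 : ℕ) * t))
        rw [Finset.card_range] at h3
        refine h3.trans (le_of_eq ?_)
        congr 1
        refine Finset.sum_congr rfl fun j _ => ?_
        rw [show θ + (j + 1 : ℕ) * t = θ + j * t + t by push_cast; ring]
      have h4 : II (fun θ => (n : ℝ) * ∑ j ∈ Finset.range n,
          (G (θ + j * t) - G (θ + j * t + t)) ^ 2) ≤ K * τ ^ 3 / n := by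
        rw [II_mul]
        have h5 : II (fun θ => ∑ j ∈ Finset.range n, (G (θ + j * t) - G (θ + j * t + t)) ^ 2) =
            ∑ j ∈ Finset.range n, II (fun θ => (G (θ + j * t) - G (θ + j * t + t)) ^ 2) :=
          intervalIntegral.integral_finsetSum fun j _ =>
            Continuous.intervalIntegrable (by fun_prop) _ _
        have h6 : ∀ j ∈ Finset.range n, II (fun θ => (G (θ + j * t) - G (θ + j * t + t)) ^ 2) ≤
            K * t ^ 3 := by
          intro j _
          have h7 := II_shift (F := fun θ => (G θ - G (θ + t)) ^ 2) (fun θ => by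
            simp only
            rw [show θ + 2 * Real.pi + t = θ + t + 2 * Real.pi by ring, pG, pG]) (j * t)
          rw [h7]
          exact h t ht0 ht1
        rw [h5]
        have h8 := Finset.sum_le_sum h6
        rw [Finset.sum_const, Finset.card_range, nsmul_eq_mul] at h8
        have h9 := mul_le_mul_of_nonneg_left h8 hn'.le
        refine h9.trans (le_of_eq ?_)
        rw [ht]
        field_simp
      exact (II_mono (by fun_prop) (by fun_prop) hp).trans h4
    have h0 : II (fun θ => (G θ - G (θ + τ)) ^ 2) ≤ 0 := by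
      have hlim : Filter.Tendsto (fun n : ℕ => K * τ ^ 3 / n) Filter.atTop (nhds 0) :=
        tendsto_const_div_atTop_nhds_zero_nat _
      refine ge_of_tendsto hlim ?_
      filter_upwards [Filter.eventually_gt_atTop 0] with n hn
      exact hle n hn
    have h1 := II_eq_zero (F := fun θ => (G θ - G (θ + τ)) ^ 2) (by fun_prop) (fun θ => by
      simp only
      rw [show θ + 2 * Real.pi + τ = θ + τ + 2 * Real.pi by ring, pG, pG])
      (fun θ => sq_nonneg _) h0 θ
    have h2 := pow_eq_zero_iff (two_ne_zero) |>.1 h1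
    linarith
  have hmul : ∀ (n : ℕ) (t : ℝ), 0 < t → t ≤ 1 → ∀ θ, G θ = G (θ + n * t) := by
    intro n t h0 h1
    induction n with
    | zero => intro θ; simp
    | succ n ih =>
      intro θ
      rw [ih θ, hJ t h0 h1 (θ + n * t)]
      congr 1
      push_cast; ring
  have key : ∀ x y : ℝ, x < y → G x = G y := by
    intro x y hxy
    obtain ⟨n, hn⟩ := exists_nat_gt (y - x)
    have hn' : (0 : ℝ) < n := lt_trans (by linarith) hn
    have := hmul n ((y - x) / n) (div_pos (by linarith) hn')
      ((div_le_one hn').2 hn.le) x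
    rw [this]
    congr 1
    field_simp
    ring
  rcases lt_trichotomy x y with h | h | h
  · exact key x y h
  · rw [h]
  · exact (key y x h).symm

namespace Dat

variable {C : Set ℂ} {h k : ℝ → ℝ} {ρ : ℝ} (D : Dat C h k ρ)
include D

lemma IIk_pos : 0 < II k := by
  have h1 : II (fun _ => ρ) ≤ II k := II_mono continuous_const D.kcont D.k_ge
  rw [II_const] at h1
  have := mul_pos Real.two_pi_pos D.ρpos
  linarith

/-- the perimeter of the hull is at least `π` -/
theorem pi_le (hkh : ∀ θ, k θ ≤ h (θ + Real.pi)) : Real.pi ≤ II h := by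
  by_contra hlt
  push Not at hlt
  set δ := Real.pi - II h with hδ
  have hδ0 : 0 < δ := by linarith
  have hρ := D.ρpos
  have hIk := D.IIk_pos
  set M := (9 / ρ + 6) * II k with hM
  have hM0 : 0 < M := by positivity
  set t := min 1 (δ / M) with ht
  have ht0 : 0 < t := lt_min one_pos (div_pos hδ0 hM0)
  have ht1 : t ≤ 1 := min_le_left _ _
  have htM : t * M ≤ δ := by rw [← le_div_iff₀ hM0]; exact min_le_right _ _
  have h1 := D.ineq ht0 (by linarith [Real.pi_gt_three]) hkh
  have h2 : 0 ≤ II (fun θ => k θ * k (θ + t) *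
      ((1 - h θ - k θ) / k θ - (1 - h (θ + t) - k (θ + t)) / k (θ + t)) ^ 2) :=
    II_nonneg fun θ => mul_nonneg (mul_pos (D.k_pos _) (D.k_pos _)).le (sq_nonneg _)
  have hc := one_sub_cos_pos ht0 ht1
  have h3 : 9 * t ^ 2 / ρ + 6 * t ≤ t * (9 / ρ + 6) := by
    have : 9 * t ^ 2 / ρ = t * (t * (9 / ρ)) := by ring
    rw [this]
    have h4 : t * (9 / ρ) ≤ 1 * (9 / ρ) := mul_le_mul_of_nonneg_right ht1 (by positivity)
    nlinarith
  have h4 : (9 * t ^ 2 / ρ + 6 * t) * (2 * (1 - Real.cos t) * II k) ≤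
      (t * (9 / ρ + 6)) * (2 * (1 - Real.cos t) * II k) :=
    mul_le_mul_of_nonneg_right h3 (by positivity)
  have h5 : (t * (9 / ρ + 6)) * (2 * (1 - Real.cos t) * II k) =
      (2 * (1 - Real.cos t)) * (t * M) := by rw [hM]; ring
  have h6 : (2 * (1 - Real.cos t)) * (t * M) ≤ (2 * (1 - Real.cos t)) * δ :=
    mul_le_mul_of_nonneg_left htM (by positivity)
  have h7 : 4 * (1 - Real.cos t) * (II h - Real.pi) = - (4 * (1 - Real.cos t) * δ) := by
    rw [hδ]; ring
  have h8 : 0 < (1 - Real.cos t) * δ := mul_pos hc hδ0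
  nlinarith

/-- the equality case: constant width one -/
theorem width_of_eq (hkh : ∀ θ, k θ ≤ h (θ + Real.pi)) (heq : II h = Real.pi) (θ : ℝ) :
    h θ + h (θ + Real.pi) = 1 := by
  have hρ := D.ρpos
  have hIk := D.IIk_pos
  have ck := D.kcont
  have ch := D.hcont
  have hk0 : ∀ θ, k θ ≠ 0 := fun θ => (D.k_pos θ).ne'
  set G : ℝ → ℝ := fun θ => (1 - h θ - k θ) / k θ with hG
  have cG : Continuous G := ((continuous_const.sub ch).sub ck).div ck hk0
  have pG : Function.Periodic G (2 * Real.pi) := fun θ => by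
    simp only [hG]; rw [D.kper, D.hper]
  set M := (9 / ρ + 6) * II k with hM
  have hcube : ∀ t, 0 < t → t ≤ 1 → II (fun θ => (G θ - G (θ + t)) ^ 2) ≤ (M / ρ ^ 2) * t ^ 3 := by
    intro t ht0 ht1
    have h1 := D.ineq ht0 (by linarith [Real.pi_gt_three]) hkh
    rw [heq, sub_self, mul_zero] at h1
    have hc : 1 - Real.cos t ≤ t ^ 2 / 2 := by
      have := Real.one_sub_sq_div_two_le_cos (x := t)
      linarith
    have h3 : 9 * t ^ 2 / ρ + 6 * t ≤ t * (9 / ρ + 6) := by
      have : 9 * t ^ 2 / ρ = t * (t * (9 / ρ)) := by ring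
      rw [this]
      have h4 : t * (9 / ρ) ≤ 1 * (9 / ρ) := mul_le_mul_of_nonneg_right ht1 (by positivity)
      nlinarith
    have hc0 := (one_sub_cos_pos ht0 ht1).le
    have h4 : (9 * t ^ 2 / ρ + 6 * t) * (2 * (1 - Real.cos t) * II k) ≤
        (t * (9 / ρ + 6)) * (t ^ 2 * II k) := by
      apply mul_le_mul h3 _ (by positivity) (by positivity)
      apply mul_le_mul_of_nonneg_right _ hIk.le
      linarith
    have h5 : (t * (9 / ρ + 6)) * (t ^ 2 * II k) = M * t ^ 3 := by rw [hM]; ring
    have h6 : ρ ^ 2 * II (fun θ => (G θ - G (θ + t)) ^ 2) ≤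
        II (fun θ => k θ * k (θ + t) *
      ((1 - h θ - k θ) / k θ - (1 - h (θ + t) - k (θ + t)) / k (θ + t)) ^ 2) := by
      rw [← II_mul]
      refine II_mono (by fun_prop) ?_ fun θ => ?_
      · have h7 : Continuous fun θ => k θ * k (θ + t) * (G θ - G (θ + t)) ^ 2 := by fun_prop
        exact h7
      · have h8 : ρ ^ 2 ≤ k θ * k (θ + t) := by
          rw [sq]
          exact mul_le_mul (D.k_ge _) (D.k_ge _) hρ.le (D.k_pos _).le
        exact mul_le_mul_of_nonneg_right h8 (sq_nonneg _)
    rw [div_mul_eq_mul_div, le_div_iff₀ (by positivity)]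
    linarith
  have hconst := const_of_cube cG pG hcube
  -- `g` vanishes
  have hg : ∀ θ, 1 - h θ - k θ = 0 := by
    intro θ1
    by_contra hne
    have h0 : 0 ≤ 1 - h θ1 - k θ1 := by have := D.hk_le θ1; linarith
    have h1 : 0 < 1 - h θ1 - k θ1 := lt_of_le_of_ne h0 (Ne.symm hne)
    have h2 : ∀ φ, 0 < 1 - h φ - k φ := by
      intro φ
      have h3 : 0 < G φ := by
        rw [hconst φ θ1]
        exact div_pos h1 (D.k_pos _)
      have h4 : 1 - h φ - k φ = G φ * k φ := by
        simp only [hG]; rw [div_mul_cancel₀ _ (hk0 φ)]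
      rw [h4]
      exact mul_pos h3 (D.k_pos _)
    have h5 : ∀ φ, k (φ + 1) + k (φ - 1) ≤ 2 * Real.cos 1 * k φ := fun φ =>
      D.wulff one_pos (by linarith [Real.pi_gt_three]) fun x _ => h2 x
    have h6 : II (fun φ => k (φ + 1) + k (φ - 1)) ≤ II (fun φ => 2 * Real.cos 1 * k φ) :=
      II_mono (by fun_prop) (by fun_prop) h5
    rw [II_add (by fun_prop) (by fun_prop), II_shift D.kper, II_mul] at h6
    have h7 := II_shift D.kper (-1)
    simp only [← sub_eq_add_neg] at h7
    rw [h7] at h6
    have := cos_one_lt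
    nlinarith
  have hk1 : ∀ θ, k θ = 1 - h θ := fun θ => by have := hg θ; linarith
  have h1 : II (fun θ => h (θ + Real.pi) - k θ) = 0 := by
    rw [II_sub (by fun_prop) ck, II_shift D.hper]
    have : II k = II (fun θ => 1 - h θ) := by congr 1; funext θ; exact hk1 θ
    rw [this, II_sub continuous_const ch, II_const, heq]
    ring
  have h2 := II_eq_zero (F := fun θ => h (θ + Real.pi) - k θ) (by fun_prop)
    (fun θ => by
      simp only
      rw [show θ + 2 * Real.pi + Real.pi = θ + Real.pi + 2 * Real.pi by ring, D.hper, D.kper])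
    (fun θ => by have := hkh θ; linarith) h1.le θ
  have h3 := hk1 θ
  linarith

end Dat

end Pool.Agent.W561.Sallee
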