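import Pool.Agent.W561.Sallee.Hull

set_option autoImplicit false

/-!
# Rigidity in the equality case
-/

namespace Pool.Agent.W561.Sallee

open Set

lemma eq_uu_of {w : ℂ} {θ : ℝ} (h1 : ‖w‖ ≤ 1) (h2 : pr w θ = 1) : w = uu θ := by
  have h3 := norm_sq_pr w θ
  have h4 : ‖w‖ ^ 2 ≤ 1 := by nlinarith [norm_nonneg w]
  have h5 : pr w (θ + Real.pi / 2) ^ 2 ≤ 0 := by rw [h2] at h3; linarith
  have h6 : pr w (θ + Real.pi / 2) = 0 := by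
    have := le_antisymm h5 (sq_nonneg _)
    exact pow_eq_zero_iff two_ne_zero |>.1 this
  apply eq_of_pr (φ := θ)
  · rw [h2, pr_uu, sub_self, Real.cos_zero]
  · rw [h6, pr_uu, show θ - (θ + Real.pi / 2) = -(Real.pi / 2) by ring, Real.cos_neg,
      Real.cos_pi_div_two]

lemma uu_sub (θ Δ : ℝ) :
    uu (θ + Δ) - uu θ = (2 * Real.sin (Δ / 2)) • uu (θ + Δ / 2 + Real.pi / 2) := by
  apply Complex.ext
  · simp only [uu, Complex.sub_re, Complex.real_smul, Complex.mul_re, Complex.ofReal_re,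
      Complex.ofReal_im, zero_mul, sub_zero]
    rw [Real.cos_sub_cos, Real.cos_add_pi_div_two,
      show (θ + Δ + θ) / 2 = θ + Δ / 2 by ring, show (θ + Δ - θ) / 2 = Δ / 2 by ring]
    ring
  · simp only [uu, Complex.sub_im, Complex.real_smul, Complex.mul_im, Complex.ofReal_re,
      Complex.ofReal_im, zero_mul, add_zero]
    rw [Real.sin_sub_sin, Real.sin_add_pi_div_two,
      show (θ + Δ + θ) / 2 = θ + Δ / 2 by ring, show (θ + Δ - θ) / 2 = Δ / 2 by ring]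

/-- vectors in a cone of opening `Δ` -/
lemma cone {v : ℂ} {θ Δ : ℝ} (hΔ0 : 0 < Δ) (hΔ : Δ < Real.pi) (h1 : pr v θ ≤ 0)
    (h2 : 0 ≤ pr v (θ + Δ)) :
    |pr v (θ + Δ / 2)| * Real.cos (Δ / 2) ≤ pr v (θ + Δ / 2 + Real.pi / 2) * Real.sin (Δ / 2) ∧
    ‖v‖ * Real.cos (Δ / 2) ≤ pr v (θ + Δ / 2 + Real.pi / 2) ∧
    0 ≤ pr v (θ + Δ / 2 + Real.pi / 2) := by
  set μ := θ + Δ / 2 with hμ
  set a := pr v (μ + Real.pi / 2) with ha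
  set b := pr v μ with hb
  have hc : 0 < Real.cos (Δ / 2) := Real.cos_pos_of_mem_Ioo ⟨by linarith, by linarith⟩
  have hs : 0 < Real.sin (Δ / 2) := Real.sin_pos_of_pos_of_lt_pi (by linarith) (by linarith)
  have e1 : pr v θ = Real.cos (Δ / 2) * b - Real.sin (Δ / 2) * a := by
    rw [show θ = μ + -(Δ / 2) by rw [hμ]; ring, pr_add_angle, Real.cos_neg, Real.sin_neg]
    ring
  have e2 : pr v (θ + Δ) = Real.cos (Δ / 2) * b + Real.sin (Δ / 2) * a := by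
    rw [show θ + Δ = μ + Δ / 2 by rw [hμ]; ring, pr_add_angle]
  have h3 : |b| * Real.cos (Δ / 2) ≤ a * Real.sin (Δ / 2) := by
    rw [← abs_of_pos hc, ← abs_mul]
    exact abs_le.2 ⟨by linarith, by linarith⟩
  have ha0 : 0 ≤ a := by
    have : 0 ≤ a * Real.sin (Δ / 2) := le_trans (mul_nonneg (abs_nonneg b) hc.le) h3
    exact nonneg_of_mul_nonneg_left this hs
  refine ⟨h3, ?_, ha0⟩
  apply le_of_sq_le_sq _ ha0
  have h4 := norm_sq_pr v μ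
  have h5 := Real.sin_sq_add_cos_sq (Δ / 2)
  have h6 : (|b| * Real.cos (Δ / 2)) ^ 2 ≤ (a * Real.sin (Δ / 2)) ^ 2 :=
    pow_le_pow_left₀ (mul_nonneg (abs_nonneg b) hc.le) h3 2
  rw [mul_pow, mul_pow, sq_abs] at h6
  rw [mul_pow, h4]
  change (b ^ 2 + a ^ 2) * Real.cos (Δ / 2) ^ 2 ≤ a ^ 2
  have h7 : a ^ 2 * (Real.sin (Δ / 2) ^ 2 + Real.cos (Δ / 2) ^ 2) = a ^ 2 := by
    rw [h5, mul_one]
  linarith

/-- data of the equality case -/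
structure WidthOne (ξ : ℝ → ℂ) (L : ℝ) (h : ℝ → ℝ) (S : ℝ → ℝ) : Prop where
  P : PlaneCurve L ξ
  hh : IsSupp (range ξ) h
  hw : ∀ θ, h θ + h (θ + Real.pi) = 1
  hS : ∀ θ, PMax ξ θ (S θ)

namespace WidthOne

variable {ξ : ℝ → ℂ} {L : ℝ} {h : ℝ → ℝ} {S : ℝ → ℝ} (W : WidthOne ξ L h S)
include W

lemma prS (θ : ℝ) : pr (ξ (S θ)) θ = h θ := PlaneCurve.max_eq W.hh (W.hS θ)

lemma pr_le_h (s θ : ℝ) : pr (ξ s) θ ≤ h θ := W.hh.pr_le' ⟨s, rfl⟩ θ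

lemma neg_le (s θ : ℝ) : - pr (ξ s) θ ≤ h (θ + Real.pi) := by
  rw [← pr_add_pi]; exact W.pr_le_h s _

lemma diam (s t : ℝ) : ‖ξ s - ξ t‖ ≤ 1 := by
  obtain ⟨φ, hφ⟩ := exists_pr_eq (ξ s - ξ t)
  rw [← hφ, pr_sub]
  have h1 := W.pr_le_h s φ
  have h2 := W.neg_le t φ
  have h3 := W.hw φ
  linarith

lemma eq_uu {s t θ : ℝ} (h1 : pr (ξ s) θ = h θ) (h2 : pr (ξ t) (θ + Real.pi) = h (θ + Real.pi)) :
    ξ s - ξ t = uu θ := by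
  apply eq_uu_of (W.diam s t)
  rw [pr_sub, h1]
  rw [pr_add_pi] at h2
  have h3 := W.hw θ
  linarith

lemma S_sub (θ : ℝ) : ξ (S θ) - ξ (S (θ + Real.pi)) = uu θ := W.eq_uu (W.prS θ) (W.prS _)

lemma uniq {s θ : ℝ} (h1 : pr (ξ s) θ = h θ) : ξ s = ξ (S θ) := by
  have h2 := W.eq_uu h1 (W.prS (θ + Real.pi))
  rw [← W.S_sub θ] at h2
  exact sub_left_injective h2

lemma uniqM {s θ : ℝ} (h1 : PMax ξ θ s) : ξ s = ξ (S θ) := W.uniq (PlaneCurve.max_eq W.hh h1)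

lemma per2 (θ : ℝ) : ξ (S (θ + 2 * Real.pi)) = ξ (S θ) := by
  apply W.uniq
  have := W.prS (θ + 2 * Real.pi)
  rw [pr_add_two_pi, W.hh.periodic] at this
  exact this

lemma perInt (θ : ℝ) (n : ℤ) : ξ (S (θ + n * (2 * Real.pi))) = ξ (S θ) := by
  have : Function.Periodic (fun θ => ξ (S θ)) (2 * Real.pi) := fun θ => W.per2 θ
  exact this.int_mul n θ

lemma cone1 {θ Δ : ℝ} :
    pr (ξ (S (θ + Δ)) - ξ (S θ)) θ ≤ 0 ∧ 0 ≤ pr (ξ (S (θ + Δ)) - ξ (S θ)) (θ + Δ) := by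
  rw [pr_sub, pr_sub, W.prS, W.prS]
  exact ⟨by linarith [W.pr_le_h (S (θ + Δ)) θ], by linarith [W.pr_le_h (S θ) (θ + Δ)]⟩

lemma cone2 {θ Δ : ℝ} :
    pr (ξ (S (θ + Real.pi)) - ξ (S (θ + Δ + Real.pi))) θ ≤ 0 ∧
    0 ≤ pr (ξ (S (θ + Real.pi)) - ξ (S (θ + Δ + Real.pi))) (θ + Δ) := by
  have h1 := W.prS (θ + Real.pi)
  have h2 := W.prS (θ + Δ + Real.pi)
  have h3 := W.neg_le (S (θ + Δ + Real.pi)) θ
  have h4 := W.neg_le (S (θ + Real.pi)) (θ + Δ)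
  rw [pr_add_pi] at h1 h2
  rw [pr_sub, pr_sub]
  exact ⟨by linarith, by linarith⟩

/-- main estimate of the chords -/
lemma chords {θ Δ : ℝ} (hΔ0 : 0 < Δ) (hΔ : Δ < Real.pi) :
    ∃ a1 a2 : ℝ, 0 ≤ a1 ∧ 0 ≤ a2 ∧ a1 + a2 = 2 * Real.sin (Δ / 2) ∧
      ‖ξ (S (θ + Δ)) - ξ (S θ)‖ * Real.cos (Δ / 2) ≤ a1 ∧
      ‖ξ (S (θ + Real.pi)) - ξ (S (θ + Δ + Real.pi))‖ * Real.cos (Δ / 2) ≤ a2 ∧
      a1 = pr (ξ (S (θ + Δ)) - ξ (S θ)) (θ + Δ / 2 + Real.pi / 2) ∧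
      |pr (ξ (S (θ + Δ)) - ξ (S θ)) (θ + Δ / 2)| * Real.cos (Δ / 2) ≤ a1 * Real.sin (Δ / 2) := by
  obtain ⟨h1, h2⟩ := W.cone1 (θ := θ) (Δ := Δ)
  obtain ⟨h3, h4⟩ := W.cone2 (θ := θ) (Δ := Δ)
  obtain ⟨k1, k2, k3⟩ := cone hΔ0 hΔ h1 h2
  obtain ⟨k4, k5, k6⟩ := cone hΔ0 hΔ h3 h4
  refine ⟨_, _, k3, k6, ?_, k2, k5, rfl, k1⟩
  rw [← pr_add]
  have e : ξ (S (θ + Δ)) - ξ (S θ) + (ξ (S (θ + Real.pi)) - ξ (S (θ + Δ + Real.pi))) =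
      uu (θ + Δ) - uu θ := by
    rw [← W.S_sub θ, ← W.S_sub (θ + Δ)]; ring
  rw [e, uu_sub, pr_smul, pr_uu, sub_self, Real.cos_zero, mul_one]

/-- normal cones are intervals -/
lemma const_between {θ φ ψ : ℝ} (h1 : θ ≤ φ) (h2 : φ ≤ ψ) (h3 : ψ < θ + Real.pi)
    (he : ξ (S ψ) = ξ (S θ)) : ξ (S φ) = ξ (S θ) := by
  rcases h1.eq_or_lt with h | h
  · rw [h]
  symm
  apply W.uniq
  apply le_antisymm (W.pr_le_h _ _)
  have hs : 0 < Real.sin (ψ - θ) := Real.sin_pos_of_pos_of_lt_pi (by linarith) (by linarith)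
  have h4 := W.hh.three (range_nonempty ξ) (a := θ) (b := φ) (c := ψ) hs.le
    (Real.sin_nonneg_of_nonneg_of_le_pi (by linarith) (by linarith))
    (Real.sin_nonneg_of_nonneg_of_le_pi (by linarith) (by linarith))
  rw [← W.prS θ, ← W.prS ψ, he, ← pr_three] at h4
  exact le_of_mul_le_mul_right h4 hs

end WidthOne

lemma uu_inj {a b : ℝ} (h : uu a = uu b) (h1 : a < b) (h2 : b < a + 2 * Real.pi) : False := by
  have h3 : pr (uu a) b = 1 := by rw [h, pr_uu, sub_self, Real.cos_zero]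
  rw [pr_uu] at h3
  have h4 := (Real.cos_eq_one_iff_of_lt_of_lt (x := a - b) (by linarith) (by linarith)).1 h3
  linarith

end Pool.Agent.W561.Sallee
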