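import Pool.Agent.W561.Sallee.Rigid
import Pool.Agent.W561.Sallee.Angle

set_option autoImplicit false
set_option linter.unusedSectionVars false

/-!
# Rigidity: the original curve is congruent to the plane curve
-/

namespace Pool.Agent.W561.Sallee

open Set

variable {E : Type*} [NormedAddCommGroup E] [InnerProductSpace ℝ E]

/-- the curve `c` with shorter chords, and still a far point for every point -/
structure RigidData (ξ : ℝ → ℂ) (L : ℝ) (h : ℝ → ℝ) (S : ℝ → ℝ) (c : ℝ → E) : Prop where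
  W : WidthOne ξ L h S
  chord : ∀ s t, ‖c s - c t‖ ≤ ‖ξ s - ξ t‖
  far : ∀ s, ∃ t, 1 ≤ ‖c s - c t‖

lemma cos_half_ge {Δ : ℝ} (h0 : 0 < Δ) (h1 : Δ ≤ 1) : 7 / 8 ≤ Real.cos (Δ / 2) := by
  have := Real.one_sub_sq_div_two_le_cos (x := Δ / 2)
  nlinarith

namespace RigidData

variable {ξ : ℝ → ℂ} {L : ℝ} {h : ℝ → ℝ} {S : ℝ → ℝ} {c : ℝ → E} (D : RigidData ξ L h S c)
include D

lemma c_eq {s t : ℝ} (e : ξ s = ξ t) : c s = c t := by
  have h1 := D.chord s t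
  rw [e, sub_self, norm_zero] at h1
  exact sub_eq_zero.1 (norm_le_zero_iff.1 h1)

lemma lipA {θ Δ : ℝ} (hΔ0 : 0 < Δ) (hΔ : Δ ≤ 1) : ‖c (S (θ + Δ)) - c (S θ)‖ ≤ 2 * Δ := by
  obtain ⟨a1, a2, h1, h2, h3, h4, -, -, -⟩ := D.W.chords (θ := θ) hΔ0
    (by linarith [Real.pi_gt_three])
  have h5 := cos_half_ge hΔ0 hΔ
  have h6 : Real.sin (Δ / 2) ≤ Δ / 2 := Real.sin_le (by linarith)
  have h7 := D.chord (S (θ + Δ)) (S θ)
  have h8 : ‖ξ (S (θ + Δ)) - ξ (S θ)‖ * (7 / 8) ≤ Δ := by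
    have := mul_le_mul_of_nonneg_left h5 (norm_nonneg (ξ (S (θ + Δ)) - ξ (S θ)))
    linarith
  linarith [norm_nonneg (ξ (S (θ + Δ)) - ξ (S θ))]

lemma contA : Continuous fun θ => c (S θ) := by
  rw [Metric.continuous_iff]
  intro θ ε hε
  refine ⟨min 1 (ε / 2), lt_min one_pos (by linarith), fun φ hφ => ?_⟩
  rw [Real.dist_eq] at hφ
  have h1 : |φ - θ| < 1 := lt_of_lt_of_le hφ (min_le_left _ _)
  have h2 : |φ - θ| < ε / 2 := lt_of_lt_of_le hφ (min_le_right _ _)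
  rcases lt_trichotomy φ θ with h | h | h
  · rw [abs_of_neg (by linarith)] at h1 h2
    have := D.lipA (θ := φ) (Δ := θ - φ) (by linarith) (by linarith)
    rw [add_sub_cancel] at this
    rw [dist_comm, dist_eq_norm]
    linarith
  · rw [h, dist_self]; exact hε
  · rw [abs_of_pos (by linarith)] at h1 h2
    have := D.lipA (θ := θ) (Δ := φ - θ) (by linarith) (by linarith)
    rw [add_sub_cancel] at this
    rw [dist_eq_norm]
    linarith

/-- the set of directions whose diametral chord is kept by `c` -/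
def T (_ : RigidData ξ L h S c) : Set ℝ := {θ | 1 ≤ ‖c (S θ) - c (S (θ + Real.pi))‖}

lemma closedT : IsClosed D.T := by
  have h1 := D.contA
  have h2 : Continuous fun θ => c (S (θ + Real.pi)) := h1.comp (continuous_id.add continuous_const)
  exact isClosed_le continuous_const (h1.sub h2).norm

lemma perA (θ : ℝ) (n : ℤ) : c (S (θ + n * (2 * Real.pi))) = c (S θ) := D.c_eq (D.W.perInt θ n)

lemma per2A (θ : ℝ) : c (S (θ + Real.pi + Real.pi)) = c (S θ) := by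
  apply D.c_eq
  rw [show θ + Real.pi + Real.pi = θ + 2 * Real.pi by ring]
  exact D.W.per2 θ

lemma T_pi {θ : ℝ} (hθ : θ + Real.pi ∈ D.T) : θ ∈ D.T := by
  have h1 : 1 ≤ ‖c (S (θ + Real.pi)) - c (S (θ + Real.pi + Real.pi))‖ := hθ
  rw [D.per2A, norm_sub_rev] at h1
  exact h1

lemma T_exists (θ b : ℝ) : ∃ ψ ∈ Ico b (b + 2 * Real.pi), ψ ∈ D.T ∧ ξ (S ψ) = ξ (S θ) := by
  obtain ⟨t, ht⟩ := D.far (S θ)
  have h1 := D.chord (S θ) t
  have h2 := D.W.diam (S θ) t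
  obtain ⟨ψ, hψ⟩ := exists_pr_eq (ξ (S θ) - ξ t)
  have h3 : ‖ξ (S θ) - ξ t‖ = 1 := le_antisymm h2 (ht.trans h1)
  rw [h3, pr_sub] at hψ
  have k1 := D.W.pr_le_h (S θ) ψ
  have k2 := D.W.neg_le t ψ
  have k3 := D.W.hw ψ
  have e1 : ξ (S θ) = ξ (S ψ) := D.W.uniq (by linarith)
  have e2 : ξ t = ξ (S (ψ + Real.pi)) := D.W.uniq (by rw [pr_add_pi]; linarith)
  have hT : ψ ∈ D.T := by
    show 1 ≤ ‖c (S ψ) - c (S (ψ + Real.pi))‖
    rw [← D.c_eq e1, ← D.c_eq e2]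
    exact ht
  obtain ⟨n, hn⟩ : ∃ n : ℤ, ψ - n * (2 * Real.pi) ∈ Ico b (b + 2 * Real.pi) := by
    refine ⟨toIcoDiv Real.two_pi_pos b ψ, ?_⟩
    have := toIcoMod_mem_Ico Real.two_pi_pos b ψ
    rw [toIcoMod, zsmul_eq_mul] at this
    exact this
  have e3 : ψ = (ψ - n * (2 * Real.pi)) + n * (2 * Real.pi) := by ring
  refine ⟨_, hn, ?_, ?_⟩
  · show 1 ≤ ‖c (S (ψ - n * (2 * Real.pi))) - c (S (ψ - n * (2 * Real.pi) + Real.pi))‖
    rw [← D.perA (ψ - n * (2 * Real.pi)) n, ← D.perA (ψ - n * (2 * Real.pi) + Real.pi) n, ← e3,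
      show ψ - n * (2 * Real.pi) + Real.pi + n * (2 * Real.pi) = ψ + Real.pi by ring]
    exact hT
  · rw [← D.W.perInt (ψ - n * (2 * Real.pi)) n, ← e3, e1]

lemma ne_opp (θ : ℝ) : ξ (S θ) ≠ ξ (S (θ + Real.pi)) := by
  intro h1
  have h2 := D.W.S_sub θ
  rw [h1, sub_self] at h2
  have h3 := norm_uu θ
  rw [← h2, norm_zero] at h3
  norm_num at h3

lemma T_open {θ ψ : ℝ} (h1 : ψ < θ + Real.pi) (he : ξ (S ψ) = ξ (S θ)) {φ : ℝ}
    (hφ : φ ∈ Ioo θ ψ) : φ ∈ D.T := by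
  obtain ⟨χ, hχ, hχT, hχe⟩ := D.T_exists (φ + Real.pi) φ
  have hpi := Real.pi_pos
  have hcons : ∀ x, θ ≤ x → x ≤ ψ → ξ (S x) = ξ (S θ) := fun x k1 k2 =>
    D.W.const_between k1 k2 h1 he
  have eφ := hcons φ hφ.1.le hφ.2.le
  have hne : φ ≠ χ := by
    rintro rfl
    exact D.ne_opp φ hχe
  have hlt : φ < χ := lt_of_le_of_ne hχ.1 hne
  -- contradiction from a common point
  have hcon : ∀ x, ξ (S x) = ξ (S (φ + Real.pi)) → θ ≤ x - Real.pi → x - Real.pi ≤ ψ →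
      uu (x - Real.pi) = uu φ := by
    intro x k1 k2 k3
    have k4 := hcons _ k2 k3
    have k5 := D.W.S_sub (x - Real.pi)
    rw [sub_add_cancel, k4, k1, ← eφ, D.W.S_sub φ] at k5
    exact k5.symm
  rcases lt_trichotomy χ (φ + Real.pi) with h2 | h2 | h2
  · exfalso
    obtain ⟨x, hx1, hx2⟩ := exists_between (max_lt h2 (by linarith [hφ.1] : θ + Real.pi <
      φ + Real.pi))
    have hx3 : χ < x := lt_of_le_of_lt (le_max_left _ _) hx1
    have hx4 : θ + Real.pi < x := lt_of_le_of_lt (le_max_right _ _) hx1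
    have k1 : ξ (S x) = ξ (S χ) :=
      D.W.const_between hx3.le hx2.le (by linarith) hχe.symm
    have k2 := hcon x (k1.trans hχe) (by linarith) (by linarith [hφ.2])
    exact uu_inj k2 (by linarith) (by linarith [hφ.2])
  · rw [h2] at hχT
    exact D.T_pi hχT
  · exfalso
    obtain ⟨x, hx1, hx2⟩ := exists_between (lt_min h2 (by linarith [hφ.2] : φ + Real.pi <
      ψ + Real.pi))
    have hx3 : x < χ := lt_of_lt_of_le hx2 (min_le_left _ _)
    have hx4 : x < ψ + Real.pi := lt_of_lt_of_le hx2 (min_le_right _ _)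
    have k1 : ξ (S x) = ξ (S (φ + Real.pi)) :=
      D.W.const_between hx1.le hx3.le (by linarith [hχ.2]) hχe
    have k2 := hcon x k1 (by linarith [hφ.1]) (by linarith)
    exact uu_inj k2.symm (by linarith) (by linarith [hφ.1])

lemma T_all (θ : ℝ) : θ ∈ D.T := by
  have hpi := Real.pi_pos
  obtain ⟨ψ, hψ, hψT, hψe⟩ := D.T_exists θ (θ - Real.pi)
  have hne : θ - Real.pi ≠ ψ := by
    rintro rfl
    have := D.ne_opp (θ - Real.pi)
    rw [sub_add_cancel] at this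
    exact this hψe
  have hlt : θ - Real.pi < ψ := lt_of_le_of_ne hψ.1 hne
  have hlt2 : ψ < θ + Real.pi := by linarith [hψ.2]
  rcases lt_trichotomy ψ θ with h2 | h2 | h2
  · have hsub : Ioo ψ θ ⊆ D.T := fun φ hφ => D.T_open (by linarith) hψe.symm hφ
    have := closure_minimal hsub D.closedT
    rw [closure_Ioo h2.ne] at this
    exact this (right_mem_Icc.2 h2.le)
  · rw [← h2]; exact hψT
  · have hsub : Ioo θ ψ ⊆ D.T := fun φ hφ => D.T_open hlt2 hψe hφ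
    have := closure_minimal hsub D.closedT
    rw [closure_Ioo h2.ne] at this
    exact this (left_mem_Icc.2 h2.le)

lemma norm_e (θ : ℝ) : ‖c (S θ) - c (S (θ + Real.pi))‖ = 1 := by
  apply le_antisymm _ (D.T_all θ)
  exact (D.chord _ _).trans (D.W.diam _ _)

lemma e_inner (θ φ : ℝ) : inner ℝ (c (S θ) - c (S (θ + Real.pi)))
    (c (S φ) - c (S (φ + Real.pi))) = Real.cos (θ - φ) := by
  refine inner_eq_cos (e := fun θ => c (S θ) - c (S (θ + Real.pi))) D.norm_e (fun θ => ?_)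
    (fun θ Δ h0 h1 => ?_) θ φ
  · simp only [D.per2A, neg_sub]
  · obtain ⟨a1, a2, k1, k2, k3, k4, k5, -, -⟩ := D.W.chords (θ := θ) h0
      (by linarith [Real.pi_gt_three])
    have h7 := D.chord (S (θ + Δ)) (S θ)
    have h8 := D.chord (S (θ + Real.pi)) (S (θ + Δ + Real.pi))
    have hc := cos_half_ge h0 h1
    have e : c (S (θ + Δ)) - c (S (θ + Δ + Real.pi)) - (c (S θ) - c (S (θ + Real.pi))) =
        (c (S (θ + Δ)) - c (S θ)) + (c (S (θ + Real.pi)) - c (S (θ + Δ + Real.pi))) := by abel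
    rw [e]
    have h9 := norm_add_le (c (S (θ + Δ)) - c (S θ)) (c (S (θ + Real.pi)) - c (S (θ + Δ + Real.pi)))
    have h10 : ‖(c (S (θ + Δ)) - c (S θ)) + (c (S (θ + Real.pi)) - c (S (θ + Δ + Real.pi)))‖ *
        Real.cos (Δ / 2) ≤ (‖ξ (S (θ + Δ)) - ξ (S θ)‖ +
          ‖ξ (S (θ + Real.pi)) - ξ (S (θ + Δ + Real.pi))‖) * Real.cos (Δ / 2) :=
      mul_le_mul_of_nonneg_right (by linarith) (by linarith)
    linarith

/-- **Rigidity**: `c` is obtained from `ξ` by an isometric embedding of the plane. -/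
theorem rigid : ∃ (e0 e1 f0 : E), ‖e0‖ = 1 ∧ ‖e1‖ = 1 ∧ inner ℝ e0 e1 = (0 : ℝ) ∧
    ∀ s, c s = f0 + ((ξ s).re • e0 + (ξ s).im • e1) := by
  obtain ⟨e, he⟩ : ∃ e : ℝ → E, e = fun θ => c (S θ) - c (S (θ + Real.pi)) := ⟨_, rfl⟩
  have hin : ∀ θ φ, inner ℝ (e θ) (e φ) = Real.cos (θ - φ) := by
    intro θ φ; rw [he]; exact D.e_inner θ φ
  have hn : ∀ θ, ‖e θ‖ = 1 := by intro θ; rw [he]; exact D.norm_e θ
  obtain ⟨e0, he0⟩ : ∃ e0, e0 = e 0 := ⟨_, rfl⟩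
  obtain ⟨e1, he1⟩ : ∃ e1, e1 = e (Real.pi / 2) := ⟨_, rfl⟩
  have n0 : ‖e0‖ = 1 := by rw [he0]; exact hn 0
  have n1 : ‖e1‖ = 1 := by rw [he1]; exact hn _
  have n01 : inner ℝ e0 e1 = (0 : ℝ) := by
    rw [he0, he1, hin, zero_sub, Real.cos_neg, Real.cos_pi_div_two]
  have hee : ∀ θ, e θ = Real.cos θ • e0 + Real.sin θ • e1 := by
    intro θ
    have h1 : ‖e θ - (Real.cos θ • e0 + Real.sin θ • e1)‖ ^ 2 = 0 := by
      have k1 : inner ℝ (e θ) e0 = Real.cos θ := by rw [he0, hin, sub_zero]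
      have k2 : inner ℝ (e θ) e1 = Real.sin θ := by
        rw [he1, hin, Real.cos_sub_pi_div_two]
      rw [norm_sub_sq_real, norm_add_sq_real, norm_smul, norm_smul]
      simp only [inner_add_right, real_inner_smul_right, real_inner_smul_left, k1, k2, n0, n1, n01,
        hn, Real.norm_eq_abs, mul_one, sq_abs]
      have := Real.sin_sq_add_cos_sq θ
      linarith
    have h2 := pow_eq_zero_iff two_ne_zero |>.1 h1
    exact sub_eq_zero.1 (norm_eq_zero.1 h2)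
  -- the linear map
  obtain ⟨ι, hι⟩ : ∃ ι : ℂ → E, ι = fun z => z.re • e0 + z.im • e1 := ⟨_, rfl⟩
  have ιsub : ∀ z w, ι z - ι w = ι (z - w) := by
    intro z w; rw [hι]; simp only [Complex.sub_re, Complex.sub_im]; module
  have ιuu : ∀ θ, ι (uu θ) = e θ := by intro θ; rw [hι, hee]; rfl
  -- coordinates of `ι v` in a rotated frame
  have ιrot : ∀ (v : ℂ) (μ : ℝ), ι v = pr v (μ + Real.pi / 2) • e (μ + Real.pi / 2) +
      pr v μ • e μ := by
    intro v μ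
    have h1 := Real.sin_sq_add_cos_sq μ
    have k1 : v.re = pr v (μ + Real.pi / 2) * Real.cos (μ + Real.pi / 2) + pr v μ * Real.cos μ := by
      simp only [pr, Real.cos_add_pi_div_two, Real.sin_add_pi_div_two]
      calc v.re = v.re * (Real.sin μ ^ 2 + Real.cos μ ^ 2) := by rw [h1, mul_one]
        _ = _ := by ring
    have k2 : v.im = pr v (μ + Real.pi / 2) * Real.sin (μ + Real.pi / 2) + pr v μ * Real.sin μ := by
      simp only [pr, Real.cos_add_pi_div_two, Real.sin_add_pi_div_two]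
      calc v.im = v.im * (Real.sin μ ^ 2 + Real.cos μ ^ 2) := by rw [h1, mul_one]
        _ = _ := by ring
    rw [hee, hee, hι]
    simp only
    conv_lhs => rw [k1, k2]
    module
  have hinc : ∀ θ Δ, 0 < Δ → Δ ≤ 1 →
      ‖(c (S (θ + Δ)) - ι (ξ (S (θ + Δ)))) - (c (S θ) - ι (ξ (S θ)))‖ ≤ 3 * Δ ^ 2 := by
    intro θ Δ h0 h1
    obtain ⟨a1, a2, k1, k2, k3, k4, k5, k6, k7⟩ := D.W.chords (θ := θ) h0
      (by linarith [Real.pi_gt_three])
    set v1 := ξ (S (θ + Δ)) - ξ (S θ) with hv1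
    set v2 := ξ (S (θ + Real.pi)) - ξ (S (θ + Δ + Real.pi)) with hv2
    set V1 := c (S (θ + Δ)) - c (S θ) with hV1
    set V2 := c (S (θ + Real.pi)) - c (S (θ + Δ + Real.pi)) with hV2
    set μ := θ + Δ / 2 with hμ
    set b1 := pr v1 μ with hb1
    have hV1n : ‖V1‖ ≤ ‖v1‖ := D.chord _ _
    have hV2n : ‖V2‖ ≤ ‖v2‖ := D.chord _ _
    set κ := Real.cos (Δ / 2) with hκ
    have hκ1 : 7 / 8 ≤ κ := cos_half_ge h0 h1
    have hκ2 : κ ≤ 1 := Real.cos_le_one _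
    have hκ3 : 1 - Δ ^ 2 / 8 ≤ κ := by
      have := Real.one_sub_sq_div_two_le_cos (x := Δ / 2)
      calc 1 - Δ ^ 2 / 8 = 1 - (Δ / 2) ^ 2 / 2 := by ring
        _ ≤ κ := this
    have hsin : Real.sin (Δ / 2) ≤ Δ / 2 := Real.sin_le (by linarith)
    have hsin0 : 0 ≤ Real.sin (Δ / 2) :=
      Real.sin_nonneg_of_nonneg_of_le_pi (by linarith) (by linarith [Real.pi_gt_three])
    have ha1 : a1 ≤ Δ := by linarith
    have ha2 : a2 ≤ Δ := by linarith
    -- the decomposition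
    set m := e (μ + Real.pi / 2) with hm
    have hmn : ‖m‖ = 1 := hn _
    have hVV : V1 + V2 = (2 * Real.sin (Δ / 2)) • m := by
      have h2 : V1 + V2 = e (θ + Δ) - e θ := by
        rw [he, hV1, hV2]; simp only; abel
      rw [h2, ← ιuu, ← ιuu, ιsub, uu_sub, hm, ← ιuu, hι]
      simp only [Complex.real_smul, Complex.mul_re, Complex.mul_im, Complex.ofReal_re,
        Complex.ofReal_im, zero_mul, sub_zero, add_zero]
      module
    have hV1m : a1 + a2 - ‖v2‖ ≤ inner ℝ V1 m := by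
      have h2 : inner ℝ V1 m + inner ℝ V2 m = 2 * Real.sin (Δ / 2) := by
        rw [← inner_add_left, hVV, real_inner_smul_left, real_inner_self_eq_norm_sq, hmn]; ring
      have h3 : inner ℝ V2 m ≤ ‖V2‖ * ‖m‖ := real_inner_le_norm _ _
      rw [hmn, mul_one] at h3
      linarith
    have hv1le : ‖v1‖ ≤ a1 / κ := by rw [le_div_iff₀ (by linarith)]; exact k4
    have hv2le : ‖v2‖ ≤ a2 / κ := by rw [le_div_iff₀ (by linarith)]; exact k5
    have hq1 : 1 / κ - 1 ≤ Δ ^ 2 / 6 := by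
      rw [div_sub_one (by linarith), div_le_iff₀ (by linarith)]
      nlinarith [sq_nonneg Δ]
    have hq0 : 0 ≤ 1 / κ - 1 := by
      rw [sub_nonneg, le_div_iff₀ (by linarith)]; linarith
    have hq2 : 1 / κ ^ 2 - 1 ≤ Δ ^ 2 / 2 := by
      have e2 : 1 / κ ^ 2 - 1 = (1 / κ - 1) * (1 / κ + 1) := by field_simp; ring
      have h3 : 1 / κ + 1 ≤ 2 + 1 / 6 := by nlinarith
      rw [e2]
      calc (1 / κ - 1) * (1 / κ + 1) ≤ (Δ ^ 2 / 6) * (2 + 1 / 6) :=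
            mul_le_mul hq1 h3 (by linarith) (by positivity)
        _ ≤ Δ ^ 2 / 2 := by nlinarith [sq_nonneg Δ]
    have hsqV : ‖V1 - a1 • m‖ ^ 2 ≤ (Δ ^ 2) ^ 2 := by
      rw [norm_sub_sq_real, norm_smul, hmn, Real.norm_eq_abs, mul_one, sq_abs,
        real_inner_smul_right]
      have h2 : ‖V1‖ ^ 2 ≤ (a1 / κ) ^ 2 := pow_le_pow_left₀ (norm_nonneg _) (hV1n.trans hv1le) 2
      have h3 : a1 * (a1 + a2 - a2 / κ) ≤ a1 * inner ℝ V1 m :=
        mul_le_mul_of_nonneg_left (by linarith) k1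
      have h4 : (a1 / κ) ^ 2 - 2 * (a1 * (a1 + a2 - a2 / κ)) + a1 ^ 2 =
          a1 ^ 2 * (1 / κ ^ 2 - 1) + 2 * (a1 * a2) * (1 / κ - 1) := by
        field_simp; ring
      have h5 : a1 ^ 2 ≤ Δ ^ 2 := pow_le_pow_left₀ k1 ha1 2
      have h6 : a1 * a2 ≤ Δ ^ 2 := by
        rw [sq]; exact mul_le_mul ha1 ha2 k2 h0.le
      have h7 : a1 ^ 2 * (1 / κ ^ 2 - 1) ≤ Δ ^ 2 * (Δ ^ 2 / 2) := by
        have h8 : 0 ≤ 1 / κ ^ 2 - 1 := by
          have e2 : 1 / κ ^ 2 - 1 = (1 / κ - 1) * (1 / κ + 1) := by field_simp; ring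
          rw [e2]; exact mul_nonneg hq0 (by linarith)
        exact mul_le_mul h5 hq2 h8 (by positivity)
      have h8 : 2 * (a1 * a2) * (1 / κ - 1) ≤ 2 * Δ ^ 2 * (Δ ^ 2 / 6) :=
        mul_le_mul (by linarith) hq1 hq0 (by positivity)
      nlinarith [sq_nonneg (Δ ^ 2)]
    have hV : ‖V1 - a1 • m‖ ≤ Δ ^ 2 :=
      (pow_le_pow_iff_left₀ (norm_nonneg _) (by positivity) two_ne_zero).1 hsqV
    have hb : |b1| ≤ Δ ^ 2 := by
      have h2 : a1 * Real.sin (Δ / 2) ≤ Δ * (Δ / 2) := mul_le_mul ha1 hsin hsin0 h0.le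
      have h3 : |b1| * (7 / 8) ≤ |b1| * κ := mul_le_mul_of_nonneg_left hκ1 (abs_nonneg _)
      nlinarith [abs_nonneg b1]
    have e3 : (c (S (θ + Δ)) - ι (ξ (S (θ + Δ)))) - (c (S θ) - ι (ξ (S θ))) =
        (V1 - a1 • m) - b1 • e μ := by
      have h2 : (c (S (θ + Δ)) - ι (ξ (S (θ + Δ)))) - (c (S θ) - ι (ξ (S θ))) =
          V1 - (ι (ξ (S (θ + Δ))) - ι (ξ (S θ))) := by rw [hV1]; abel
      rw [h2, ιsub, ← hv1, ιrot v1 μ, ← k6, ← hb1, ← hm]
      abel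
    rw [e3]
    have h9 := norm_sub_le (V1 - a1 • m) (b1 • e μ)
    rw [norm_smul, hn, mul_one, Real.norm_eq_abs] at h9
    linarith [sq_nonneg Δ]
  have hconst := const_of_sq (f := fun θ => c (S θ) - ι (ξ (S θ))) hinc
  refine ⟨e0, e1, c (S 0) - ι (ξ (S 0)), n0, n1, n01, fun s => ?_⟩
  obtain ⟨θ, hθ⟩ := D.W.P.bdry s
  have h1 := D.W.uniqM hθ
  have h2 := D.c_eq h1
  have h3 : c (S 0) - ι (ξ (S 0)) = c (S θ) - ι (ξ (S θ)) := hconst 0 θ
  have h4 : (ξ s).re • e0 + (ξ s).im • e1 = ι (ξ (S θ)) := by rw [← h1, hι]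
  rw [h4, h3, h2]
  abel

end RigidData

end Pool.Agent.W561.Sallee
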