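import Mathlib

set_option autoImplicit false

/-!
# Support functions of plane sets
-/

namespace Pool.Agent.W561.Sallee

open Set

/-- The coordinate of the point `z` of the plane in the direction `(cos θ, sin θ)`. -/
noncomputable def pr (z : ℂ) (θ : ℝ) : ℝ := z.re * Real.cos θ + z.im * Real.sin θ

/-- the unit vector `(cos θ, sin θ)` -/
noncomputable def uu (θ : ℝ) : ℂ := ⟨Real.cos θ, Real.sin θ⟩

lemma pr_add (z w : ℂ) (θ : ℝ) : pr (z + w) θ = pr z θ + pr w θ := by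
  simp only [pr, Complex.add_re, Complex.add_im]; ring

lemma pr_sub (z w : ℂ) (θ : ℝ) : pr (z - w) θ = pr z θ - pr w θ := by
  simp only [pr, Complex.sub_re, Complex.sub_im]; ring

lemma pr_neg (z : ℂ) (θ : ℝ) : pr (-z) θ = - pr z θ := by
  simp only [pr, Complex.neg_re, Complex.neg_im]; ring

lemma pr_smul (r : ℝ) (z : ℂ) (θ : ℝ) : pr (r • z) θ = r * pr z θ := by
  simp only [pr, Complex.real_smul, Complex.mul_re, Complex.mul_im, Complex.ofReal_re,
    Complex.ofReal_im]; ring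

lemma pr_uu (θ φ : ℝ) : pr (uu θ) φ = Real.cos (θ - φ) := by
  simp only [pr, uu, Real.cos_sub]

lemma norm_uu (θ : ℝ) : ‖uu θ‖ = 1 := by
  rw [← sq_eq_sq₀ (norm_nonneg _) (by norm_num), Complex.sq_norm, Complex.normSq_apply]
  simp only [uu]
  have := Real.sin_sq_add_cos_sq θ
  linarith

lemma pr_add_pi (z : ℂ) (θ : ℝ) : pr z (θ + Real.pi) = - pr z θ := by
  simp only [pr, Real.cos_add_pi, Real.sin_add_pi]; ring

lemma pr_add_two_pi (z : ℂ) (θ : ℝ) : pr z (θ + 2 * Real.pi) = pr z θ := by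
  simp only [pr, Real.cos_add_two_pi, Real.sin_add_two_pi]

lemma pr_sq_le (z : ℂ) (θ : ℝ) : pr z θ ^ 2 ≤ ‖z‖ ^ 2 := by
  rw [Complex.sq_norm, Complex.normSq_apply]
  have h := Real.sin_sq_add_cos_sq θ
  have : (pr z θ) ^ 2 + (z.re * Real.sin θ - z.im * Real.cos θ) ^ 2 =
      (z.re * z.re + z.im * z.im) * (Real.sin θ ^ 2 + Real.cos θ ^ 2) := by
    simp only [pr]; ring
  rw [h, mul_one] at this
  nlinarith [sq_nonneg (z.re * Real.sin θ - z.im * Real.cos θ)]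

lemma abs_pr_le (z : ℂ) (θ : ℝ) : |pr z θ| ≤ ‖z‖ :=
  abs_le_of_sq_le_sq (by simpa using pr_sq_le z θ) (norm_nonneg z) |> fun h => by
    simpa using h

lemma pr_le (z : ℂ) (θ : ℝ) : pr z θ ≤ ‖z‖ := (le_abs_self _).trans (abs_pr_le z θ)

lemma exists_pr_eq (z : ℂ) : ∃ θ, pr z θ = ‖z‖ := by
  refine ⟨Complex.arg z, ?_⟩
  have h1 := Complex.norm_mul_cos_arg z
  have h2 := Complex.norm_mul_sin_arg z
  simp only [pr]
  rw [← h1, ← h2]
  have := Real.sin_sq_add_cos_sq (Complex.arg z)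
  calc _ = ‖z‖ * (Real.sin (Complex.arg z) ^ 2 + Real.cos (Complex.arg z) ^ 2) := by ring
    _ = _ := by rw [this, mul_one]

lemma pr_three (z : ℂ) (a b c : ℝ) :
    pr z b * Real.sin (c - a) = pr z a * Real.sin (c - b) + pr z c * Real.sin (b - a) := by
  simp only [pr, Real.sin_sub]
  have h := Real.sin_sq_add_cos_sq b
  have h2 := Real.sin_sq_add_cos_sq a
  ring_nf

lemma pr_lip (z : ℂ) (θ φ : ℝ) : |pr z θ - pr z φ| ≤ ‖z‖ * |θ - φ| := by
  have h : pr z θ - pr z φ = 2 * Real.sin ((θ - φ) / 2) * pr z ((θ + φ) / 2 + Real.pi / 2) := by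
    have e1 := Real.cos_sub_cos θ φ
    have e2 := Real.sin_sub_sin θ φ
    have : pr z θ - pr z φ = z.re * (Real.cos θ - Real.cos φ) + z.im * (Real.sin θ - Real.sin φ) := by
      simp only [pr]; ring
    rw [this, e1, e2]
    simp only [pr, Real.cos_add_pi_div_two, Real.sin_add_pi_div_two]
    ring
  rw [h, abs_mul, abs_mul, mul_comm ‖z‖]
  apply mul_le_mul _ (abs_pr_le _ _) (abs_nonneg _) (abs_nonneg _)
  have h2 : |Real.sin ((θ - φ) / 2)| ≤ |(θ - φ) / 2| := Real.abs_sin_le_abs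
  rw [abs_div, abs_two] at h2
  rw [abs_two]
  linarith

/-- `f` is the support function of the plane set `S`. -/
def IsSupp (S : Set ℂ) (f : ℝ → ℝ) : Prop := ∀ θ, IsLUB ((fun z => pr z θ) '' S) (f θ)

lemma exists_isSupp {S : Set ℂ} (hne : S.Nonempty) {R : ℝ} (hR : ∀ z ∈ S, ‖z‖ ≤ R) :
    ∃ f, IsSupp S f := by
  refine ⟨fun θ => sSup ((fun z => pr z θ) '' S), fun θ => isLUB_csSup (hne.image _) ⟨R, ?_⟩⟩
  rintro _ ⟨z, hz, rfl⟩
  exact (pr_le z θ).trans (hR z hz)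

namespace IsSupp

variable {S : Set ℂ} {f : ℝ → ℝ} (hf : IsSupp S f)
include hf

lemma pr_le' {z : ℂ} (hz : z ∈ S) (θ : ℝ) : pr z θ ≤ f θ := (hf θ).1 ⟨z, hz, rfl⟩

lemma le_of {θ B : ℝ} (h : ∀ z ∈ S, pr z θ ≤ B) : f θ ≤ B :=
  (hf θ).2 (by rintro _ ⟨z, hz, rfl⟩; exact h z hz)

lemma periodic (θ : ℝ) : f (θ + 2 * Real.pi) = f θ := by
  apply le_antisymm
  · exact hf.le_of fun z hz => by rw [pr_add_two_pi]; exact hf.pr_le' hz θ
  · exact hf.le_of fun z hz => by rw [← pr_add_two_pi]; exact hf.pr_le' hz _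

lemma lip {R : ℝ} (hR : ∀ z ∈ S, ‖z‖ ≤ R) (θ φ : ℝ) : f θ - f φ ≤ R * |θ - φ| := by
  have : f θ ≤ f φ + R * |θ - φ| := by
    refine hf.le_of fun z hz => ?_
    have h1 := (le_abs_self _).trans (pr_lip z θ φ)
    have h2 := hf.pr_le' hz φ
    have h3 := mul_le_mul_of_nonneg_right (hR z hz) (abs_nonneg (θ - φ))
    linarith
  linarith

lemma continuous {R : ℝ} (hR : ∀ z ∈ S, ‖z‖ ≤ R) : Continuous f := by
  rw [Metric.continuous_iff]
  intro θ ε hε
  refine ⟨ε / (|R| + 1), by positivity, fun φ hφ => ?_⟩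
  rw [Real.dist_eq] at hφ ⊢
  have h1 := hf.lip hR φ θ
  have h2 := hf.lip hR θ φ
  rw [abs_sub_comm θ φ] at h2
  have h3 : |f φ - f θ| ≤ R * |φ - θ| := abs_sub_le_iff.2 ⟨h1, h2⟩
  have h4 : R * |φ - θ| ≤ (|R| + 1) * |φ - θ| :=
    mul_le_mul_of_nonneg_right (by linarith [le_abs_self R]) (abs_nonneg _)
  have h5 : (|R| + 1) * |φ - θ| < ε := by
    rw [lt_div_iff₀ (by positivity)] at hφ
    linarith
  linarith

lemma three (hne : S.Nonempty) {a b c : ℝ} (h1 : 0 ≤ Real.sin (c - a))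
    (h2 : 0 ≤ Real.sin (c - b)) (h3 : 0 ≤ Real.sin (b - a)) :
    f b * Real.sin (c - a) ≤ f a * Real.sin (c - b) + f c * Real.sin (b - a) := by
  have key : ∀ z ∈ S, pr z b * Real.sin (c - a) ≤
      f a * Real.sin (c - b) + f c * Real.sin (b - a) := by
    intro z hz
    rw [pr_three]
    exact add_le_add (mul_le_mul_of_nonneg_right (hf.pr_le' hz a) h2)
      (mul_le_mul_of_nonneg_right (hf.pr_le' hz c) h3)
  rcases h1.eq_or_lt with h | h
  · obtain ⟨z, hz⟩ := hne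
    have := key z hz
    rw [← h, mul_zero] at this ⊢
    exact this
  · rw [← le_div_iff₀ h]
    refine hf.le_of fun z hz => ?_
    rw [le_div_iff₀ h]
    exact key z hz

lemma opp (hne : S.Nonempty) (θ : ℝ) : 0 ≤ f θ + f (θ + Real.pi) := by
  obtain ⟨z, hz⟩ := hne
  have h1 := hf.pr_le' hz θ
  have h2 := hf.pr_le' hz (θ + Real.pi)
  rw [pr_add_pi] at h2
  linarith

lemma conv (hne : S.Nonempty) {t : ℝ} (ht0 : 0 < t) (ht : t < Real.pi / 2) (θ : ℝ) :
    2 * Real.cos t * f θ ≤ f (θ + t) + f (θ - t) := by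
  have hs : 0 < Real.sin t := Real.sin_pos_of_pos_of_lt_pi ht0 (by linarith [Real.pi_pos])
  have hs2 : 0 < Real.sin (2 * t) := Real.sin_pos_of_pos_of_lt_pi (by linarith) (by linarith)
  have h := hf.three hne (a := θ - t) (b := θ) (c := θ + t)
    (by rw [show θ + t - (θ - t) = 2 * t by ring]; exact hs2.le)
    (by rw [add_sub_cancel_left]; exact hs.le) (by rw [sub_sub_cancel]; exact hs.le)
  rw [show θ + t - (θ - t) = 2 * t by ring, add_sub_cancel_left, sub_sub_cancel,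
    Real.sin_two_mul] at h
  have h2 : (2 * Real.cos t * f θ) * Real.sin t ≤ (f (θ + t) + f (θ - t)) * Real.sin t := by
    linarith
  exact le_of_mul_le_mul_right h2 hs

end IsSupp

end Pool.Agent.W561.Sallee
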