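import Pool.Agent.W561.Sallee.Major

set_option autoImplicit false

/-!
# Curves with maximal chords are plane curves
-/

namespace Pool.Agent.W561.Sallee

open Set

variable {E : Type*} [NormedAddCommGroup E] [InnerProductSpace ℝ E]

lemma MaxAt.add_period {x : ℝ → E} {v : E} {L s : ℝ} (px : Function.Periodic x L) :
    MaxAt x v (s + L) ↔ MaxAt x v s := by
  unfold MaxAt; rw [px s]

lemma exists_maxAt {x : ℝ → E} (hx : Continuous x) {L : ℝ} (hL : 0 < L)
    (px : Function.Periodic x L) (v : E) (s0 : ℝ) : ∃ a ∈ Icc s0 (s0 + L), MaxAt x v a := by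
  obtain ⟨a, ha, hmax⟩ := (isCompact_Icc (a := s0) (b := s0 + L)).exists_isMaxOn
    (nonempty_Icc.2 (by linarith)) (f := fun r => inner ℝ (x r) v)
    (Continuous.continuousOn (by fun_prop))
  refine ⟨a, ha, fun r => ?_⟩
  obtain ⟨r', hr', e⟩ := px.exists_mem_Ico hL r s0
  rw [e]
  exact hmax ⟨hr'.1, hr'.2.le⟩

/-- Compactness: the set of `θ` for which two maximal parameters `a ≤ b` exist is closed. -/
lemma isClosed_pair {x : ℝ → E} (hx : Continuous x) {u u' : ℝ → E} (hu : Continuous u)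
    (hu' : Continuous u') (s0 s1 : ℝ) :
    IsClosed {θ : ℝ | ∃ a ∈ Icc s0 s1, ∃ b ∈ Icc s0 s1, MaxAt x (u θ) a ∧ MaxAt x (u' θ) b ∧
      a ≤ b} := by
  have h1 : IsClosed {p : ℝ × (Icc s0 s1 × Icc s0 s1) | MaxAt x (u p.1) p.2.1 ∧
      MaxAt x (u' p.1) p.2.2 ∧ (p.2.1 : ℝ) ≤ p.2.2} := by
    have c1 : IsClosed {p : ℝ × (Icc s0 s1 × Icc s0 s1) | MaxAt x (u p.1) p.2.1} := by
      simp only [MaxAt, Set.ofPred_forall]
      exact isClosed_iInter fun r => isClosed_le (by fun_prop) (by fun_prop)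
    have c2 : IsClosed {p : ℝ × (Icc s0 s1 × Icc s0 s1) | MaxAt x (u' p.1) p.2.2} := by
      simp only [MaxAt, Set.ofPred_forall]
      exact isClosed_iInter fun r => isClosed_le (by fun_prop) (by fun_prop)
    have c3 : IsClosed {p : ℝ × (Icc s0 s1 × Icc s0 s1) | (p.2.1 : ℝ) ≤ p.2.2} :=
      isClosed_le (by fun_prop) (by fun_prop)
    exact c1.inter (c2.inter c3)
  have h2 := isClosedMap_fst_of_compactSpace _ h1
  convert h2 using 1
  ext θ
  constructor
  · rintro ⟨a, ha, b, hb, h3, h4, h5⟩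
    exact ⟨(θ, (⟨a, ha⟩, ⟨b, hb⟩)), ⟨h3, h4, h5⟩, rfl⟩
  · rintro ⟨⟨θ', ⟨a, ha⟩, ⟨b, hb⟩⟩, ⟨h3, h4, h5⟩, rfl⟩
    exact ⟨a, ha, b, hb, h3, h4, h5⟩

/-- Every parameter is maximal for some direction of a nondegenerate loop of directions. -/
theorem exists_dir {x : ℝ → E} (hx : Lip1 x) {L : ℝ} (hL : 0 < L) (px : Function.Periodic x L)
    (hmax : ChordMax L x) {u : ℝ → E} (hu : Continuous u)
    (huπ : ∀ θ, u (θ + Real.pi) = - u θ)
    (hnd : ∀ θ, ∃ r r', inner ℝ (x r) (u θ) ≠ inner ℝ (x r') (u θ)) (s0 : ℝ) :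
    ∃ θ, MaxAt x (u θ) s0 := by
  by_contra hno
  push Not at hno
  have hcx := hx.continuous
  have hno' : ∀ θ, ¬ MaxAt x (u θ) (s0 + L) := fun θ => by
    rw [MaxAt.add_period px]; exact hno θ
  have hopp : ∀ θ a, MaxAt x (u θ) a → MaxAt x (u (θ + Real.pi)) a → False := by
    intro θ a h1 h2
    obtain ⟨r, r', h⟩ := hnd θ
    apply h
    have e : ∀ r, inner ℝ (x r) (u θ) = inner ℝ (x a) (u θ) := by
      intro r
      have h3 := h1 r
      have h4 := h2 r
      rw [huπ, inner_neg_right, inner_neg_right] at h4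
      linarith
    rw [e r, e r']
  -- interior position
  have hint : ∀ θ, ∀ a ∈ Icc s0 (s0 + L), MaxAt x (u θ) a → s0 < a ∧ a < s0 + L := by
    intro θ a ha h
    refine ⟨lt_of_le_of_ne ha.1 ?_, lt_of_le_of_ne ha.2 ?_⟩
    · rintro rfl; exact hno θ h
    · rintro rfl; exact hno' θ h
  -- order connectedness
  have hoc : ∀ θ, ∀ a ∈ Icc s0 (s0 + L), ∀ b ∈ Icc s0 (s0 + L), MaxAt x (u θ) a →
      MaxAt x (u θ) b → ∀ s, a < s → s < b → MaxAt x (u θ) s := by
    intro θ a ha b hb hMa hMb s has hsb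
    obtain ⟨h1, h2⟩ := hint θ a ha hMa
    obtain ⟨h3, h4⟩ := hint θ b hb hMb
    rcases maxAt_conn hx hL px hmax hMa hMb has hsb (t := s0 + L) h4 (by linarith) with h | h
    · exact h
    · exact absurd h (hno' θ)
  set P : Set ℝ := {θ : ℝ | ∃ a ∈ Icc s0 (s0 + L), ∃ b ∈ Icc s0 (s0 + L),
    MaxAt x (u θ) a ∧ MaxAt x (u (θ + Real.pi)) b ∧ a ≤ b} with hP
  set Q : Set ℝ := {θ : ℝ | ∃ a ∈ Icc s0 (s0 + L), ∃ b ∈ Icc s0 (s0 + L),
    MaxAt x (u (θ + Real.pi)) a ∧ MaxAt x (u θ) b ∧ a ≤ b} with hQ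
  have cP : IsClosed P := isClosed_pair hcx hu (by fun_prop : Continuous fun θ => u (θ + Real.pi))
    s0 (s0 + L)
  have cQ : IsClosed Q := isClosed_pair hcx (by fun_prop : Continuous fun θ => u (θ + Real.pi)) hu
    s0 (s0 + L)
  have hcov : (univ : Set ℝ) ⊆ P ∪ Q := by
    intro θ _
    obtain ⟨a, ha, hMa⟩ := exists_maxAt hcx hL px (u θ) s0
    obtain ⟨b, hb, hMb⟩ := exists_maxAt hcx hL px (u (θ + Real.pi)) s0
    rcases le_total a b with h | h
    · exact Or.inl ⟨a, ha, b, hb, hMa, hMb, h⟩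
    · exact Or.inr ⟨b, hb, a, ha, hMb, hMa, h⟩
  have hu2 : ∀ θ, u (θ + Real.pi + Real.pi) = u θ := fun θ => by rw [huπ, huπ, neg_neg]
  have hPQ : ∀ θ, θ ∈ P → θ + Real.pi ∈ Q := by
    rintro θ ⟨a, ha, b, hb, hMa, hMb, h⟩
    exact ⟨a, ha, b, hb, by rw [hu2]; exact hMa, hMb, h⟩
  have hQP : ∀ θ, θ ∈ Q → θ + Real.pi ∈ P := by
    rintro θ ⟨a, ha, b, hb, hMa, hMb, h⟩
    exact ⟨a, ha, b, hb, hMa, by rw [hu2]; exact hMb, h⟩
  have hPne : (univ ∩ P).Nonempty := by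
    rcases hcov (mem_univ 0) with h | h
    · exact ⟨0, mem_univ _, h⟩
    · exact ⟨_, mem_univ _, hQP 0 h⟩
  have hQne : (univ ∩ Q).Nonempty := by
    rcases hcov (mem_univ 0) with h | h
    · exact ⟨_, mem_univ _, hPQ 0 h⟩
    · exact ⟨0, mem_univ _, h⟩
  obtain ⟨θ, -, ⟨a, ha, b, hb, hMa, hMb, hab⟩, ⟨b', hb', a', ha', hMb', hMa', hab'⟩⟩ :=
    isPreconnected_closed_iff.1 isPreconnected_univ P Q cP cQ hcov hPne hQne
  have n1 : a ≠ b := by rintro rfl; exact hopp θ a hMa hMb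
  have n2 : b' ≠ a' := by rintro rfl; exact hopp θ b' hMa' hMb'
  have l1 : a < b := lt_of_le_of_ne hab n1
  have l2 : b' < a' := lt_of_le_of_ne hab' n2
  rcases lt_trichotomy a b' with h | h | h
  · exact hopp θ b' (hoc θ a ha a' ha' hMa hMa' b' h l2) hMb'
  · subst h; exact hopp θ a hMa hMb'
  · exact hopp θ a hMa (hoc (θ + Real.pi) b' hb' b hb hMb' hMb a h l1)

/-- A curve with maximal chords is contained in the plane through three of its points. -/
theorem planar {x : ℝ → E} (hx : Lip1 x) {L : ℝ} (hL : 0 < L) (px : Function.Periodic x L)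
    (hmax : ChordMax L x) {s1 s2 : ℝ}
    (hind : ∀ α β : ℝ, α • (x s1 - x 0) + β • (x s2 - x 0) = 0 → α = 0 ∧ β = 0) (s3 : ℝ) :
    ∃ α β : ℝ, x s3 - x 0 = α • (x s1 - x 0) + β • (x s2 - x 0) := by
  by_contra hno
  push Not at hno
  set p1 := x s1 - x 0 with hp1
  set p2 := x s2 - x 0 with hp2
  set p3 := x s3 - x 0 with hp3
  have hind3 : ∀ α β γ : ℝ, α • p1 + β • p2 + γ • p3 = 0 → α = 0 ∧ β = 0 ∧ γ = 0 := by
    intro α β γ h
    have hγ : γ = 0 := by
      by_contra hγ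
      apply hno (-(α / γ)) (-(β / γ))
      have h1 : γ • p3 = -(α • p1 + β • p2) := by
        rw [eq_neg_iff_add_eq_zero, add_comm]; exact h
      have h2 : p3 = γ⁻¹ • (γ • p3) := by rw [smul_smul, inv_mul_cancel₀ hγ, one_smul]
      rw [h2, h1, smul_neg, smul_add, smul_smul, smul_smul, neg_smul, neg_smul, neg_add,
        inv_mul_eq_div, inv_mul_eq_div]
    rw [hγ, zero_smul, add_zero] at h
    obtain ⟨h1, h2⟩ := hind α β h
    exact ⟨h1, h2, hγ⟩
  set w := p3 - (1 / 3 : ℝ) • (p1 + p2) with hw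
  have hw0 : w ≠ 0 := by
    intro h
    have h1 : (-(1 / 3) : ℝ) • p1 + (-(1 / 3) : ℝ) • p2 + (1 : ℝ) • p3 = 0 := by
      rw [← h, hw]; simp only [smul_add, neg_smul, one_smul]; abel
    exact one_ne_zero (hind3 _ _ _ h1).2.2
  have hww : inner ℝ w w ≠ (0 : ℝ) := fun h => hw0 (inner_self_eq_zero.1 h)
  set a1 : ℝ := inner ℝ p1 w / inner ℝ w w with ha1
  set a2 : ℝ := inner ℝ p2 w / inner ℝ w w with ha2
  set f1 := p1 - a1 • w with hf1
  set f2 := p2 - a2 • w with hf2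
  have hf1w : inner ℝ f1 w = (0 : ℝ) := by
    rw [hf1, inner_sub_left, real_inner_smul_left, ha1, div_mul_cancel₀ _ hww, sub_self]
  have hf2w : inner ℝ f2 w = (0 : ℝ) := by
    rw [hf2, inner_sub_left, real_inner_smul_left, ha2, div_mul_cancel₀ _ hww, sub_self]
  set u : ℝ → E := fun θ => Real.cos θ • f1 + Real.sin θ • f2 with hu
  have huc : Continuous u := by fun_prop
  have huπ : ∀ θ, u (θ + Real.pi) = - u θ := fun θ => by
    simp only [hu, Real.cos_add_pi, Real.sin_add_pi, neg_smul, neg_add]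
  have huw : ∀ θ, inner ℝ (u θ) w = (0 : ℝ) := fun θ => by
    simp only [hu]
    rw [inner_add_left, real_inner_smul_left, real_inner_smul_left, hf1w, hf2w]; ring
  -- if `u θ` is orthogonal to all `p_i` we get a contradiction
  have horth : ∀ θ, inner ℝ p1 (u θ) = (0 : ℝ) → inner ℝ p2 (u θ) = (0 : ℝ) →
      inner ℝ p3 (u θ) = (0 : ℝ) → False := by
    intro θ h1 h2 h3
    have hself : inner ℝ (u θ) (u θ) = (0 : ℝ) := by
      have hwu : inner ℝ w (u θ) = (0 : ℝ) := by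
        rw [hw, inner_sub_left, real_inner_smul_left, inner_add_left, h1, h2, h3]; ring
      have e : inner ℝ (u θ) (u θ) = Real.cos θ * (inner ℝ p1 (u θ) - a1 * inner ℝ w (u θ)) +
          Real.sin θ * (inner ℝ p2 (u θ) - a2 * inner ℝ w (u θ)) := by
        conv_lhs => rw [show inner ℝ (u θ) (u θ) =
          inner ℝ (Real.cos θ • f1 + Real.sin θ • f2) (u θ) from rfl]
        rw [inner_add_left, real_inner_smul_left, real_inner_smul_left, hf1, hf2,
          inner_sub_left p1 (a1 • w) (u θ), inner_sub_left p2 (a2 • w) (u θ),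
          real_inner_smul_left, real_inner_smul_left]
      rw [e, h1, h2, hwu]; ring
    have h0 : u θ = 0 := inner_self_eq_zero.1 hself
    have h4 : (Real.cos θ + (1 / 3) * (Real.cos θ * a1 + Real.sin θ * a2)) • p1 +
        (Real.sin θ + (1 / 3) * (Real.cos θ * a1 + Real.sin θ * a2)) • p2 +
        (-(Real.cos θ * a1 + Real.sin θ * a2)) • p3 = 0 := by
      rw [← h0]
      simp only [hu, hf1, hf2, hw]
      module
    obtain ⟨h5, h6, h7⟩ := hind3 _ _ _ h4
    have h8 : Real.cos θ * a1 + Real.sin θ * a2 = 0 := by linarith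
    rw [h8, mul_zero, add_zero] at h5 h6
    have := Real.sin_sq_add_cos_sq θ
    rw [h5, h6] at this
    norm_num at this
  have hnd : ∀ θ, ∃ r r', inner ℝ (x r) (u θ) ≠ inner ℝ (x r') (u θ) := by
    intro θ
    by_contra hc
    push Not at hc
    apply horth θ
    · rw [hp1, inner_sub_left, hc s1 0, sub_self]
    · rw [hp2, inner_sub_left, hc s2 0, sub_self]
    · rw [hp3, inner_sub_left, hc s3 0, sub_self]
  obtain ⟨θ, hθ⟩ := exists_dir hx hL px hmax huc huπ hnd s3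
  have k0 := hθ 0
  have k1 := hθ s1
  have k2 := hθ s2
  have e3 : inner ℝ p3 (u θ) = (1 / 3 : ℝ) * (inner ℝ p1 (u θ) + inner ℝ p2 (u θ)) := by
    have h1 := huw θ
    rw [real_inner_comm, hw, inner_sub_left, real_inner_smul_left, inner_add_left] at h1
    linarith
  have m1 : inner ℝ p1 (u θ) = inner ℝ (x s1) (u θ) - inner ℝ (x 0) (u θ) := by
    rw [hp1, inner_sub_left]
  have m2 : inner ℝ p2 (u θ) = inner ℝ (x s2) (u θ) - inner ℝ (x 0) (u θ) := by
    rw [hp2, inner_sub_left]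
  have m3 : inner ℝ p3 (u θ) = inner ℝ (x s3) (u θ) - inner ℝ (x 0) (u θ) := by
    rw [hp3, inner_sub_left]
  apply horth θ <;> linarith

end Pool.Agent.W561.Sallee
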