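import Pool.Agent.W561.Sallee.Supp

set_option autoImplicit false

/-!
# The support function of the set of points within distance one of a plane set
-/

namespace Pool.Agent.W561.Sallee

open Set

/-- The data: `h` is the support function of `C`, a subset of the disc of radius `1 - ρ`; `k` is the
support function of `W = {w | |x + w| ≤ 1 for all x ∈ C}`. -/
structure Dat (C : Set ℂ) (h k : ℝ → ℝ) (ρ : ℝ) : Prop where
  ne : C.Nonempty
  hh : IsSupp C h
  ρpos : 0 < ρ
  bd : ∀ x ∈ C, ‖x‖ ≤ 1 - ρ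
  hk : IsSupp {w | ∀ x ∈ C, ‖x + w‖ ≤ 1} k

namespace Dat

variable {C : Set ℂ} {h k : ℝ → ℝ} {ρ : ℝ} (D : Dat C h k ρ)
include D

lemma ρle : ρ ≤ 1 := by
  obtain ⟨x, hx⟩ := D.ne
  have := D.bd x hx
  have := norm_nonneg x
  linarith

lemma memW {w : ℂ} (hw : ‖w‖ ≤ ρ) : w ∈ {w | ∀ x ∈ C, ‖x + w‖ ≤ 1} := by
  intro x hx
  have := D.bd x hx
  exact (norm_add_le _ _).trans (by linarith)

lemma neW : ({w | ∀ x ∈ C, ‖x + w‖ ≤ 1} : Set ℂ).Nonempty :=
  ⟨0, D.memW (by simpa using D.ρpos.le)⟩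

lemma bdW {w : ℂ} (hw : w ∈ {w | ∀ x ∈ C, ‖x + w‖ ≤ 1}) : ‖w‖ ≤ 2 := by
  obtain ⟨x, hx⟩ := D.ne
  have h1 := D.bd x hx
  have h2 := hw x hx
  have h3 : ‖w‖ ≤ ‖x + w‖ + ‖x‖ := by
    have := norm_sub_le (x + w) x
    rwa [add_sub_cancel_left] at this
  have := D.ρpos
  linarith

lemma k_ge (θ : ℝ) : ρ ≤ k θ := by
  have h1 : (ρ • uu θ) ∈ {w | ∀ x ∈ C, ‖x + w‖ ≤ 1} := D.memW (by
    rw [norm_smul, norm_uu, mul_one, Real.norm_eq_abs, abs_of_pos D.ρpos])
  have h2 := D.hk.pr_le' h1 θ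
  rw [pr_smul, pr_uu, sub_self, Real.cos_zero, mul_one] at h2
  exact h2

lemma k_pos (θ : ℝ) : 0 < k θ := D.ρpos.trans_le (D.k_ge θ)

lemma hk_le (θ : ℝ) : h θ + k θ ≤ 1 := by
  have : h θ ≤ 1 - k θ := D.hh.le_of fun x hx => by
    have : k θ ≤ 1 - pr x θ := D.hk.le_of fun w hw => by
      have h1 := pr_le (x + w) θ
      have h2 := hw x hx
      rw [pr_add] at h1
      linarith
    linarith
  linarith

lemma memW_of {w : ℂ} (hw : ∀ θ, h θ + pr w θ ≤ 1) : w ∈ {w | ∀ x ∈ C, ‖x + w‖ ≤ 1} := by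
  intro x hx
  obtain ⟨φ, hφ⟩ := exists_pr_eq (x + w)
  rw [← hφ, pr_add]
  have := D.hh.pr_le' hx φ
  linarith [hw φ]

lemma hcont : Continuous h := D.hh.continuous D.bd
lemma kcont : Continuous k := D.hk.continuous fun _ hw => D.bdW hw

lemma gLip (θ φ : ℝ) : (1 - h θ - k θ) - (1 - h φ - k φ) ≤ 3 * |θ - φ| := by
  have h1 := D.hh.lip (R := 1) (fun x hx => (D.bd x hx).trans (by linarith [D.ρpos])) φ θ
  have h2 := D.hk.lip (fun _ hw => D.bdW hw) φ θ
  rw [abs_sub_comm] at h1 h2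
  linarith

/-- the intersection point of two support lines stays below the support function outside the
arc -/
lemma s_le {a b : ℝ} (hab : a < b) (hab' : b < a + Real.pi) {φ : ℝ}
    (hφ : φ ∈ Ico a (a + 2 * Real.pi)) :
    k a * Real.sin (b - φ) + k b * Real.sin (φ - a) ≤ k φ * Real.sin (b - a) ∨ φ ∈ Icc a b := by
  have hne := D.neW
  have hs : 0 < Real.sin (b - a) := Real.sin_pos_of_pos_of_lt_pi (by linarith) (by linarith)
  by_cases h1 : φ ≤ b
  · exact Or.inr ⟨hφ.1, h1⟩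
  push Not at h1
  left
  by_cases h2 : φ ≤ a + Real.pi
  · have h3 := D.hk.three hne (a := a) (b := b) (c := φ)
      (Real.sin_nonneg_of_nonneg_of_le_pi (by linarith) (by linarith))
      (Real.sin_nonneg_of_nonneg_of_le_pi (by linarith) (by linarith)) hs.le
    have h4 : Real.sin (b - φ) = - Real.sin (φ - b) := by
      rw [← Real.sin_neg]; congr 1; ring
    rw [h4]
    linarith
  push Not at h2
  by_cases h3 : φ ≤ b + Real.pi
  · -- the antipodal arc
    set ψ := φ - Real.pi with hψ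
    have e : φ = ψ + Real.pi := by rw [hψ]; ring
    have h4 := D.hk.opp hne ψ
    have h5 := D.hk.three hne (a := a) (b := ψ) (c := b) hs.le
      (Real.sin_nonneg_of_nonneg_of_le_pi (by linarith) (by linarith))
      (Real.sin_nonneg_of_nonneg_of_le_pi (by linarith) (by linarith))
    have h6 : Real.sin (b - φ) = - Real.sin (b - ψ) := by
      rw [e, show b - (ψ + Real.pi) = (b - ψ) - Real.pi by ring, Real.sin_sub_pi]
    have h7 : Real.sin (φ - a) = - Real.sin (ψ - a) := by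
      rw [e, show (ψ + Real.pi) - a = (ψ - a) + Real.pi by ring, Real.sin_add_pi]
    rw [h6, h7]
    have h8 : - k ψ * Real.sin (b - a) ≤ k φ * Real.sin (b - a) := by
      apply mul_le_mul_of_nonneg_right _ hs.le
      rw [e]; linarith
    linarith
  · push Not at h3
    set ψ := φ - 2 * Real.pi with hψ
    have e : φ = ψ + 2 * Real.pi := by rw [hψ]; ring
    have h4 : k φ = k ψ := by rw [e]; exact D.hk.periodic ψ
    have hφ2 := hφ.2
    have h5 := D.hk.three hne (a := ψ) (b := a) (c := b)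
      (Real.sin_nonneg_of_nonneg_of_le_pi (by linarith) (by linarith)) hs.le
      (Real.sin_nonneg_of_nonneg_of_le_pi (by linarith) (by linarith))
    have h6 : Real.sin (b - φ) = Real.sin (b - ψ) := by
      rw [e, show b - (ψ + 2 * Real.pi) = (b - ψ) - 2 * Real.pi by ring, Real.sin_sub_two_pi]
    have h7 : Real.sin (φ - a) = - Real.sin (a - ψ) := by
      rw [e, show (ψ + 2 * Real.pi) - a = -(a - ψ) + 2 * Real.pi by ring, Real.sin_add_two_pi,
        Real.sin_neg]
    rw [h6, h7, h4]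
    linarith

/-- **Wulff shape lemma**: the support function `k` is sinusoidal on the arcs on which
`h + k < 1`. -/
lemma wulff {t θ₀ : ℝ} (ht0 : 0 < t) (ht : t < Real.pi / 2)
    (hg : ∀ θ ∈ Icc (θ₀ - t) (θ₀ + t), 0 < 1 - h θ - k θ) :
    k (θ₀ + t) + k (θ₀ - t) ≤ 2 * Real.cos t * k θ₀ := by
  have hpi := Real.pi_pos
  set a := θ₀ - t with ha
  set b := θ₀ + t with hb
  have hab : a < b := by linarith
  have hba : b - a = 2 * t := by rw [ha, hb]; ring
  have hs : 0 < Real.sin (b - a) := by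
    rw [hba]; exact Real.sin_pos_of_pos_of_lt_pi (by linarith) (by linarith)
  set w0 : ℂ := ⟨(k a * Real.sin b - k b * Real.sin a) / Real.sin (b - a),
    (k b * Real.cos a - k a * Real.cos b) / Real.sin (b - a)⟩ with hw0
  have hpw : ∀ φ, pr w0 φ * Real.sin (b - a) =
      k a * Real.sin (b - φ) + k b * Real.sin (φ - a) := by
    intro φ
    have : pr w0 φ = ((k a * Real.sin b - k b * Real.sin a) * Real.cos φ +
      (k b * Real.cos a - k a * Real.cos b) * Real.sin φ) / Real.sin (b - a) := by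
      simp only [pr, hw0]; ring
    rw [this, div_mul_cancel₀ _ hs.ne', Real.sin_sub b φ, Real.sin_sub φ a]
    ring
  -- minimum of g on the arc
  obtain ⟨θm, hθm, hmin⟩ := (isCompact_Icc (a := a) (b := b)).exists_isMinOn
    (nonempty_Icc.2 hab.le) (f := fun θ => 1 - h θ - k θ)
    ((continuous_const.sub D.hcont).sub D.kcont).continuousOn
  set ε := 1 - h θm - k θm with hε
  have hεpos : 0 < ε := hg θm hθm
  have hεle : ∀ θ ∈ Icc a b, ε ≤ 1 - h θ - k θ := fun θ hθ => hmin hθ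
  set l := min (1 / 2) (ε / (‖w0‖ + 1)) with hl
  have hw1 : 0 < ‖w0‖ + 1 := by positivity
  have hlpos : 0 < l := lt_min (by norm_num) (div_pos hεpos hw1)
  have hl1 : l ≤ 1 / 2 := min_le_left _ _
  have hl2 : l * ‖w0‖ ≤ ε := by
    have h1 : l * (‖w0‖ + 1) ≤ ε := by
      rw [← le_div_iff₀ hw1]; exact min_le_right _ _
    linarith
  -- the perturbed point is feasible
  have hfeas : ∀ w ∈ {w | ∀ x ∈ C, ‖x + w‖ ≤ 1},
      (1 - l) • w + l • w0 ∈ {w | ∀ x ∈ C, ‖x + w‖ ≤ 1} := by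
    intro w hw
    apply D.memW_of
    intro φ
    have hwφ := D.hk.pr_le' hw φ
    rw [pr_add, pr_smul, pr_smul]
    have h1 : (1 - l) * pr w φ ≤ (1 - l) * k φ := mul_le_mul_of_nonneg_left hwφ (by linarith)
    obtain ⟨n, hn⟩ : ∃ n : ℤ, φ - n * (2 * Real.pi) ∈ Ico a (a + 2 * Real.pi) := by
      refine ⟨toIcoDiv Real.two_pi_pos a φ, ?_⟩
      have := toIcoMod_mem_Ico Real.two_pi_pos a φ
      rw [toIcoMod, zsmul_eq_mul] at this
      exact this
    have hkper : Function.Periodic k (2 * Real.pi) := fun θ => D.hk.periodic θ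
    have hhper : Function.Periodic h (2 * Real.pi) := fun θ => D.hh.periodic θ
    have hpper : Function.Periodic (pr w0) (2 * Real.pi) := fun θ => pr_add_two_pi _ _
    set ψ := φ - n * (2 * Real.pi) with hψ
    have e1 : k φ = k ψ := (hkper.sub_int_mul_eq n).symm
    have e2 : h φ = h ψ := (hhper.sub_int_mul_eq n).symm
    have e3 : pr w0 φ = pr w0 ψ := (hpper.sub_int_mul_eq n).symm
    have h2 := D.hk_le ψ
    rcases D.s_le hab (by linarith) hn with h3 | h3
    · rw [← hpw] at h3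
      have h4 := le_of_mul_le_mul_right h3 hs
      have h5 : l * pr w0 ψ ≤ l * k ψ := mul_le_mul_of_nonneg_left h4 hlpos.le
      rw [e1] at h1
      rw [e2, e3]
      linarith
    · have h4 := hεle ψ h3
      have h5 : l * pr w0 ψ ≤ l * ‖w0‖ := mul_le_mul_of_nonneg_left (pr_le _ _) hlpos.le
      have h6 : 0 ≤ l * k ψ := mul_nonneg hlpos.le (D.k_pos ψ).le
      rw [e1] at h1
      rw [e2, e3]
      linarith
  have hkw : ∀ φ, pr w0 φ ≤ k φ := by
    intro φ
    have h1 : k φ ≤ (k φ - l * pr w0 φ) / (1 - l) := D.hk.le_of fun w hw => by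
      rw [le_div_iff₀ (by linarith)]
      have := D.hk.pr_le' (hfeas w hw) φ
      rw [pr_add, pr_smul, pr_smul] at this
      linarith
    rw [le_div_iff₀ (by linarith)] at h1
    have h2 : l * pr w0 φ ≤ l * k φ := by linarith
    exact le_of_mul_le_mul_left h2 hlpos
  have h1 := mul_le_mul_of_nonneg_right (hkw θ₀) hs.le
  rw [hpw θ₀, hba] at h1
  have e1 : b - θ₀ = t := by rw [hb]; ring
  have e2 : θ₀ - a = t := by rw [ha]; ring
  rw [e1, e2, Real.sin_two_mul] at h1
  have hst : 0 < Real.sin t := Real.sin_pos_of_pos_of_lt_pi ht0 (by linarith)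
  have h2 : (k b + k a) * Real.sin t ≤ (2 * Real.cos t * k θ₀) * Real.sin t := by linarith
  exact le_of_mul_le_mul_right h2 hst

/-- pointwise consequence -/
lemma wulff_mul {t : ℝ} (ht0 : 0 < t) (ht : t < Real.pi / 2) (θ : ℝ) :
    0 ≤ k (θ + t) + k (θ - t) - 2 * Real.cos t * k θ ∧
    (k (θ + t) + k (θ - t) - 2 * Real.cos t * k θ = 0 ∨ 1 - h θ - k θ ≤ 3 * t) := by
  have h0 := D.hk.conv D.neW ht0 ht θ
  refine ⟨by linarith, ?_⟩
  by_cases hg : ∀ φ ∈ Icc (θ - t) (θ + t), 0 < 1 - h φ - k φ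
  · left
    have := D.wulff ht0 ht hg
    linarith
  · right
    push Not at hg
    obtain ⟨φ, hφ, h1⟩ := hg
    have h2 := D.gLip θ φ
    have h3 : |θ - φ| ≤ t := abs_le.2 ⟨by linarith [hφ.2], by linarith [hφ.1]⟩
    linarith

end Dat

end Pool.Agent.W561.Sallee
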